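import Pool.Agent.W_f569db_zo.Defs

set_option autoImplicit false

/-!
# Computation rules for `kr` and `pm`, and the ideal `N`

All statements are short computations with sums over words (`Equiv.sumArrowEquivProdArrow`).
-/

noncomputable section

namespace ZO

open Matrix Module

variable {α : Type} [Fintype α] [DecidableEq α] {K : Type*} [Field K]
  {S S' S'' T T' T'' : Type} [Fintype S] [DecidableEq S] [Fintype S'] [DecidableEq S']
  [Fintype S''] [DecidableEq S''] [Fintype T] [DecidableEq T] [Fintype T'] [DecidableEq T']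
  [Fintype T''] [DecidableEq T'']

theorem kr_mul (A : Matrix (S'' → α) (S' → α) K) (A' : Matrix (S' → α) (S → α) K)
    (B : Matrix (T'' → α) (T' → α) K) (B' : Matrix (T' → α) (T → α) K) :
    kr A B * kr A' B' = kr (A * A') (B * B') := by
  ext c d
  rw [Matrix.mul_apply]
  change ∑ w : S' ⊕ T' → α, (A (c ∘ Sum.inl) (w ∘ Sum.inl) * B (c ∘ Sum.inr) (w ∘ Sum.inr)) *
    (A' (w ∘ Sum.inl) (d ∘ Sum.inl) * B' (w ∘ Sum.inr) (d ∘ Sum.inr)) =
    (A * A') (c ∘ Sum.inl) (d ∘ Sum.inl) * (B * B') (c ∘ Sum.inr) (d ∘ Sum.inr)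
  rw [Matrix.mul_apply, Matrix.mul_apply, Finset.sum_mul_sum, ← Finset.sum_product',
    Finset.univ_product_univ, ← (Equiv.sumArrowEquivProdArrow S' T' α).sum_comp]
  refine Finset.sum_congr rfl fun w _ => ?_
  exact mul_mul_mul_comm _ _ _ _

theorem kr_one : kr (1 : Matrix (S → α) (S → α) K) (1 : Matrix (T → α) (T → α) K) = 1 := by
  ext c d
  change (1 : Matrix (S → α) (S → α) K) (c ∘ Sum.inl) (d ∘ Sum.inl) *
    (1 : Matrix (T → α) (T → α) K) (c ∘ Sum.inr) (d ∘ Sum.inr) = _
  by_cases h : c = d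
  · rw [h, Matrix.one_apply_eq, Matrix.one_apply_eq, Matrix.one_apply_eq, mul_one]
  · rw [Matrix.one_apply_ne h]
    by_cases h1 : c ∘ Sum.inl = d ∘ Sum.inl
    · have h2 : c ∘ Sum.inr ≠ d ∘ Sum.inr := by
        intro h2
        apply h
        funext x
        rcases x with x | x
        · exact congrFun h1 x
        · exact congrFun h2 x
      rw [Matrix.one_apply_ne h2, mul_zero]
    · rw [Matrix.one_apply_ne h1, zero_mul]

theorem kr_ne_zero {A : Matrix (S' → α) (S → α) K} {B : Matrix (T' → α) (T → α) K} (hA : A ≠ 0)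
    (hB : B ≠ 0) : kr A B ≠ 0 := by
  intro h
  apply hA
  ext c d
  by_contra hcd
  apply hB
  ext c' d'
  have h1 : kr A B (Sum.elim c c') (Sum.elim d d') = 0 := by rw [h]; rfl
  have h2 : A c d * B c' d' = 0 := h1
  exact (mul_eq_zero.1 h2).resolve_left hcd

open Classical in
theorem Pm_apply {S S' : Type} (e : S ≃ S') (c : S' → α) (d : S → α) :
    pm α K e c d = if c ∘ e = d then 1 else 0 := rfl

theorem Pm_mul_left (e : S ≃ S') (A : Matrix (S → α) (S'' → α) K) (c : S' → α) (d : S'' → α) :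
    (pm α K e * A) c d = A (c ∘ e) d := by
  classical
  rw [Matrix.mul_apply, Finset.sum_eq_single (c ∘ e)]
  · rw [Pm_apply, if_pos rfl, one_mul]
  · intro w _ hw
    rw [Pm_apply, if_neg (fun h => hw h.symm), zero_mul]
  · intro h
    exact absurd (Finset.mem_univ _) h

theorem pm_refl : (pm α K (Equiv.refl S) : Matrix (S → α) (S → α) K) = 1 := by
  ext c d
  rw [Pm_apply, Equiv.coe_refl, Function.comp_id]
  by_cases h : c = d
  · rw [if_pos h, h, Matrix.one_apply_eq]
  · rw [if_neg h, Matrix.one_apply_ne h]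

theorem pm_mul (e : S ≃ S') (e' : S' ≃ S'') :
    pm α K e' * pm α K e = pm α K (e.trans e') := by
  ext c d
  rw [Pm_mul_left]
  rfl

theorem pm_symm_mul (e : S ≃ S') :
    pm α K e.symm * pm α K e = 1 := by
  rw [pm_mul, Equiv.self_trans_symm, pm_refl]

theorem mul_pm_apply (A : Matrix (S'' → α) (S' → α) K) (e : S ≃ S') (c : S'' → α) (d : S → α) :
    (A * pm α K e) c d = A c (d ∘ e.symm) := by
  classical
  rw [Matrix.mul_apply, Finset.sum_eq_single (d ∘ e.symm)]
  · rw [Pm_apply, if_pos (by funext x; simp), mul_one]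
  · intro w _ hw
    rw [Pm_apply, if_neg, mul_zero]
    intro h
    apply hw
    rw [← h]
    funext x
    simp
  · intro h
    exact absurd (Finset.mem_univ _) h

theorem pm_mul_apply (e : S ≃ S') (A : Matrix (S → α) (S'' → α) K) (c : S' → α) (d : S'' → α) :
    (pm α K e * A) c d = A (c ∘ e) d := by
  exact Pm_mul_left e A c d

namespace Sys

variable (Q : Sys α K)

/-- `N` is an ideal -/
theorem N_mul_left {A : Matrix (S'' → α) (S' → α) K} {B : Matrix (S' → α) (S → α) K}
    (hA : A ∈ Q.P S' S'') (hB : B ∈ Q.N S S') : A * B ∈ Q.N S S'' := by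
  refine ⟨Q.mul_mem hA hB.1, fun C hC => ?_⟩
  rw [Matrix.mul_assoc, Matrix.trace_mul_comm, Matrix.mul_assoc]
  exact hB.2 (C * A) (Q.mul_mem hC hA)

theorem N_mul_right {A : Matrix (S'' → α) (S' → α) K} {B : Matrix (S' → α) (S → α) K}
    (hA : A ∈ Q.N S' S'') (hB : B ∈ Q.P S S') : A * B ∈ Q.N S S'' := by
  refine ⟨Q.mul_mem hA.1 hB, fun C hC => ?_⟩
  rw [Matrix.mul_assoc]
  exact hA.2 (B * C) (Q.mul_mem hB hC)

/-- the trace of a numerically trivial endomorphism vanishes -/
theorem trace_N {A : Matrix (S → α) (S → α) K} (hA : A ∈ Q.N S S) : Matrix.trace A = 0 := by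
  have h := hA.2 1 (Q.one_mem S)
  rwa [Matrix.mul_one] at h

/-- Transport along bijections of the index sets. -/
def Pm_tr (α : Type) [Fintype α] [DecidableEq α] (K : Type*) [Field K] (e : S ≃ T)
    (e' : S' ≃ T') : Matrix (S' → α) (S → α) K ≃ₗ[K] Matrix (T' → α) (T → α) K where
  toFun X := pm α K e' * X * pm α K e.symm
  invFun Y := pm α K e'.symm * Y * pm α K e
  map_add' X Y := by rw [Matrix.mul_add, Matrix.add_mul]
  map_smul' c X := by rw [Matrix.mul_smul, Matrix.smul_mul]; rfl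
  left_inv X := by
    change pm α K e'.symm * (pm α K e' * X * pm α K e.symm) * pm α K e = X
    have h1 : (pm α K e'.symm * pm α K e' : Matrix (S' → α) (S' → α) K) = 1 := pm_symm_mul e'
    have h2 : (pm α K e.symm * pm α K e : Matrix (S → α) (S → α) K) = 1 := pm_symm_mul e
    rw [← Matrix.mul_assoc, ← Matrix.mul_assoc, h1, Matrix.one_mul, Matrix.mul_assoc, h2,
      Matrix.mul_one]
  right_inv Y := by
    change pm α K e' * (pm α K e'.symm * Y * pm α K e) * pm α K e.symm = Y
    have h1 : (pm α K e' * pm α K e'.symm : Matrix (T' → α) (T' → α) K) = 1 := by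
      have := pm_symm_mul (α := α) (K := K) e'.symm
      rwa [Equiv.symm_symm] at this
    have h2 : (pm α K e * pm α K e.symm : Matrix (T → α) (T → α) K) = 1 := by
      have := pm_symm_mul (α := α) (K := K) e.symm
      rwa [Equiv.symm_symm] at this
    rw [← Matrix.mul_assoc, ← Matrix.mul_assoc, h1, Matrix.one_mul, Matrix.mul_assoc, h2,
      Matrix.mul_one]

theorem Pm_tr_P (e : S ≃ T) (e' : S' ≃ T') {X : Matrix (S' → α) (S → α) K}
    (hX : X ∈ Q.P S S') : Pm_tr α K e e' X ∈ Q.P T T' :=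
  Q.mul_mem (Q.mul_mem (Q.pm_mem e') hX) (Q.pm_mem e.symm)

theorem Pm_tr_N (e : S ≃ T) (e' : S' ≃ T') {X : Matrix (S' → α) (S → α) K}
    (hX : X ∈ Q.N S S') : Pm_tr α K e e' X ∈ Q.N T T' :=
  Q.N_mul_right (Q.N_mul_left (Q.pm_mem e') hX) (Q.pm_mem e.symm)

theorem Pm_tr_symm (e : S ≃ T) (e' : S' ≃ T') (Y : Matrix (T' → α) (T → α) K) :
    (Pm_tr α K e e').symm Y = Pm_tr α K e.symm e'.symm Y := rfl

/-- `a` only depends on the isomorphism classes -/
theorem a_congr (e : S ≃ T) (e' : S' ≃ T') : Q.a S S' = Q.a T T' := by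
  have hP : (Q.P S S').map (Pm_tr α K e e').toLinearMap = Q.P T T' := by
    refine le_antisymm ?_ ?_
    · rintro _ ⟨X, hX, rfl⟩
      exact Q.Pm_tr_P e e' hX
    · intro Y hY
      refine ⟨(Pm_tr α K e e').symm Y, ?_, (Pm_tr α K e e').apply_symm_apply Y⟩
      rw [Pm_tr_symm]
      exact Q.Pm_tr_P e.symm e'.symm hY
  have hN : (Q.N S S').map (Pm_tr α K e e').toLinearMap = Q.N T T' := by
    refine le_antisymm ?_ ?_
    · rintro _ ⟨X, hX, rfl⟩
      exact Q.Pm_tr_N e e' hX
    · intro Y hY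
      refine ⟨(Pm_tr α K e e').symm Y, ?_, (Pm_tr α K e e').apply_symm_apply Y⟩
      rw [Pm_tr_symm]
      exact Q.Pm_tr_N e.symm e'.symm hY
  have h1 := LinearEquiv.finrank_map_eq (Pm_tr α K e e') (Q.P S S')
  have h2 := LinearEquiv.finrank_map_eq (Pm_tr α K e e') (Q.N S S')
  rw [hP] at h1
  rw [hN] at h2
  unfold a
  rw [h1, h2]

/-- `P S S` as an algebra -/
def alg (S : Type) [Fintype S] [DecidableEq S] : Subalgebra K (Matrix (S → α) (S → α) K) where
  carrier := Q.P S S
  mul_mem' := fun h1 h2 => Q.mul_mem h1 h2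
  one_mem' := Q.one_mem S
  add_mem' := fun h1 h2 => add_mem h1 h2
  zero_mem' := zero_mem _
  algebraMap_mem' := by
    intro r
    rw [Algebra.algebraMap_eq_smul_one]
    exact Submodule.smul_mem _ r (Q.one_mem S)

theorem alg_toSubmodule (S : Type) [Fintype S] [DecidableEq S] :
    (Q.alg S).toSubmodule = Q.P S S := rfl

theorem rad_alg (S : Type) [Fintype S] [DecidableEq S] : rad (Q.alg S) = Q.N S S := rfl

end Sys

end ZO
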