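import Pool.Agent.W_f569db_zo.Cauchy
import Pool.Agent.W_f569db_zo.Pm

set_option autoImplicit false

/-!
# Cauchy-Schwarz for the morphism spaces

Apply `cs_rad` to the algebra `D` of the block matrices `fromBlocks A B C E` on
`(S → α) ⊕ (S' → α)` with `A ∈ P S S`, `B ∈ P S' S`, `C ∈ P S S'`, `E ∈ P S' S'` and to the idempotents
`fromBlocks e 0 0 0`, `fromBlocks 0 0 0 f`.  The radical of `D` consists of the block matrices with
blocks in `N` (trace of a product of block matrices: `Matrix.fromBlocks_multiply`,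
`Matrix.trace_fromBlocks`); `sand` of the idempotents picks one block.
-/

noncomputable section

namespace ZO

open Matrix Module

section CSPAux

variable {K : Type*} [Field K]

/-- the image of a subspace under a composition ending with an injective map -/
theorem csp_finrank {M V W : Type*} [AddCommGroup M] [Module K M] [AddCommGroup V] [Module K V]
    [AddCommGroup W] [Module K W] (φ : M →ₗ[K] M) (emb : W →ₗ[K] M) (ψ : V →ₗ[K] W)
    (pr : M →ₗ[K] V) (h : ∀ x, φ x = emb (ψ (pr x))) (hinj : Function.Injective emb)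
    (G : Submodule K M) (G' : Submodule K V) (hG : G.map pr = G') :
    finrank K (G.map φ) = finrank K (G'.map ψ) := by
  have h1 : φ = emb.comp (ψ.comp pr) := LinearMap.ext h
  rw [h1, Submodule.map_comp, Submodule.map_comp, hG]
  exact (LinearEquiv.finrank_eq (Submodule.equivMapOfInjective emb hinj (G'.map ψ))).symm

theorem csp_cod {M V W : Type*} [AddCommGroup M] [Module K M] [AddCommGroup V] [Module K V]
    [AddCommGroup W] [Module K W] (φ : M →ₗ[K] M) (emb : W →ₗ[K] M) (ψ : V →ₗ[K] W)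
    (pr : M →ₗ[K] V) (h : ∀ x, φ x = emb (ψ (pr x))) (hinj : Function.Injective emb)
    (F G : Submodule K M) (F' G' : Submodule K V) (hF : F.map pr = F') (hG : G.map pr = G') :
    cod φ F G = cod ψ F' G' := by
  unfold cod
  rw [csp_finrank φ emb ψ pr h hinj F F' hF, csp_finrank φ emb ψ pr h hinj G G' hG]

variable {I J : Type*}

/-- the upper left block -/
def cspPr11 : Matrix (I ⊕ J) (I ⊕ J) K →ₗ[K] Matrix I I K where
  toFun M := M.toBlocks₁₁
  map_add' _ _ := rfl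
  map_smul' _ _ := rfl

/-- the lower left block -/
def cspPr21 : Matrix (I ⊕ J) (I ⊕ J) K →ₗ[K] Matrix J I K where
  toFun M := M.toBlocks₂₁
  map_add' _ _ := rfl
  map_smul' _ _ := rfl

/-- the lower right block -/
def cspPr22 : Matrix (I ⊕ J) (I ⊕ J) K →ₗ[K] Matrix J J K where
  toFun M := M.toBlocks₂₂
  map_add' _ _ := rfl
  map_smul' _ _ := rfl

/-- the block matrices with one block -/
def cspEm11 : Matrix I I K →ₗ[K] Matrix (I ⊕ J) (I ⊕ J) K where
  toFun A := fromBlocks A 0 0 0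
  map_add' A B := by rw [fromBlocks_add]; simp
  map_smul' c A := by rw [fromBlocks_smul]; simp

/-- the block matrices with one block -/
def cspEm21 : Matrix J I K →ₗ[K] Matrix (I ⊕ J) (I ⊕ J) K where
  toFun A := fromBlocks 0 0 A 0
  map_add' A B := by rw [fromBlocks_add]; simp
  map_smul' c A := by rw [fromBlocks_smul]; simp

/-- the block matrices with one block -/
def cspEm22 : Matrix J J K →ₗ[K] Matrix (I ⊕ J) (I ⊕ J) K where
  toFun A := fromBlocks 0 0 0 A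
  map_add' A B := by rw [fromBlocks_add]; simp
  map_smul' c A := by rw [fromBlocks_smul]; simp

theorem cspEm11_inj : Function.Injective (cspEm11 (K := K) (I := I) (J := J)) := by
  intro A B h
  have h1 : (fromBlocks A 0 0 0 : Matrix (I ⊕ J) (I ⊕ J) K) = fromBlocks B 0 0 0 := h
  exact (fromBlocks_inj.1 h1).1

theorem cspEm21_inj : Function.Injective (cspEm21 (K := K) (I := I) (J := J)) := by
  intro A B h
  have h1 : (fromBlocks 0 0 A 0 : Matrix (I ⊕ J) (I ⊕ J) K) = fromBlocks 0 0 B 0 := h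
  exact (fromBlocks_inj.1 h1).2.2.1

theorem cspEm22_inj : Function.Injective (cspEm22 (K := K) (I := I) (J := J)) := by
  intro A B h
  have h1 : (fromBlocks 0 0 0 A : Matrix (I ⊕ J) (I ⊕ J) K) = fromBlocks 0 0 0 B := h
  exact (fromBlocks_inj.1 h1).2.2.2

theorem csp_sand21 [Fintype I] [Fintype J] (e : Matrix I I K) (f : Matrix J J K) (x : Matrix (I ⊕ J) (I ⊕ J) K) :
    sand (fromBlocks 0 0 0 f : Matrix (I ⊕ J) (I ⊕ J) K)
      (fromBlocks e 0 0 0 : Matrix (I ⊕ J) (I ⊕ J) K) x = cspEm21 (sand f e (cspPr21 x)) := by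
  rw [sand_apply, sand_apply]
  change _ = fromBlocks 0 0 (f * x.toBlocks₂₁ * e) 0
  conv_lhs => rw [← fromBlocks_toBlocks x]
  rw [fromBlocks_multiply, fromBlocks_multiply]
  simp

theorem csp_sand11 [Fintype I] [Fintype J] (e : Matrix I I K) (x : Matrix (I ⊕ J) (I ⊕ J) K) :
    sand (fromBlocks e 0 0 0 : Matrix (I ⊕ J) (I ⊕ J) K)
      (fromBlocks e 0 0 0 : Matrix (I ⊕ J) (I ⊕ J) K) x = cspEm11 (sand e e (cspPr11 x)) := by
  rw [sand_apply, sand_apply]
  change _ = fromBlocks (e * x.toBlocks₁₁ * e) 0 0 0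
  conv_lhs => rw [← fromBlocks_toBlocks x]
  rw [fromBlocks_multiply, fromBlocks_multiply]
  simp

theorem csp_sand22 [Fintype I] [Fintype J] (f : Matrix J J K) (x : Matrix (I ⊕ J) (I ⊕ J) K) :
    sand (fromBlocks 0 0 0 f : Matrix (I ⊕ J) (I ⊕ J) K)
      (fromBlocks 0 0 0 f : Matrix (I ⊕ J) (I ⊕ J) K) x = cspEm22 (sand f f (cspPr22 x)) := by
  rw [sand_apply, sand_apply]
  change _ = fromBlocks 0 0 0 (f * x.toBlocks₂₂ * f)
  conv_lhs => rw [← fromBlocks_toBlocks x]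
  rw [fromBlocks_multiply, fromBlocks_multiply]
  simp

end CSPAux

variable {α : Type} [Fintype α] [DecidableEq α] {K : Type*} [Field K] [CharZero K]

namespace Sys

variable (Q : Sys α K) {S S' : Type} [Fintype S] [DecidableEq S] [Fintype S'] [DecidableEq S']

/-- the algebra of block matrices -/
def cspD (S S' : Type) [Fintype S] [DecidableEq S] [Fintype S'] [DecidableEq S'] :
    Subalgebra K (Matrix ((S → α) ⊕ (S' → α)) ((S → α) ⊕ (S' → α)) K) where
  carrier := {M | M.toBlocks₁₁ ∈ Q.P S S ∧ M.toBlocks₁₂ ∈ Q.P S' S ∧ M.toBlocks₂₁ ∈ Q.P S S' ∧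
    M.toBlocks₂₂ ∈ Q.P S' S'}
  mul_mem' := by
    rintro M M' ⟨h1, h2, h3, h4⟩ ⟨k1, k2, k3, k4⟩
    have h : M * M' = fromBlocks (M.toBlocks₁₁ * M'.toBlocks₁₁ + M.toBlocks₁₂ * M'.toBlocks₂₁)
        (M.toBlocks₁₁ * M'.toBlocks₁₂ + M.toBlocks₁₂ * M'.toBlocks₂₂)
        (M.toBlocks₂₁ * M'.toBlocks₁₁ + M.toBlocks₂₂ * M'.toBlocks₂₁)
        (M.toBlocks₂₁ * M'.toBlocks₁₂ + M.toBlocks₂₂ * M'.toBlocks₂₂) := by
      rw [← fromBlocks_multiply, fromBlocks_toBlocks, fromBlocks_toBlocks]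
    rw [h]
    exact ⟨add_mem (Q.mul_mem h1 k1) (Q.mul_mem h2 k3),
      add_mem (Q.mul_mem h1 k2) (Q.mul_mem h2 k4),
      add_mem (Q.mul_mem h3 k1) (Q.mul_mem h4 k3),
      add_mem (Q.mul_mem h3 k2) (Q.mul_mem h4 k4)⟩
  one_mem' := by
    have h : (1 : Matrix ((S → α) ⊕ (S' → α)) ((S → α) ⊕ (S' → α)) K) = fromBlocks 1 0 0 1 :=
      fromBlocks_one.symm
    rw [h]
    exact ⟨Q.one_mem S, zero_mem _, zero_mem _, Q.one_mem S'⟩
  add_mem' := by
    rintro M M' ⟨h1, h2, h3, h4⟩ ⟨k1, k2, k3, k4⟩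
    exact ⟨add_mem h1 k1, add_mem h2 k2, add_mem h3 k3, add_mem h4 k4⟩
  zero_mem' := ⟨zero_mem _, zero_mem _, zero_mem _, zero_mem _⟩
  algebraMap_mem' := by
    intro r
    have h : algebraMap K (Matrix ((S → α) ⊕ (S' → α)) ((S → α) ⊕ (S' → α)) K) r =
        fromBlocks (r • 1) 0 0 (r • 1) := by
      rw [Algebra.algebraMap_eq_smul_one, ← fromBlocks_one, fromBlocks_smul, smul_zero, smul_zero]
    rw [h]
    exact ⟨Submodule.smul_mem _ r (Q.one_mem S), zero_mem _, zero_mem _,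
      Submodule.smul_mem _ r (Q.one_mem S')⟩

omit [CharZero K] in
theorem csp_memD {M : Matrix ((S → α) ⊕ (S' → α)) ((S → α) ⊕ (S' → α)) K} :
    M ∈ Q.cspD S S' ↔ M.toBlocks₁₁ ∈ Q.P S S ∧ M.toBlocks₁₂ ∈ Q.P S' S ∧
      M.toBlocks₂₁ ∈ Q.P S S' ∧ M.toBlocks₂₂ ∈ Q.P S' S' := Iff.rfl

omit [CharZero K] in
/-- the trace of a product of block matrices -/
theorem csp_trace (M M' : Matrix ((S → α) ⊕ (S' → α)) ((S → α) ⊕ (S' → α)) K) :
    trace (M * M') = trace (M.toBlocks₁₁ * M'.toBlocks₁₁) + trace (M.toBlocks₁₂ * M'.toBlocks₂₁) +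
      (trace (M.toBlocks₂₁ * M'.toBlocks₁₂) + trace (M.toBlocks₂₂ * M'.toBlocks₂₂)) := by
  have h : M * M' = fromBlocks (M.toBlocks₁₁ * M'.toBlocks₁₁ + M.toBlocks₁₂ * M'.toBlocks₂₁)
      (M.toBlocks₁₁ * M'.toBlocks₁₂ + M.toBlocks₁₂ * M'.toBlocks₂₂)
      (M.toBlocks₂₁ * M'.toBlocks₁₁ + M.toBlocks₂₂ * M'.toBlocks₂₁)
      (M.toBlocks₂₁ * M'.toBlocks₁₂ + M.toBlocks₂₂ * M'.toBlocks₂₂) := by
    rw [← fromBlocks_multiply, fromBlocks_toBlocks, fromBlocks_toBlocks]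
  rw [h, ← trace_add, ← trace_add]
  simp only [Matrix.trace, Fintype.sum_sum_type, diag_apply, fromBlocks_apply₁₁,
    fromBlocks_apply₂₂]

omit [CharZero K] in
theorem csp_rad {M : Matrix ((S → α) ⊕ (S' → α)) ((S → α) ⊕ (S' → α)) K} :
    M ∈ rad (Q.cspD S S') ↔ M.toBlocks₁₁ ∈ Q.N S S ∧ M.toBlocks₁₂ ∈ Q.N S' S ∧
      M.toBlocks₂₁ ∈ Q.N S S' ∧ M.toBlocks₂₂ ∈ Q.N S' S' := by
  constructor
  · rintro ⟨h, ht⟩
    obtain ⟨h1, h2, h3, h4⟩ := Q.csp_memD.1 h
    refine ⟨⟨h1, fun B hB => ?_⟩, ⟨h2, fun B hB => ?_⟩, ⟨h3, fun B hB => ?_⟩, ⟨h4, fun B hB => ?_⟩⟩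
    · have := ht (fromBlocks B 0 0 0) ⟨hB, zero_mem _, zero_mem _, zero_mem _⟩
      rw [csp_trace] at this
      simpa using this
    · have := ht (fromBlocks 0 0 B 0) ⟨zero_mem _, zero_mem _, hB, zero_mem _⟩
      rw [csp_trace] at this
      simpa using this
    · have := ht (fromBlocks 0 B 0 0) ⟨zero_mem _, hB, zero_mem _, zero_mem _⟩
      rw [csp_trace] at this
      simpa using this
    · have := ht (fromBlocks 0 0 0 B) ⟨zero_mem _, zero_mem _, zero_mem _, hB⟩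
      rw [csp_trace] at this
      simpa using this
  · rintro ⟨h1, h2, h3, h4⟩
    refine ⟨⟨h1.1, h2.1, h3.1, h4.1⟩, fun B hB => ?_⟩
    obtain ⟨k1, k2, k3, k4⟩ := Q.csp_memD.1 hB
    rw [csp_trace, h1.2 _ k1, h2.2 _ k3, h3.2 _ k2, h4.2 _ k4]
    simp

theorem cs_P {e : Matrix (S → α) (S → α) K} {f : Matrix (S' → α) (S' → α) K} (he : e ∈ Q.P S S)
    (hf : f ∈ Q.P S' S') (he2 : e * e = e) (hf2 : f * f = f) :
    (cod (sand f e) (Q.P S S') (Q.N S S')) ^ 2 ≤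
      cod (sand e e) (Q.P S S) (Q.N S S) * cod (sand f f) (Q.P S' S') (Q.N S' S') := by
  have hE : (fromBlocks e 0 0 0 : Matrix ((S → α) ⊕ (S' → α)) ((S → α) ⊕ (S' → α)) K) ∈
      Q.cspD S S' := ⟨he, zero_mem _, zero_mem _, zero_mem _⟩
  have hF : (fromBlocks 0 0 0 f : Matrix ((S → α) ⊕ (S' → α)) ((S → α) ⊕ (S' → α)) K) ∈
      Q.cspD S S' := ⟨zero_mem _, zero_mem _, zero_mem _, hf⟩
  have hE2 : (fromBlocks e 0 0 0 : Matrix ((S → α) ⊕ (S' → α)) ((S → α) ⊕ (S' → α)) K) *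
      fromBlocks e 0 0 0 = fromBlocks e 0 0 0 := by
    rw [fromBlocks_multiply]
    simp [he2]
  have hF2 : (fromBlocks 0 0 0 f : Matrix ((S → α) ⊕ (S' → α)) ((S → α) ⊕ (S' → α)) K) *
      fromBlocks 0 0 0 f = fromBlocks 0 0 0 f := by
    rw [fromBlocks_multiply]
    simp [hf2]
  have key := cs_rad (Q.cspD S S') hE hF hE2 hF2
  have c21 : cod (sand (fromBlocks 0 0 0 f : Matrix ((S → α) ⊕ (S' → α)) ((S → α) ⊕ (S' → α)) K)
      (fromBlocks e 0 0 0 : Matrix ((S → α) ⊕ (S' → α)) ((S → α) ⊕ (S' → α)) K))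
      (Q.cspD S S').toSubmodule
      (rad (Q.cspD S S')) = cod (sand f e) (Q.P S S') (Q.N S S') := by
    refine csp_cod _ cspEm21 _ cspPr21 (csp_sand21 e f) cspEm21_inj _ _ _ _ ?_ ?_
    · apply le_antisymm
      · rintro _ ⟨M, hM, rfl⟩
        exact hM.2.2.1
      · intro C hC
        exact ⟨fromBlocks 0 0 C 0, ⟨zero_mem _, zero_mem _, hC, zero_mem _⟩, rfl⟩
    · apply le_antisymm
      · rintro _ ⟨M, hM, rfl⟩
        exact (Q.csp_rad.1 hM).2.2.1
      · intro C hC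
        exact ⟨fromBlocks 0 0 C 0, Q.csp_rad.2 ⟨zero_mem _, zero_mem _, hC, zero_mem _⟩, rfl⟩
  have c11 : cod (sand (fromBlocks e 0 0 0 : Matrix ((S → α) ⊕ (S' → α)) ((S → α) ⊕ (S' → α)) K)
      (fromBlocks e 0 0 0 : Matrix ((S → α) ⊕ (S' → α)) ((S → α) ⊕ (S' → α)) K))
      (Q.cspD S S').toSubmodule
      (rad (Q.cspD S S')) = cod (sand e e) (Q.P S S) (Q.N S S) := by
    refine csp_cod _ cspEm11 _ cspPr11 (csp_sand11 e) cspEm11_inj _ _ _ _ ?_ ?_
    · apply le_antisymm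
      · rintro _ ⟨M, hM, rfl⟩
        exact hM.1
      · intro C hC
        exact ⟨fromBlocks C 0 0 0, ⟨hC, zero_mem _, zero_mem _, zero_mem _⟩, rfl⟩
    · apply le_antisymm
      · rintro _ ⟨M, hM, rfl⟩
        exact (Q.csp_rad.1 hM).1
      · intro C hC
        exact ⟨fromBlocks C 0 0 0, Q.csp_rad.2 ⟨hC, zero_mem _, zero_mem _, zero_mem _⟩, rfl⟩
  have c22 : cod (sand (fromBlocks 0 0 0 f : Matrix ((S → α) ⊕ (S' → α)) ((S → α) ⊕ (S' → α)) K)
      (fromBlocks 0 0 0 f : Matrix ((S → α) ⊕ (S' → α)) ((S → α) ⊕ (S' → α)) K))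
      (Q.cspD S S').toSubmodule
      (rad (Q.cspD S S')) = cod (sand f f) (Q.P S' S') (Q.N S' S') := by
    refine csp_cod _ cspEm22 _ cspPr22 (csp_sand22 f) cspEm22_inj _ _ _ _ ?_ ?_
    · apply le_antisymm
      · rintro _ ⟨M, hM, rfl⟩
        exact hM.2.2.2
      · intro C hC
        exact ⟨fromBlocks 0 0 0 C, ⟨zero_mem _, zero_mem _, zero_mem _, hC⟩, rfl⟩
    · apply le_antisymm
      · rintro _ ⟨M, hM, rfl⟩
        exact (Q.csp_rad.1 hM).2.2.2
      · intro C hC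
        exact ⟨fromBlocks 0 0 0 C, Q.csp_rad.2 ⟨zero_mem _, zero_mem _, zero_mem _, hC⟩, rfl⟩
  rw [c21, c11, c22] at key
  exact key

omit [CharZero K] in
theorem csp_sand_one {S S' : Type} [Fintype S] [DecidableEq S] [Fintype S'] [DecidableEq S']
    (F G : Submodule K (Matrix (S' → α) (S → α) K)) :
    cod (sand (1 : Matrix (S' → α) (S' → α) K) (1 : Matrix (S → α) (S → α) K)) F G =
      (finrank K F : ℝ) - finrank K G := by
  have h : sand (1 : Matrix (S' → α) (S' → α) K) (1 : Matrix (S → α) (S → α) K) =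
      LinearMap.id := by
    apply LinearMap.ext
    intro x
    rw [sand_apply, Matrix.one_mul, Matrix.mul_one]
    rfl
  unfold cod
  rw [h, Submodule.map_id, Submodule.map_id]

/-- the case `e = 1`, `f = 1` -/
theorem cs_a (S S' : Type) [Fintype S] [DecidableEq S] [Fintype S'] [DecidableEq S'] :
    (Q.a S S') ^ 2 ≤ Q.a S S * Q.a S' S' := by
  have h := Q.cs_P (Q.one_mem S) (Q.one_mem S') (Matrix.mul_one 1) (Matrix.mul_one 1)
  rw [csp_sand_one, csp_sand_one, csp_sand_one] at h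
  exact h

end Sys

end ZO
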