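import Pool.Agent.W_f569db_zo.Wed

set_option autoImplicit false

/-!
# The dimensions of a semisimple algebra of matrices and of its commutant

`(card ι) ^ 2 ≤ dim D * dim D'` for a semisimple subalgebra `D` of `Matrix ι ι K`, where `D'` is its
centralizer.

PROOF. Let `V = ι → K`, a module over `D` (matrix times vector), and `W = D × V`.  `W` is a finite
semisimple `D`-module, hence `R = Module.End D W` is a semisimple ring (instances in
`Mathlib.RingTheory.SimpleModule`), finite-dimensional over `K`.  Let `e` and `f` be the projections of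
`W` onto `D` and onto `V`.  Then `f R e ≃ Hom_D(D, V) ≃ V`, `e R e ≃ End_D(D) ≃ Dᵐᵒᵖ` and
`f R f ≃ End_D(V) ≃ D'` as vector spaces over `K`; apply `wed`. (Any other proof is fine.)
-/

noncomputable section

namespace ZO

open Matrix Module

section gen

variable (K D V : Type*) [Field K] [Ring D] [Algebra K D] [AddCommGroup V] [Module K V]
  [Module D V] [IsScalarTower K D V]

/-- the projection of `D × V` onto `D` -/
def DC_e : Module.End D (D × V) := (LinearMap.inl D D V).comp (LinearMap.fst D D V)

/-- the projection of `D × V` onto `V` -/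
def DC_f : Module.End D (D × V) := (LinearMap.inr D D V).comp (LinearMap.snd D D V)

theorem DC_e_apply (x : D × V) : DC_e D V x = (x.1, 0) := rfl

theorem DC_f_apply (x : D × V) : DC_f D V x = (0, x.2) := rfl

theorem DC_idem_e : IsIdempotentElem (DC_e D V) := by
  refine LinearMap.ext fun x => ?_
  rfl

theorem DC_idem_f : IsIdempotentElem (DC_f D V) := by
  refine LinearMap.ext fun x => ?_
  rfl

/-- `V → Hom_D (D, V)` -/
def DC_psi : V →ₗ[K] Module.End D (D × V) where
  toFun v := (LinearMap.inr D D V).comp
    ((LinearMap.toSpanSingleton D V v).comp (LinearMap.fst D D V))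
  map_add' v w := by
    refine LinearMap.ext fun x => ?_
    show ((0 : D), x.1 • (v + w)) = ((0 : D), x.1 • v) + ((0 : D), x.1 • w)
    rw [smul_add, Prod.mk_add_mk, add_zero]
  map_smul' k v := by
    refine LinearMap.ext fun x => ?_
    show ((0 : D), x.1 • (k • v)) = k • ((0 : D), x.1 • v)
    rw [Prod.smul_mk, smul_zero, smul_comm]

theorem DC_psi_apply (v : V) (x : D × V) : DC_psi K D V v x = (0, x.1 • v) := rfl

theorem DC_psi_inj : Function.Injective (DC_psi K D V) := by
  intro v w h
  have h1 := congrArg (fun g : Module.End D (D × V) => (g (1, 0)).2) h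
  simp only [DC_psi_apply, one_smul] at h1
  exact h1

theorem DC_psi_range : LinearMap.range (DC_psi K D V) ≤
    LinearMap.range (sandR K (DC_f D V) (DC_e D V)) := by
  rintro _ ⟨v, rfl⟩
  exact ⟨DC_psi K D V v, LinearMap.ext fun x => rfl⟩

/-- `g ↦ (g (1, 0)).1` -/
def DC_phi1 : Module.End D (D × V) →ₗ[K] D where
  toFun g := (g (1, 0)).1
  map_add' _ _ := rfl
  map_smul' _ _ := rfl

/-- `Hom_D (D × V, D × V) → Hom_D (V, V)` -/
def DC_phi2 : Module.End D (D × V) →ₗ[K] Module.End D V where
  toFun g := (LinearMap.snd D D V).comp (g.comp (LinearMap.inr D D V))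
  map_add' _ _ := rfl
  map_smul' _ _ := rfl

theorem DC_phi1_inj {g g' : Module.End D (D × V)}
    (hg : g ∈ LinearMap.range (sandR K (DC_e D V) (DC_e D V)))
    (hg' : g' ∈ LinearMap.range (sandR K (DC_e D V) (DC_e D V)))
    (h : DC_phi1 K D V g = DC_phi1 K D V g') : g = g' := by
  have key : ∀ g ∈ LinearMap.range (sandR K (DC_e D V) (DC_e D V)), ∀ x : D × V,
      g x = (x.1 * DC_phi1 K D V g, 0) := by
    rintro _ ⟨a, rfl⟩ x
    have h1 : a (x.1, 0) = x.1 • a (1, 0) := by
      rw [← map_smul, Prod.smul_mk, smul_eq_mul, mul_one, smul_zero]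
    show ((a (x.1, 0)).1, (0 : V)) = (x.1 * (a (1, 0)).1, 0)
    rw [h1]
    rfl
  refine LinearMap.ext fun x => ?_
  rw [key g hg, key g' hg', h]

theorem DC_phi2_inj {g g' : Module.End D (D × V)}
    (hg : g ∈ LinearMap.range (sandR K (DC_f D V) (DC_f D V)))
    (hg' : g' ∈ LinearMap.range (sandR K (DC_f D V) (DC_f D V)))
    (h : DC_phi2 K D V g = DC_phi2 K D V g') : g = g' := by
  have key : ∀ g ∈ LinearMap.range (sandR K (DC_f D V) (DC_f D V)), ∀ x : D × V,
      g x = (0, DC_phi2 K D V g x.2) := by
    rintro _ ⟨a, rfl⟩ x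
    rfl
  refine LinearMap.ext fun x => ?_
  rw [key g hg, key g' hg', h]

theorem DC_gen [IsSemisimpleRing D] [Module.Finite K D] [Module.Finite K V] :
    (finrank K V) ^ 2 ≤ finrank K D * finrank K (Module.End D V) := by
  haveI : Module.Finite D (D × V) := Module.Finite.of_restrictScalars_finite K D (D × V)
  haveI : IsSemisimpleRing (Module.End D (D × V)) := IsSemisimpleRing.moduleEnd D (D × V)
  haveI : Module.Finite K (Module.End D (D × V)) :=
    Module.Finite.of_injective (LinearMap.restrictScalarsₗ K D (D × V) (D × V) K)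
      (LinearMap.restrictScalars_injective K)
  haveI : Module.Finite K (Module.End D V) :=
    Module.Finite.of_injective (LinearMap.restrictScalarsₗ K D V V K)
      (LinearMap.restrictScalars_injective K)
  have h := wed K (DC_idem_e D V) (DC_idem_f D V)
  have h1 : finrank K V ≤ finrank K (LinearMap.range (sandR K (DC_f D V) (DC_e D V))) := by
    rw [← LinearMap.finrank_range_of_inj (DC_psi_inj K D V)]
    exact Submodule.finrank_mono (DC_psi_range K D V)
  have h2 : finrank K (LinearMap.range (sandR K (DC_e D V) (DC_e D V))) ≤ finrank K D :=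
    LinearMap.finrank_le_finrank_of_injective
      (f := (DC_phi1 K D V).domRestrict (LinearMap.range (sandR K (DC_e D V) (DC_e D V))))
      fun g g' hgg => Subtype.ext (DC_phi1_inj K D V g.2 g'.2 hgg)
  have h3 : finrank K (LinearMap.range (sandR K (DC_f D V) (DC_f D V))) ≤
      finrank K (Module.End D V) :=
    LinearMap.finrank_le_finrank_of_injective
      (f := (DC_phi2 K D V).domRestrict (LinearMap.range (sandR K (DC_f D V) (DC_f D V))))
      fun g g' hgg => Subtype.ext (DC_phi2_inj K D V g.2 g'.2 hgg)
  exact (Nat.pow_le_pow_left h1 2).trans (h.trans (Nat.mul_le_mul h2 h3))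

end gen

theorem DC_hom (K D V : Type*) [Field K] [Ring D] [Algebra K D] [AddCommGroup V] [Module K V]
    [IsSemisimpleRing D] [Module.Finite K D] [Module.Finite K V] (φ : D →ₐ[K] Module.End K V) :
    (finrank K V) ^ 2 ≤
      finrank K D * finrank K (Subalgebra.centralizer K (Set.range φ)) := by
  letI : Module D V := Module.compHom V φ.toRingHom
  have hsm : ∀ (d : D) (v : V), d • v = φ d v := fun d v => rfl
  haveI : IsScalarTower K D V := ⟨fun k d v => by
    rw [hsm, hsm, map_smul]
    rfl⟩
  have h1 := DC_gen K D V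
  refine h1.trans (Nat.mul_le_mul_left _ ?_)
  let ψ : Module.End D V →ₗ[K] Subalgebra.centralizer K (Set.range φ) :=
    { toFun := fun g => ⟨g.restrictScalars K, by
        rw [Subalgebra.mem_centralizer_iff]
        rintro _ ⟨d, rfl⟩
        refine LinearMap.ext fun v => ?_
        show φ d (g v) = g (φ d v)
        exact (g.map_smul d v).symm⟩
      map_add' := fun g g' => rfl
      map_smul' := fun k g => rfl }
  refine LinearMap.finrank_le_finrank_of_injective (f := ψ) fun g g' hgg => ?_
  have h2 := congrArg Subtype.val hgg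
  exact LinearMap.restrictScalars_injective K h2

theorem dc {ι : Type*} [Fintype ι] [DecidableEq ι] {K : Type*} [Field K]
    (D : Subalgebra K (Matrix ι ι K)) (hs : IsSemisimpleRing D) :
    (Fintype.card ι) ^ 2 ≤
      finrank K D * finrank K (Subalgebra.centralizer K (D : Set (Matrix ι ι K))) := by
  let φ : D →ₐ[K] Module.End K (ι → K) :=
    (Matrix.toLinAlgEquiv' (R := K) (n := ι)).toAlgHom.comp D.val
  have h1 := DC_hom K D (ι → K) φ
  rw [Module.finrank_fintype_fun_eq_card] at h1
  refine h1.trans (Nat.mul_le_mul_left _ ?_)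
  let ψ : Subalgebra.centralizer K (Set.range φ) →ₗ[K]
      Subalgebra.centralizer K (D : Set (Matrix ι ι K)) :=
    { toFun := fun g => ⟨LinearMap.toMatrix' g.1, by
        rw [Subalgebra.mem_centralizer_iff]
        intro d hd
        apply Matrix.toLin'.injective
        rw [Matrix.toLin'_mul, Matrix.toLin'_mul, Matrix.toLin'_toMatrix']
        exact (Subalgebra.mem_centralizer_iff K).1 g.2 _ ⟨⟨d, hd⟩, rfl⟩⟩
      map_add' := fun g g' => Subtype.ext (map_add LinearMap.toMatrix' g.1 g'.1)
      map_smul' := fun k g => Subtype.ext (map_smul LinearMap.toMatrix' k g.1) }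
  refine LinearMap.finrank_le_finrank_of_injective (f := ψ) fun g g' hgg => ?_
  exact Subtype.ext (LinearMap.toMatrix'.injective (congrArg Subtype.val hgg))

end ZO
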