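import Pool.Agent.W_f569db_zo.Defs

set_option autoImplicit false

/-!
# The commutant of the symmetric group on `V^{⊗ S}`

A matrix `A` on the words `S → α` which commutes with all permutation matrices `pm e`, `e : Perm S`,
satisfies `A (c ∘ e) (d ∘ e) = A c d`, so it is determined by its values on representatives of the
orbits of `Perm S` on the pairs of words, i.e. on the maps `S → α × α`; two such maps are in the same
orbit iff all their fibres have the same cardinality (`Fintype.card` of fibres; e.g.
`Function.Injective`-free statement: `∃ e : Perm S, u ∘ e = v ↔ ∀ p, card {s // u s = p} =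
card {s // v s = p}`), so there are at most `(card S + 1) ^ (card α ^ 2)` orbits.
-/

noncomputable section

namespace ZO

open Matrix Module

variable {α : Type} [Fintype α] [DecidableEq α] {K : Type*} [Field K]

omit [Field K] in
theorem orb_perm {S β : Type} [Fintype S] [DecidableEq S] [DecidableEq β] {u v : S → β}
    (h : ∀ p, Fintype.card {s // u s = p} = Fintype.card {s // v s = p}) :
    ∃ e : Equiv.Perm S, v ∘ e = u := by
  refine ⟨Equiv.ofFiberEquiv (f := u) (g := v) fun p => Fintype.equivOfCardEq (h p), ?_⟩
  funext s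
  exact Equiv.ofFiberEquiv_map _ s

theorem orb_left {S : Type} [Fintype S] [DecidableEq S] (e : Equiv.Perm S)
    (A : Matrix (S → α) (S → α) K) (c d : S → α) : (pm α K e * A) c d = A (c ∘ e) d := by
  classical
  simp [Matrix.mul_apply, pm]

theorem orb_right {S : Type} [Fintype S] [DecidableEq S] (e : Equiv.Perm S)
    (A : Matrix (S → α) (S → α) K) (c d : S → α) : (A * pm α K e) c (d ∘ e) = A c d := by
  classical
  have h : ∀ x : S → α, x ∘ e = d ∘ e ↔ x = d := fun x =>
    ⟨fun h => e.surjective.injective_comp_right h, fun h => by rw [h]⟩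
  simp [Matrix.mul_apply, pm, h]

/-- the cardinalities of the fibres of a pair of words -/
def orbCnt (S : Type) [Fintype S] [DecidableEq S] (q : (S → α) × (S → α)) :
    α × α → Fin (Fintype.card S + 1) := fun p =>
  ⟨Fintype.card {s // (q.1 s, q.2 s) = p}, Nat.lt_succ_of_le (Fintype.card_subtype_le _)⟩

theorem orb_eq {S : Type} [Fintype S] [DecidableEq S] {A : Matrix (S → α) (S → α) K}
    (hA : ∀ e : Equiv.Perm S, pm α K e * A = A * pm α K e) {q q' : (S → α) × (S → α)}
    (h : orbCnt S q = orbCnt S q') : A q.1 q.2 = A q'.1 q'.2 := by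
  obtain ⟨e, he⟩ := orb_perm (u := fun s => (q.1 s, q.2 s)) (v := fun s => (q'.1 s, q'.2 s))
    fun p => congrArg Fin.val (congrFun h p)
  have h1 : q'.1 ∘ e = q.1 := funext fun s => congrArg Prod.fst (congrFun he s)
  have h2 : q'.2 ∘ e = q.2 := funext fun s => congrArg Prod.snd (congrFun he s)
  have h3 := congrFun (congrFun (hA e) q'.1) (q'.2 ∘ e)
  rw [orb_left, orb_right, h1, h2] at h3
  exact h3

open Classical in
/-- the value of a matrix on a representative of an orbit -/
def orbVal {S : Type} [Fintype S] [DecidableEq S] (A : Matrix (S → α) (S → α) K)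
    (x : α × α → Fin (Fintype.card S + 1)) : K :=
  if h : ∃ q, orbCnt S q = x then A h.choose.1 h.choose.2 else 0

theorem orbVal_pos {S : Type} [Fintype S] [DecidableEq S] (A : Matrix (S → α) (S → α) K)
    {x : α × α → Fin (Fintype.card S + 1)} (h : ∃ q, orbCnt S q = x) :
    orbVal A x = A h.choose.1 h.choose.2 := dif_pos h

theorem orbVal_neg {S : Type} [Fintype S] [DecidableEq S] (A : Matrix (S → α) (S → α) K)
    {x : α × α → Fin (Fintype.card S + 1)} (h : ¬ ∃ q, orbCnt S q = x) :
    orbVal A x = 0 := dif_neg h

/-- the values of a matrix on representatives of the orbits -/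
def orbMap (S : Type) [Fintype S] [DecidableEq S]
    (C : Submodule K (Matrix (S → α) (S → α) K)) :
    C →ₗ[K] ((α × α → Fin (Fintype.card S + 1)) → K) where
  toFun A x := orbVal A.1 x
  map_add' A B := by
    funext x
    show orbVal (A.1 + B.1) x = orbVal A.1 x + orbVal B.1 x
    by_cases h : ∃ q, orbCnt S q = x
    · rw [orbVal_pos _ h, orbVal_pos _ h, orbVal_pos _ h]
      rfl
    · rw [orbVal_neg _ h, orbVal_neg _ h, orbVal_neg _ h, add_zero]
  map_smul' r A := by
    funext x
    show orbVal (r • A.1) x = r • orbVal A.1 x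
    by_cases h : ∃ q, orbCnt S q = x
    · rw [orbVal_pos _ h, orbVal_pos _ h]
      rfl
    · rw [orbVal_neg _ h, orbVal_neg _ h, smul_zero]

theorem orb (S : Type) [Fintype S] [DecidableEq S]
    (C : Submodule K (Matrix (S → α) (S → α) K))
    (hC : ∀ A ∈ C, ∀ e : Equiv.Perm S, pm α K e * A = A * pm α K e) :
    finrank K C ≤ (Fintype.card S + 1) ^ (Fintype.card α ^ 2) := by
  classical
  have hinj : Function.Injective (orbMap S C) := by
    rw [← LinearMap.ker_eq_bot, LinearMap.ker_eq_bot']
    intro A hA0
    refine Subtype.ext (Matrix.ext fun c d => ?_)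
    have h1 : ∃ q : (S → α) × (S → α), orbCnt S q = orbCnt S (c, d) := ⟨(c, d), rfl⟩
    have h2 := congrFun hA0 (orbCnt S (c, d))
    have h3 : orbMap S C A (orbCnt S (c, d)) = A.1 h1.choose.1 h1.choose.2 := orbVal_pos _ h1
    rw [h3] at h2
    have h4 := orb_eq (hC A.1 A.2) h1.choose_spec
    rw [h2] at h4
    exact h4.symm
  have h1 := LinearMap.finrank_le_finrank_of_injective hinj
  rw [Module.finrank_fintype_fun_eq_card, Fintype.card_fun, Fintype.card_fin, Fintype.card_prod,
    ← sq] at h1
  exact h1

end ZO
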