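import Pool.Agent.W_f569db_zo.Pm

set_option autoImplicit false

/-!
# The image of the group algebra of the symmetric group

The image `D` of `MonoidAlgebra K (Equiv.Perm S)` under the algebra homomorphism given by
`e ↦ pm α K e` (check the order of multiplication: `pm e' * pm e = pm (e.trans e') = pm (e' * e)` in
`Equiv.Perm S`, see `pm_mul`) is a semisimple ring: Maschke's theorem (instance
`MonoidAlgebra` is semisimple when the order of the group is invertible) and
`RingHom.isSemisimpleRing_of_surjective`.  It contains all `pm e` and is spanned by them.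
-/

noncomputable section

namespace ZO

open Matrix Module

/-- the action of the symmetric group on the words, as a monoid homomorphism -/
def pmHom (α : Type) [Fintype α] [DecidableEq α] (K : Type*) [Field K]
    (S : Type) [Fintype S] [DecidableEq S] : Equiv.Perm S →* Matrix (S → α) (S → α) K where
  toFun e := pm α K e
  map_one' := pm_refl
  map_mul' e e' := (pm_mul e' e).symm

theorem exists_symA {α : Type} [Fintype α] [DecidableEq α] {K : Type*} [Field K] [CharZero K]
    (S : Type) [Fintype S] [DecidableEq S] :
    ∃ D : Subalgebra K (Matrix (S → α) (S → α) K), IsSemisimpleRing D ∧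
      (∀ e : Equiv.Perm S, pm α K e ∈ D) ∧
      D.toSubmodule ≤ Submodule.span K (Set.range fun e : Equiv.Perm S => pm α K e) := by
  classical
  let F : MonoidAlgebra K (Equiv.Perm S) →ₐ[K] Matrix (S → α) (S → α) K :=
    MonoidAlgebra.lift K (Matrix (S → α) (S → α) K) (Equiv.Perm S) (pmHom α K S)
  have hF : ∀ e : Equiv.Perm S, F (MonoidAlgebra.of K (Equiv.Perm S) e) = pm α K e := by
    intro e
    have := MonoidAlgebra.lift_of (R := K) (pmHom α K S) e
    exact this
  refine ⟨F.range, ?_, ?_, ?_⟩
  · haveI : NeZero (Nat.card (Equiv.Perm S) : K) :=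
      ⟨by exact_mod_cast Nat.card_pos.ne'⟩
    have : IsSemisimpleRing (MonoidAlgebra K (Equiv.Perm S)) := inferInstance
    exact RingHom.isSemisimpleRing_of_surjective (F.rangeRestrict : MonoidAlgebra K (Equiv.Perm S) →+* F.range)
      F.rangeRestrict_surjective
  · intro e
    exact ⟨MonoidAlgebra.of K (Equiv.Perm S) e, hF e⟩
  · rintro _ ⟨x, rfl⟩
    induction x using MonoidAlgebra.induction_on with
    | of e => exact Submodule.subset_span ⟨e, (hF e).symm⟩
    | add a b ha hb =>
      have : F (a + b) = F a + F b := map_add F a b
      exact this ▸ Submodule.add_mem _ ha hb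
    | smul c a ha =>
      have : F (c • a) = c • F a := map_smul F c a
      exact this ▸ Submodule.smul_mem _ c ha

end ZO
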