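import Pool.Agent.W_f569db_zo.Cauchy
import Pool.Agent.W_f569db_zo.DC
import Pool.Agent.W_f569db_zo.Orb
import Pool.Agent.W_f569db_zo.SymAlg

set_option autoImplicit false

/-!
# The lower bound `b^(2m) ≤ (m+1)^(b^2) * a(V^{⊗ m}, V^{⊗ m})`

With `D` from `exists_symA S`: `(card (S → α))^2 ≤ dim D * dim (centralizer D)` (`dc`),
`dim (centralizer D) ≤ (card S + 1)^(card α ^ 2)` (`orb` applied to the centralizer as a submodule),
`dim D ≤ Q.a S S` (`semis_sub` for `D ≤ Q.alg S`, as the `pm e` lie in `Q.P S S`; `rad_alg`).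
-/

noncomputable section

namespace ZO

open Matrix Module

variable {α : Type} [Fintype α] [DecidableEq α] {K : Type*} [Field K] [CharZero K]

theorem low (Q : Sys α K) (S : Type) [Fintype S] [DecidableEq S] :
    (Fintype.card α : ℝ) ^ (2 * Fintype.card S) ≤
      (Fintype.card S + 1 : ℝ) ^ (Fintype.card α ^ 2) * Q.a S S := by
  obtain ⟨D, hs, hpm, hD⟩ := exists_symA (α := α) (K := K) S
  have h1 := dc D hs
  have h2 := orb S (Subalgebra.toSubmodule (Subalgebra.centralizer K
    (D : Set (Matrix (S → α) (S → α) K)))) (by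
      intro A hA e
      exact hA (pm α K e) (hpm e))
  have hDQ : D ≤ Q.alg S := by
    intro x hx
    have h3 : x ∈ Submodule.span K (Set.range fun e : Equiv.Perm S => pm α K e) := hD hx
    have h4 : Submodule.span K (Set.range fun e : Equiv.Perm S => pm α K e) ≤ Q.P S S := by
      rw [Submodule.span_le]
      rintro _ ⟨e, rfl⟩
      exact Q.pm_mem e
    exact h4 h3
  have h5 : (finrank K D : ℝ) ≤ Q.a S S := semis_sub (Q.alg S) D hDQ hs
  have h6 : ((Fintype.card (S → α) ^ 2 : ℕ) : ℝ) ≤
      ((finrank K D * finrank K (Subalgebra.centralizer K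
        (D : Set (Matrix (S → α) (S → α) K))) : ℕ) : ℝ) := by
    exact_mod_cast h1
  have h7 : ((Fintype.card (S → α) ^ 2 : ℕ) : ℝ) = (Fintype.card α : ℝ) ^ (2 * Fintype.card S) := by
    rw [Fintype.card_fun, ← pow_mul, mul_comm (Fintype.card S) 2]
    push_cast
    rfl
  have h8 : ((finrank K (Subalgebra.centralizer K
      (D : Set (Matrix (S → α) (S → α) K))) : ℕ) : ℝ) ≤
        (Fintype.card S + 1 : ℝ) ^ (Fintype.card α ^ 2) := by
    have h9 : finrank K (Subalgebra.centralizer K (D : Set (Matrix (S → α) (S → α) K))) ≤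
        (Fintype.card S + 1) ^ (Fintype.card α ^ 2) := h2
    exact_mod_cast h9
  rw [← h7]
  refine h6.trans ?_
  push_cast
  rw [mul_comm]
  exact mul_le_mul h8 h5 (by positivity) (by positivity)

end ZO
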