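import Pool.Agent.W_f569db_zo.BendA

set_option autoImplicit false

/-!
# Ranks of idempotents, and a real analysis lemma
-/

noncomputable section

namespace ZO

open Matrix Module

/-- the trace of an idempotent matrix is its rank -/
theorem trace_idem {ι : Type*} [Fintype ι] [DecidableEq ι] {K : Type*} [Field K]
    {q : Matrix ι ι K} (hq : q * q = q) : Matrix.trace q = (q.rank : K) := by
  have h1 : IsIdempotentElem (Matrix.toLin' q) := by
    unfold IsIdempotentElem
    rw [Module.End.mul_eq_comp, ← Matrix.toLin'_mul, hq]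
  have h2 := (LinearMap.IsIdempotentElem.isProj_range _ h1).trace
  rw [Matrix.trace_toLin'_eq] at h2
  rw [h2]
  rfl

/-- `dim {F * Q} = (number of rows) * rank Q` -/
theorem finrank_range_sand {κ ι : Type*} [Fintype κ] [DecidableEq κ] [Fintype ι] [DecidableEq ι]
    {K : Type*} [Field K] (E : Matrix ι ι K) (F : Submodule K (Matrix κ ι K)) :
    finrank K (F.map (sand (1 : Matrix κ κ K) E)) ≤ Fintype.card κ * E.rank := by
  let R : Submodule K (ι → K) := LinearMap.range (Eᵀ).mulVecLin
  have hR : finrank K R = E.rank := by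
    rw [← Matrix.rank_transpose E]
    rfl
  let Φ : (κ → R) →ₗ[K] Matrix κ ι K :=
    { toFun := fun v => Matrix.of fun i => (v i : ι → K)
      map_add' := by
        intro v w
        ext i j
        rfl
      map_smul' := by
        intro c v
        ext i j
        rfl }
  have hle : F.map (sand (1 : Matrix κ κ K) E) ≤ LinearMap.range Φ := by
    rintro y ⟨x, _, rfl⟩
    rw [sand_apply, Matrix.one_mul]
    refine ⟨fun i => ⟨(Eᵀ).mulVecLin (x i), ⟨x i, rfl⟩⟩, ?_⟩
    ext i j
    show (Eᵀ *ᵥ x i) j = (x * E) i j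
    rw [Matrix.mulVec_transpose]
    rfl
  calc finrank K (F.map (sand (1 : Matrix κ κ K) E)) ≤ finrank K (LinearMap.range Φ) :=
        Submodule.finrank_mono hle
    _ ≤ finrank K (κ → R) := LinearMap.finrank_range_le Φ
    _ = Fintype.card κ * E.rank := by
        rw [Module.finrank_pi_fintype, Finset.sum_const, Finset.card_univ, hR, smul_eq_mul]

variable {α : Type} [Fintype α] [DecidableEq α] {K : Type*} [Field K]
  {S T : Type} [Fintype S] [DecidableEq S] [Fintype T] [DecidableEq T]

theorem trace_kr (f : Matrix (S → α) (S → α) K) (h : Matrix (T → α) (T → α) K) :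
    Matrix.trace (kr f h) = Matrix.trace f * Matrix.trace h := by
  simp only [Matrix.trace, Matrix.diag]
  rw [Finset.sum_mul_sum, ← Fintype.sum_prod_type'
    (f := fun (c : S → α) (d : T → α) => f c c * h d d)]
  exact Fintype.sum_equiv (Equiv.sumArrowEquivProdArrow S T α) _ _ (fun c => rfl)

/-- from `trace_idem` and `trace_kr` (in characteristic zero) -/
theorem rank_kr_idem [CharZero K] {f : Matrix (S → α) (S → α) K} {h : Matrix (T → α) (T → α) K}
    (hf : f * f = f) (hh : h * h = h) : (kr f h).rank = f.rank * h.rank := by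
  have h1 : kr f h * kr f h = kr f h := by
    rw [kr_mul, hf, hh]
  have h2 : ((kr f h).rank : K) = ((f.rank * h.rank : ℕ) : K) := by
    rw [← trace_idem h1, trace_kr, trace_idem hf, trace_idem hh, Nat.cast_mul]
  exact_mod_cast h2

theorem adj_idem {g g' : Matrix α α K} (h : g' * g = 1) {f : Matrix (S → α) (S → α) K}
    (hf : f * f = f) : adj g g' f * adj g g' f = adj g g' f := by
  rw [← adj_mul h, hf]

theorem rank_adj_idem [CharZero K] {g g' : Matrix α α K} (h : g' * g = 1)
    {f : Matrix (S → α) (S → α) K} (hf : f * f = f) : (adj g g' f).rank = f.rank := by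
  have h2 : ((adj g g' f).rank : K) = (f.rank : K) := by
    rw [← trace_idem (adj_idem h hf), trace_adj h, trace_idem hf]
  exact_mod_cast h2

/-- an idempotent matrix different from `1` has rank `< card` -/
theorem rank_lt_of_idem {ι : Type*} [Fintype ι] [DecidableEq ι] {q : Matrix ι ι K}
    (hq : q * q = q) (hne : q ≠ 1) : q.rank + 1 ≤ Fintype.card ι := by
  have h1 : q.rank ≤ Fintype.card ι := Matrix.rank_le_card_width q
  rcases Nat.lt_or_ge q.rank (Fintype.card ι) with h | h
  · exact h
  · exfalso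
    apply hne
    have h2 : q.rank = Fintype.card ι := le_antisymm h1 h
    have h3 : LinearMap.range q.mulVecLin = ⊤ := by
      apply Submodule.eq_top_of_finrank_eq
      rw [Module.finrank_fintype_fun_eq_card, ← h2]
      rfl
    have h4 : Function.Surjective q.mulVecLin := LinearMap.range_eq_top.mp h3
    have h5 : ∀ v : ι → K, q *ᵥ v = v := by
      intro v
      obtain ⟨w, rfl⟩ := h4 v
      show q *ᵥ (q *ᵥ w) = q *ᵥ w
      rw [Matrix.mulVec_mulVec, hq]
    ext i j
    have h6 := congrFun (h5 (Pi.single j 1)) i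
    rw [Matrix.mulVec_single_one] at h6
    rw [Matrix.one_apply]
    have h7 : q i j = (Pi.single j 1 : ι → K) i := h6
    rw [h7, Pi.single_apply]

/-- If `x ^ (2^k) ≤ a ^ (2^k - 1) * r ^ (2^k) * B` for all `k`, then `x ≤ r * a`: otherwise
`t = x / (r a) > 1` and `t ^ (2^k) ≤ B / a` for all `k`. -/
theorem root_bound {x a r B : ℝ} (hx : 0 ≤ x) (ha : 0 < a) (hr : 0 ≤ r)
    (h : ∀ k : ℕ, x ^ (2 ^ k) ≤ a ^ (2 ^ k - 1) * r ^ (2 ^ k) * B) : x ≤ r * a := by
  rcases hr.eq_or_lt with hr0 | hr0
  · have h0 := h 0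
    rw [← hr0] at h0 ⊢
    simp at h0
    rw [zero_mul]
    exact h0
  · by_contra hlt
    push Not at hlt
    have hra : 0 < r * a := mul_pos hr0 ha
    have ht : 1 < x / (r * a) := by
      rw [lt_div_iff₀ hra, one_mul]
      exact hlt
    obtain ⟨n, hn⟩ := pow_unbounded_of_one_lt (B / a) ht
    have h1 : (x / (r * a)) ^ n ≤ (x / (r * a)) ^ (2 ^ n) :=
      pow_le_pow_right₀ ht.le (Nat.lt_two_pow_self).le
    have h2 := h n
    have h3 : (x / (r * a)) ^ (2 ^ n) ≤ B / a := by
      rw [div_pow, div_le_div_iff₀ (by positivity) ha]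
      have h4 : a ^ (2 ^ n) = a ^ (2 ^ n - 1) * a := by
        rw [← pow_succ]
        congr 1
        have : 1 ≤ 2 ^ n := Nat.one_le_two_pow
        omega
      calc x ^ (2 ^ n) * a ≤ (a ^ (2 ^ n - 1) * r ^ (2 ^ n) * B) * a :=
            mul_le_mul_of_nonneg_right h2 ha.le
        _ = B * (r ^ (2 ^ n) * (a ^ (2 ^ n - 1) * a)) := by ring
        _ = B * (r * a) ^ (2 ^ n) := by rw [← h4, mul_pow]
    linarith

end ZO
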