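import Pool.Agent.W_f569db_zo.BendB
import Pool.Agent.W_f569db_zo.CSP
import Pool.Agent.W_f569db_zo.TwoA
import Pool.Agent.W_f569db_zo.Low

set_option autoImplicit false

/-!
# The upper bound `dim Hom_num (q V^{⊗ S} ⊗ V^{⊗ T}, V^{⊗ T}) ≤ rank q * a T T`
-/

noncomputable section

namespace ZO

open Matrix Module

variable {α : Type} [Fintype α] [DecidableEq α] {K : Type*} [Field K] [CharZero K]

namespace Sys

variable (Q : Sys α K) {S T : Type} [Fintype S] [DecidableEq S] [Fintype T] [DecidableEq T]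

/-- `dim (P (S ⊕ T) T) (q ⊗ 1) - dim (N (S ⊕ T) T) (q ⊗ 1)` -/
def pT (T : Type) [Fintype T] [DecidableEq T] (q : Matrix (S → α) (S → α) K) : ℝ :=
  cod (sand (1 : Matrix (T → α) (T → α) K) (kr q (1 : Matrix (T → α) (T → α) K)))
    (Q.P (S ⊕ T) T) (Q.N (S ⊕ T) T)

theorem Two_cod_le {V W : Type*} [AddCommGroup V] [Module K V] [AddCommGroup W] [Module K W]
    (φ : V →ₗ[K] W) (F G : Submodule K V) : cod φ F G ≤ finrank K (F.map φ) := by
  unfold cod
  have : (0 : ℝ) ≤ finrank K (G.map φ) := Nat.cast_nonneg _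
  linarith

theorem Two_cod_nonneg {V W : Type*} [AddCommGroup V] [Module K V] [AddCommGroup W] [Module K W]
    [FiniteDimensional K V] (φ : V →ₗ[K] W) {F G : Submodule K V} (h : G ≤ F) :
    0 ≤ cod φ F G := by
  unfold cod
  have h1 : finrank K (G.map φ) ≤ finrank K (F.map φ) :=
    Submodule.finrank_mono (Submodule.map_mono h)
  have h2 : (finrank K (G.map φ) : ℝ) ≤ finrank K (F.map φ) := by exact_mod_cast h1
  linarith

theorem Two_finrank_map {V W : Type*} [AddCommGroup V] [Module K V] [AddCommGroup W] [Module K W]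
    (φ : V →ₗ[K] W) (hφ : Function.Injective φ) (F : Submodule K V) :
    finrank K (F.map φ) = finrank K F :=
  ((Submodule.equivMapOfInjective φ hφ F).finrank_eq).symm

/-- transport of `cod` along an injective map -/
theorem Two_cod_transport {V V' W W' : Type*} [AddCommGroup V] [Module K V] [AddCommGroup V']
    [Module K V'] [AddCommGroup W] [Module K W] [AddCommGroup W'] [Module K W']
    (σ : V →ₗ[K] W) (σ' : V' →ₗ[K] W') (Φ : V →ₗ[K] V') (Ψ : W →ₗ[K] W')
    (hΨ : Function.Injective Ψ) (h : ∀ x, Ψ (σ x) = σ' (Φ x)) {F G : Submodule K V}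
    {F' G' : Submodule K V'} (hF : F.map Φ = F') (hG : G.map Φ = G') :
    cod σ F G = cod σ' F' G' := by
  have key : ∀ X : Submodule K V, finrank K (X.map σ) = finrank K ((X.map Φ).map σ') := by
    intro X
    rw [← Two_finrank_map Ψ hΨ (X.map σ), ← Submodule.map_comp, ← Submodule.map_comp]
    have : Ψ ∘ₗ σ = σ' ∘ₗ Φ := LinearMap.ext h
    rw [this]
  unfold cod
  rw [key F, key G, hF, hG]

/-- `cod ≤ dim (range (sand 1 (q ⊗ 1))) = card (T → α) * rank (q ⊗ 1)` -/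
theorem pT_base {q : Matrix (S → α) (S → α) K} (hq : q ∈ Q.P S S) (hq2 : q * q = q) :
    Q.pT T q ≤ (q.rank : ℝ) * (Fintype.card α : ℝ) ^ (2 * Fintype.card T) := by
  unfold pT
  refine (Two_cod_le _ _ _).trans ?_
  have h1 := finrank_range_sand (kr q (1 : Matrix (T → α) (T → α) K)) (Q.P (S ⊕ T) T)
  have h2 : (kr q (1 : Matrix (T → α) (T → α) K)).rank = q.rank * Fintype.card (T → α) := by
    rw [rank_kr_idem hq2 (Matrix.one_mul _), Matrix.rank_one]
  rw [h2] at h1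
  have h3 : (finrank K ((Q.P (S ⊕ T) T).map
      (sand (1 : Matrix (T → α) (T → α) K) (kr q (1 : Matrix (T → α) (T → α) K)))) : ℝ) ≤
      ((Fintype.card (T → α) * (q.rank * Fintype.card (T → α)) : ℕ) : ℝ) := by
    exact_mod_cast h1
  refine h3.trans (le_of_eq ?_)
  rw [Fintype.card_fun]
  push_cast
  ring

theorem pT_nonneg (q : Matrix (S → α) (S → α) K) : 0 ≤ Q.pT T q :=
  Two_cod_nonneg _ (Q.N_le (S ⊕ T) T)

theorem Two_kr_assoc {S₁ S₂ S₃ : Type} [Fintype S₁] [DecidableEq S₁] [Fintype S₂] [DecidableEq S₂]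
    [Fintype S₃] [DecidableEq S₃] (A : Matrix (S₁ → α) (S₁ → α) K)
    (B : Matrix (S₂ → α) (S₂ → α) K) (C : Matrix (S₃ → α) (S₃ → α) K) :
    kr A (kr B C) * pm α K (Equiv.sumAssoc S₁ S₂ S₃) =
      pm α K (Equiv.sumAssoc S₁ S₂ S₃) * kr (kr A B) C := by
  ext c d
  rw [mul_pm_apply, pm_mul_apply]
  show A (c ∘ Sum.inl) _ * (B _ _ * C _ _) = (A _ _ * B _ _) * C _ _
  rw [mul_assoc]
  rfl

/-- right multiplication by a permutation matrix -/
theorem Two_map_pm_P {S₁ S₂ : Type} [Fintype S₁] [DecidableEq S₁] [Fintype S₂] [DecidableEq S₂]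
    (e : S₁ ≃ S₂) :
    (Q.P S₂ T).map (sand (1 : Matrix (T → α) (T → α) K) (pm α K e)) = Q.P S₁ T := by
  apply le_antisymm
  · rintro _ ⟨x, hx, rfl⟩
    rw [sand_apply, Matrix.one_mul]
    exact Q.mul_mem hx (Q.pm_mem e)
  · intro y hy
    refine ⟨y * pm α K e.symm, Q.mul_mem hy (Q.pm_mem e.symm), ?_⟩
    rw [sand_apply, Matrix.one_mul, Matrix.mul_assoc, pm_symm_mul, Matrix.mul_one]

theorem Two_map_pm_N {S₁ S₂ : Type} [Fintype S₁] [DecidableEq S₁] [Fintype S₂] [DecidableEq S₂]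
    (e : S₁ ≃ S₂) :
    (Q.N S₂ T).map (sand (1 : Matrix (T → α) (T → α) K) (pm α K e)) = Q.N S₁ T := by
  apply le_antisymm
  · rintro _ ⟨x, hx, rfl⟩
    rw [sand_apply, Matrix.one_mul]
    exact Q.N_mul_right hx (Q.pm_mem e)
  · intro y hy
    refine ⟨y * pm α K e.symm, Q.N_mul_right hy (Q.pm_mem e.symm), ?_⟩
    rw [sand_apply, Matrix.one_mul, Matrix.mul_assoc, pm_symm_mul, Matrix.mul_one]

theorem Two_pm_inj {S₁ S₂ : Type} [Fintype S₁] [DecidableEq S₁] [Fintype S₂] [DecidableEq S₂]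
    (e : S₁ ≃ S₂) :
    Function.Injective (sand (1 : Matrix (T → α) (T → α) K) (pm α K e) :
      Matrix (T → α) (S₂ → α) K →ₗ[K] Matrix (T → α) (S₁ → α) K) := by
  intro x y hxy
  rw [sand_apply, sand_apply, Matrix.one_mul, Matrix.one_mul] at hxy
  have h1 : pm α K e * pm α K e.symm = (1 : Matrix (S₂ → α) (S₂ → α) K) := by
    have := pm_symm_mul (α := α) (K := K) e.symm
    rwa [Equiv.symm_symm] at this
  calc x = x * (pm α K e * pm α K e.symm) := by rw [h1, Matrix.mul_one]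
    _ = y * (pm α K e * pm α K e.symm) := by
        rw [← Matrix.mul_assoc, hxy, Matrix.mul_assoc]
    _ = y := by rw [h1, Matrix.mul_one]

/-- With `E = kr q 1 ∈ P (S ⊕ T) (S ⊕ T)`: `cod (sand E E) (P (S ⊕ T) (S ⊕ T)) (N ..) =
pT (kr (adj q) q)`: bending (`map_bnd_P`, `map_bnd_N` with source `S ⊕ T` and target `S ⊕ T`)
maps `E * x * E` to `bnd x * (adj q ⊗ (q ⊗ 1))` (`bnd_kr_one`, `bnd_mul`), and the reassociation
`pm (Equiv.sumAssoc S S T)` transforms `adj q ⊗ (q ⊗ 1)` into `(adj q ⊗ q) ⊗ 1`. -/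
theorem cod_sand_eq {q : Matrix (S → α) (S → α) K} :
    cod (sand (kr q (1 : Matrix (T → α) (T → α) K)) (kr q (1 : Matrix (T → α) (T → α) K)))
      (Q.P (S ⊕ T) (S ⊕ T)) (Q.N (S ⊕ T) (S ⊕ T)) = Q.pT T (kr (adj Q.g Q.g' q) q) := by
  let b : Matrix (S ⊕ T → α) (S ⊕ T → α) K →ₗ[K] Matrix (T → α) (S ⊕ (S ⊕ T) → α) K :=
    bnd (S := S) (T' := T) (T := S ⊕ T) Q.g
  let r : Matrix (T → α) (S ⊕ (S ⊕ T) → α) K →ₗ[K] Matrix (T → α) ((S ⊕ S) ⊕ T → α) K :=
    sand (1 : Matrix (T → α) (T → α) K) (pm α K (Equiv.sumAssoc S S T))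
  have hb : Function.Injective b := by
    intro x y hxy
    have := congrArg (bndI (S := S) (T' := T) (T := S ⊕ T) Q.g') hxy
    rwa [bndI_bnd Q.g'g, bndI_bnd Q.g'g] at this
  have hΨ : Function.Injective (r ∘ₗ b) := by
    rw [LinearMap.coe_comp]
    exact (Two_pm_inj _).comp hb
  refine Two_cod_transport _ _ (r ∘ₗ b) (r ∘ₗ b) hΨ ?_ ?_ ?_
  · intro x
    show r (b _) = sand _ _ (r (b x))
    have h1 : b (kr q (1 : Matrix (T → α) (T → α) K) * x * kr q (1 : Matrix (T → α) (T → α) K)) =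
        b x * kr (adj Q.g Q.g' q) (kr q (1 : Matrix (T → α) (T → α) K)) := by
      show bnd Q.g _ = bnd Q.g x * _
      rw [Matrix.mul_assoc, bnd_kr_one Q.g'g, bnd_mul, Matrix.mul_assoc, kr_mul, Matrix.one_mul,
        Matrix.mul_one]
    have h0 : sand (kr q (1 : Matrix (T → α) (T → α) K)) (kr q (1 : Matrix (T → α) (T → α) K)) x =
        kr q (1 : Matrix (T → α) (T → α) K) * x * kr q (1 : Matrix (T → α) (T → α) K) :=
      sand_apply _ _ _
    rw [h0, h1]
    show (1 : Matrix (T → α) (T → α) K) *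
        (b x * kr (adj Q.g Q.g' q) (kr q (1 : Matrix (T → α) (T → α) K))) *
          pm α K (Equiv.sumAssoc S S T) =
      (1 : Matrix (T → α) (T → α) K) * ((1 : Matrix (T → α) (T → α) K) * b x *
        pm α K (Equiv.sumAssoc S S T)) *
          kr (kr (adj Q.g Q.g' q) q) (1 : Matrix (T → α) (T → α) K)
    rw [Matrix.one_mul, Matrix.one_mul, Matrix.one_mul, Matrix.mul_assoc, Two_kr_assoc,
      Matrix.mul_assoc]
  · rw [Submodule.map_comp]
    show ((Q.P (S ⊕ T) (S ⊕ T)).map (bnd (S := S) Q.g)).map r = _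
    rw [map_bnd_P]
    exact Q.Two_map_pm_P _
  · rw [Submodule.map_comp]
    show ((Q.N (S ⊕ T) (S ⊕ T)).map (bnd (S := S) Q.g)).map r = _
    rw [map_bnd_N]
    exact Q.Two_map_pm_N _

theorem Two_sand_one (T : Type) [Fintype T] [DecidableEq T] :
    cod (sand (1 : Matrix (T → α) (T → α) K) (1 : Matrix (T → α) (T → α) K)) (Q.P T T)
      (Q.N T T) = Q.a T T := by
  have h1 : sand (1 : Matrix (T → α) (T → α) K) (1 : Matrix (T → α) (T → α) K) =
      LinearMap.id := by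
    apply LinearMap.ext
    intro x
    rw [sand_apply, Matrix.one_mul, Matrix.mul_one, LinearMap.id_apply]
  unfold cod a
  rw [h1, Submodule.map_id, Submodule.map_id]

/-- from `cs_P` with the objects `S ⊕ T`, `T` and the idempotents `kr q 1`, `1`, and
`cod_sand_eq` -/
theorem pT_step {q : Matrix (S → α) (S → α) K} (hq : q ∈ Q.P S S) (hq2 : q * q = q) :
    (Q.pT T q) ^ 2 ≤ Q.a T T * Q.pT T (kr (adj Q.g Q.g' q) q) := by
  have h1 := Q.cs_P (S := S ⊕ T) (S' := T) (e := kr q (1 : Matrix (T → α) (T → α) K))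
    (f := (1 : Matrix (T → α) (T → α) K)) (Q.kr_mem hq (Q.one_mem T)) (Q.one_mem T)
    (by rw [kr_mul, hq2, Matrix.one_mul]) (Matrix.one_mul _)
  rw [cod_sand_eq, Two_sand_one, mul_comm] at h1
  exact h1

theorem Two_a_nonneg (T : Type) [Fintype T] [DecidableEq T] : 0 ≤ Q.a T T := by
  unfold a
  have h1 : finrank K (Q.N T T) ≤ finrank K (Q.P T T) := Submodule.finrank_mono (Q.N_le T T)
  have h2 : (finrank K (Q.N T T) : ℝ) ≤ finrank K (Q.P T T) := by exact_mod_cast h1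
  linarith

/-- induction on `k`, for all `S` and `q` -/
theorem pT_iter (k : ℕ) : ∀ (S : Type) [Fintype S] [DecidableEq S] (q : Matrix (S → α) (S → α) K),
    q ∈ Q.P S S → q * q = q →
    (Q.pT T q) ^ (2 ^ k) ≤ (Q.a T T) ^ (2 ^ k - 1) * (q.rank : ℝ) ^ (2 ^ k) *
      (Fintype.card α : ℝ) ^ (2 * Fintype.card T) := by
  induction k with
  | zero =>
    intro S _ _ q hq hq2
    simpa using Q.pT_base (T := T) hq hq2
  | succ k ih =>
    intro S _ _ q hq hq2
    have ha := Q.Two_a_nonneg T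
    have hr : (kr (adj Q.g Q.g' q) q).rank = q.rank * q.rank := by
      rw [rank_kr_idem (adj_idem Q.g'g hq2) hq2, rank_adj_idem Q.g'g hq2]
    have h1 := ih (S ⊕ S) (kr (adj Q.g Q.g' q) q) (Q.kr_mem (Q.adj_mem hq) hq)
      (by rw [kr_mul, adj_idem Q.g'g hq2, hq2])
    have h2 := Q.pT_step (T := T) hq hq2
    have hk : 1 ≤ 2 ^ k := Nat.one_le_two_pow
    calc (Q.pT T q) ^ (2 ^ (k + 1)) = ((Q.pT T q) ^ 2) ^ (2 ^ k) := by
          rw [← pow_mul, pow_succ, mul_comm]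
      _ ≤ (Q.a T T * Q.pT T (kr (adj Q.g Q.g' q) q)) ^ (2 ^ k) :=
          pow_le_pow_left₀ (sq_nonneg _) h2 _
      _ = (Q.a T T) ^ (2 ^ k) * (Q.pT T (kr (adj Q.g Q.g' q) q)) ^ (2 ^ k) := mul_pow _ _ _
      _ ≤ (Q.a T T) ^ (2 ^ k) * ((Q.a T T) ^ (2 ^ k - 1) *
            ((kr (adj Q.g Q.g' q) q).rank : ℝ) ^ (2 ^ k) *
            (Fintype.card α : ℝ) ^ (2 * Fintype.card T)) :=
          mul_le_mul_of_nonneg_left h1 (pow_nonneg ha _)
      _ = (Q.a T T) ^ (2 ^ (k + 1) - 1) * (q.rank : ℝ) ^ (2 ^ (k + 1)) *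
            (Fintype.card α : ℝ) ^ (2 * Fintype.card T) := by
          have e1 : 2 ^ (k + 1) - 1 = 2 ^ k + (2 ^ k - 1) := by
            rw [pow_succ]
            omega
          have e2 : 2 ^ (k + 1) = 2 ^ k + 2 ^ k := by
            rw [pow_succ]
            omega
          rw [e1, e2, hr, pow_add, pow_add, Nat.cast_mul, mul_pow]
          ring

/-- `a T T > 0`: from `low` -/
theorem a_pos [Nonempty α] (T : Type) [Fintype T] [DecidableEq T] : 0 < Q.a T T := by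
  have h1 := low Q T
  have h2 : (0 : ℝ) < (Fintype.card α : ℝ) ^ (2 * Fintype.card T) := by
    have : 0 < Fintype.card α := Fintype.card_pos
    positivity
  by_contra h
  push Not at h
  have h3 : (Fintype.card T + 1 : ℝ) ^ (Fintype.card α ^ 2) * Q.a T T ≤ 0 :=
    mul_nonpos_of_nonneg_of_nonpos (by positivity) h
  linarith

/-- The upper bound, by taking `2^k`-th roots (`root_bound`). -/
theorem pT_le [Nonempty α] {q : Matrix (S → α) (S → α) K} (hq : q ∈ Q.P S S) (hq2 : q * q = q) :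
    Q.pT T q ≤ (q.rank : ℝ) * Q.a T T :=
  root_bound (Q.pT_nonneg q) (Q.a_pos T) (Nat.cast_nonneg _)
    fun k => Q.pT_iter k S q hq hq2

end Sys

end ZO
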