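import Mathlib

set_option autoImplicit false

/-!
# Real analysis: ratios of a log-convex sequence, and the final estimate
-/

namespace ZO

/-- The ratios `s (m+1) / s m` of a positive log-convex sequence are nondecreasing. -/
theorem ratio_mono (s : ℕ → ℝ) (hpos : ∀ m, 0 < s m)
    (hlc : ∀ m, (s (m + 1)) ^ 2 ≤ s m * s (m + 2)) :
    Monotone fun m => s (m + 1) / s m := by
  refine monotone_nat_of_le_succ fun m => ?_
  have h0 := hpos m
  have h1 := hpos (m + 1)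
  have := hlc m
  rw [div_le_div_iff₀ h0 h1]
  calc s (m + 1) * s (m + 1) = s (m + 1) ^ 2 := by ring
    _ ≤ s m * s (m + 2) := this
    _ = s (m + 1 + 1) * s m := by ring_nf

/-- `s (m+k) ≥ r_m ^ k * s m` -/
theorem ratio_pow (s : ℕ → ℝ) (hpos : ∀ m, 0 < s m)
    (hlc : ∀ m, (s (m + 1)) ^ 2 ≤ s m * s (m + 2)) (m k : ℕ) :
    (s (m + 1) / s m) ^ k * s m ≤ s (m + k) := by
  induction k with
  | zero => simp
  | succ k ih =>
    have h1 : s (m + 1) / s m ≤ s (m + k + 1) / s (m + k) :=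
      ratio_mono s hpos hlc (Nat.le_add_right m k)
    have h2 : s (m + (k + 1)) = s (m + k + 1) / s (m + k) * s (m + k) := by
      rw [div_mul_cancel₀ _ (hpos _).ne']; rfl
    have h3 : 0 ≤ s (m + 1) / s m := (div_pos (hpos _) (hpos _)).le
    rw [h2, pow_succ']
    calc s (m + 1) / s m * (s (m + 1) / s m) ^ k * s m
        = s (m + 1) / s m * ((s (m + 1) / s m) ^ k * s m) := by ring
      _ ≤ s (m + k + 1) / s (m + k) * s (m + k) :=
        mul_le_mul h1 ih (mul_nonneg (pow_nonneg h3 _) (hpos _).le) (h3.trans h1)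

/-- `s m ≤ r_m ^ m * s 0` -/
theorem le_ratio_pow (s : ℕ → ℝ) (hpos : ∀ m, 0 < s m)
    (hlc : ∀ m, (s (m + 1)) ^ 2 ≤ s m * s (m + 2)) (m : ℕ) :
    s m ≤ (s (m + 1) / s m) ^ m * s 0 := by
  have key : ∀ j ≤ m, s j ≤ (s (m + 1) / s m) ^ j * s 0 := by
    intro j
    induction j with
    | zero => intro _; simp
    | succ j ih =>
      intro hj
      have h1 : s (j + 1) / s j ≤ s (m + 1) / s m := ratio_mono s hpos hlc (by omega)
      have h2 : s (j + 1) = s (j + 1) / s j * s j := by rw [div_mul_cancel₀ _ (hpos _).ne']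
      have h3 : 0 ≤ s (m + 1) / s m := (div_pos (hpos _) (hpos _)).le
      rw [h2, pow_succ']
      calc s (j + 1) / s j * s j ≤ s (m + 1) / s m * ((s (m + 1) / s m) ^ j * s 0) :=
            mul_le_mul h1 (ih (by omega)) (hpos _).le h3
        _ = s (m + 1) / s m * (s (m + 1) / s m) ^ j * s 0 := by ring
  exact key m le_rfl

/-- Quantitative form: `s (m+k) ≥ β^k (1 - (C k / m) log (m+1)) s m`. -/
theorem ratio_quant (s : ℕ → ℝ) (β : ℝ) (C : ℕ) (hβ : 1 ≤ β) (hpos : ∀ m, 0 < s m)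
    (hlc : ∀ m, (s (m + 1)) ^ 2 ≤ s m * s (m + 2))
    (hlow : ∀ m : ℕ, β ^ m ≤ ((m : ℝ) + 1) ^ C * s m) (hup : s 0 ≤ 1) (k m : ℕ) (hm : 1 ≤ m) :
    (1 - C * k / m * Real.log (m + 1)) * β ^ k * s m ≤ s (m + k) := by
  have hm0 : (0 : ℝ) < m := by exact_mod_cast hm
  have hβ0 : 0 < β := by linarith
  set r := s (m + 1) / s m with hr
  have hr0 : 0 < r := div_pos (hpos _) (hpos _)
  have h1 : s m ≤ r ^ m := by
    calc s m ≤ r ^ m * s 0 := le_ratio_pow s hpos hlc m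
      _ ≤ r ^ m * 1 := by
        apply mul_le_mul_of_nonneg_left hup (pow_nonneg hr0.le _)
      _ = r ^ m := mul_one _
  have h2 : β ^ m ≤ ((m : ℝ) + 1) ^ C * r ^ m :=
    (hlow m).trans (mul_le_mul_of_nonneg_left h1 (by positivity))
  have h3 : m * Real.log β ≤ C * Real.log (m + 1) + m * Real.log r := by
    have := Real.log_le_log (pow_pos hβ0 _) h2
    rw [Real.log_mul (by positivity) (by positivity), Real.log_pow, Real.log_pow,
      Real.log_pow] at this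
    exact this
  have h4 : k * Real.log β - C * k / m * Real.log (m + 1) ≤ k * Real.log r := by
    have h5 : Real.log β - C / m * Real.log (m + 1) ≤ Real.log r := by
      have : (m : ℝ) * (Real.log β - C / m * Real.log (m + 1)) ≤ m * Real.log r := by
        have e : (m : ℝ) * (Real.log β - C / m * Real.log (m + 1)) =
            m * Real.log β - C * Real.log (m + 1) := by
          field_simp
        rw [e]; linarith
      exact le_of_mul_le_mul_left this hm0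
    calc k * Real.log β - C * k / m * Real.log (m + 1)
        = k * (Real.log β - C / m * Real.log (m + 1)) := by ring
      _ ≤ k * Real.log r := mul_le_mul_of_nonneg_left h5 (Nat.cast_nonneg _)
  have h6 : (1 - C * k / m * Real.log (m + 1)) * β ^ k ≤ r ^ k := by
    calc (1 - C * k / m * Real.log (m + 1)) * β ^ k
        ≤ Real.exp (-(C * k / m * Real.log (m + 1))) * β ^ k := by
          apply mul_le_mul_of_nonneg_right _ (pow_nonneg hβ0.le _)
          have := Real.add_one_le_exp (-(C * k / m * Real.log (m + 1)))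
          linarith
      _ = Real.exp (k * Real.log β - C * k / m * Real.log (m + 1)) := by
          rw [sub_eq_add_neg, Real.exp_add, mul_comm (Real.exp (k * Real.log β)),
            ← Real.log_pow, Real.exp_log (pow_pos hβ0 _)]
      _ ≤ Real.exp (k * Real.log r) := Real.exp_le_exp.mpr h4
      _ = r ^ k := by rw [← Real.log_pow, Real.exp_log (pow_pos hr0 _)]
  calc (1 - C * k / m * Real.log (m + 1)) * β ^ k * s m ≤ r ^ k * s m :=
        mul_le_mul_of_nonneg_right h6 (hpos _).le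
    _ ≤ s (m + k) := ratio_pow s hpos hlc m k

/-- `log (m+1) ≤ √m` -/
theorem log_le_sqrt (m : ℕ) : Real.log (m + 1) ≤ Real.sqrt m := by
  have hx : 0 ≤ Real.sqrt m := Real.sqrt_nonneg _
  have hx2 : Real.sqrt m ^ 2 = m := Real.sq_sqrt (Nat.cast_nonneg _)
  rw [Real.log_le_iff_le_exp (by positivity)]
  have h := Real.sum_le_exp_of_nonneg hx 4
  simp only [Finset.sum_range_succ, Finset.sum_range_zero, Nat.factorial] at h
  norm_num at h
  have h2 : 0 ≤ Real.sqrt m * (1 - Real.sqrt m / 2 + Real.sqrt m ^ 2 / 6) := by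
    apply mul_nonneg hx
    nlinarith [sq_nonneg (Real.sqrt m - 3 / 2)]
  calc (m : ℝ) + 1 = 1 + Real.sqrt m ^ 2 := by rw [hx2]; ring
    _ ≤ 1 + Real.sqrt m + Real.sqrt m ^ 2 / 2 + Real.sqrt m ^ 3 / 6 := by nlinarith [h2]
    _ ≤ Real.exp (Real.sqrt m) := by linarith [h]

/-- the ratios are bounded by `β` if `s m ≤ β^m` -/
theorem ratio_le (s : ℕ → ℝ) (β : ℝ) (hβ : 1 ≤ β) (hpos : ∀ m, 0 < s m)
    (hlc : ∀ m, (s (m + 1)) ^ 2 ≤ s m * s (m + 2)) (hup : ∀ m, s m ≤ β ^ m) (m : ℕ) :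
    s (m + 1) ≤ β * s m := by
  have hβ0 : 0 < β := by linarith
  by_contra hcon
  push Not at hcon
  have h1 : 1 < (s (m + 1) / s m) / β := by
    rw [lt_div_iff₀ hβ0, lt_div_iff₀ (hpos m)]
    linarith
  obtain ⟨j, hj⟩ := pow_unbounded_of_one_lt (β ^ m / s m) h1
  have h2 := ratio_pow s hpos hlc m j
  have h3 := hup (m + j)
  have h4 : (s (m + 1) / s m) ^ j * s m ≤ β ^ m * β ^ j := by
    rw [← pow_add]; exact h2.trans h3
  rw [div_pow, div_lt_div_iff₀ (hpos m) (pow_pos hβ0 j)] at hj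
  linarith

/-- Let `s` be a positive log-convex sequence with `β^m ≤ (m+1)^C s_m` and `s_m ≤ β^m`.  The ratios
`r_m = s_{m+1}/s_m` are nondecreasing; `r_m ≤ β` (otherwise `s_{m+j} ≥ s_m r_m^j` contradicts
`s ≤ β^(m+j)`), and for every `β' < β` some `r_m > β'` (otherwise `s_m ≤ s_0 β'^m` contradicts the
lower bound).  Hence `s_{m+k} ≥ (1-ε) β^k s_m` for `m` large. -/
theorem ratio (s : ℕ → ℝ) (β : ℝ) (C : ℕ) (hβ : 1 ≤ β) (hpos : ∀ m, 0 < s m)
    (hlc : ∀ m, (s (m + 1)) ^ 2 ≤ s m * s (m + 2))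
    (hlow : ∀ m : ℕ, β ^ m ≤ ((m : ℝ) + 1) ^ C * s m) (hup : ∀ m, s m ≤ β ^ m) (k : ℕ) {ε : ℝ}
    (hε : 0 < ε) : ∃ M : ℕ, ∀ m ≥ M, (1 - ε) * β ^ k * s m ≤ s (m + k) := by
  have hβ0 : 0 < β := by linarith
  obtain ⟨M, hM⟩ := exists_nat_ge ((C * k / ε) ^ 2)
  refine ⟨M + 1, fun m hm => ?_⟩
  have hm1 : 1 ≤ m := by omega
  have hm0 : (0 : ℝ) < m := by exact_mod_cast hm1
  have hq := ratio_quant s β C hβ hpos hlc hlow (by simpa using hup 0) k m hm1
  refine le_trans ?_ hq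
  apply mul_le_mul_of_nonneg_right _ (hpos m).le
  apply mul_le_mul_of_nonneg_right _ (pow_nonneg hβ0.le _)
  have h1 : C * k / ε ≤ Real.sqrt m := by
    apply Real.le_sqrt_of_sq_le
    have : (M : ℝ) + 1 ≤ m := by exact_mod_cast hm
    linarith
  have h2 : C * k / m * Real.log (m + 1) ≤ ε := by
    have h3 : C * k / m * Real.log (m + 1) ≤ C * k / m * Real.sqrt m :=
      mul_le_mul_of_nonneg_left (log_le_sqrt m) (by positivity)
    have hs : 0 < Real.sqrt m := Real.sqrt_pos.mpr hm0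
    have h4 : (C : ℝ) * k / m * Real.sqrt m = C * k / Real.sqrt m := by
      have : (m : ℝ) = Real.sqrt m * Real.sqrt m := (Real.mul_self_sqrt hm0.le).symm
      rw [div_mul_eq_mul_div, div_eq_div_iff hm0.ne' hs.ne', mul_assoc, ← this]
    rw [h4] at h3
    refine h3.trans ?_
    rw [div_le_iff₀ hs]
    rw [div_le_iff₀ hε] at h1
    linarith
  linarith

/-- `2 i b^(2(i+1)) ≤ (b+1)^(3(i+1))` -/
theorem pow_est (b i : ℕ) (hb : 1 ≤ b) : 2 * b ^ (2 * (i + 1)) * i ≤ (b + 1) ^ (3 * (i + 1)) := by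
  have h1 : i < (b + 1) ^ i := Nat.lt_pow_self (by omega)
  have h2 : b ^ (2 * (i + 1)) ≤ (b + 1) ^ (2 * (i + 1)) := Nat.pow_le_pow_left (by omega) _
  calc 2 * b ^ (2 * (i + 1)) * i = b ^ (2 * (i + 1)) * (i * 2) := by ring
    _ ≤ (b + 1) ^ (2 * (i + 1)) * ((b + 1) ^ i * (b + 1)) :=
      Nat.mul_le_mul h2 (Nat.mul_le_mul h1.le (by omega))
    _ = (b + 1) ^ (3 * (i + 1)) := by ring

/-- One layer contributes at least `A (2m) / 2`. -/
theorem layer_half (A : ℕ → ℝ) (b : ℕ) (hb : 1 ≤ b)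
    (hlow : ∀ m : ℕ, (b : ℝ) ^ (2 * m) ≤ ((m : ℝ) + 1) ^ (b ^ 2) * A (2 * m))
    (hup : ∀ m : ℕ, A (2 * m) ≤ (b : ℝ) ^ (2 * m))
    (hlc : ∀ m : ℕ, (A (2 * (m + 1))) ^ 2 ≤ A (2 * m) * A (2 * (m + 2))) (i m : ℕ)
    (hm : (b + 1) ^ (6 * (i + 1)) ≤ m) :
    A (2 * m) / 2 ≤ A (2 * i + 2 * m) - ((b : ℝ) ^ (2 * i) - 1) * A (2 * m) := by
  have hb0 : (1 : ℝ) ≤ b := by exact_mod_cast hb
  have hpos : ∀ m, 0 < A (2 * m) := by
    intro m
    by_contra hcon
    push Not at hcon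
    have h1 := hlow m
    have h2 : (0 : ℝ) < (b : ℝ) ^ (2 * m) := pow_pos (by linarith) _
    have h3 : ((m : ℝ) + 1) ^ (b ^ 2) * A (2 * m) ≤ 0 :=
      mul_nonpos_of_nonneg_of_nonpos (by positivity) hcon
    linarith
  have hm1 : 1 ≤ m := le_trans (Nat.one_le_pow _ _ (by omega)) hm
  have hm0 : (0 : ℝ) < m := by exact_mod_cast hm1
  have hq := ratio_quant (fun m => A (2 * m)) ((b : ℝ) ^ 2) (b ^ 2) (one_le_pow₀ hb0) hpos hlc
    (fun m => by rw [← pow_mul]; exact hlow m) (by simpa using hup 0) i m hm1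
  simp only [← pow_mul] at hq
  have e1 : A (2 * i + 2 * m) = A (2 * (m + i)) := by congr 1; ring
  rw [e1]
  refine le_trans ?_ (sub_le_sub_right hq _)
  have hs : 0 < Real.sqrt m := Real.sqrt_pos.mpr hm0
  have hss : Real.sqrt m * Real.sqrt m = m := Real.mul_self_sqrt hm0.le
  have h1 : (2 : ℝ) * (b : ℝ) ^ (2 * (i + 1)) * i ≤ Real.sqrt m := by
    have h2 : (2 : ℝ) * (b : ℝ) ^ (2 * (i + 1)) * i ≤ ((b : ℝ) + 1) ^ (3 * (i + 1)) := by
      exact_mod_cast pow_est b i hb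
    refine h2.trans (Real.le_sqrt_of_sq_le ?_)
    have h3 : (((b : ℝ) + 1) ^ (3 * (i + 1))) ^ 2 = ((b : ℝ) + 1) ^ (6 * (i + 1)) := by
      rw [← pow_mul]; congr 1; ring
    rw [h3]
    exact_mod_cast hm
  have h4 : ((b ^ 2 : ℕ) : ℝ) * i / m * Real.log (m + 1) * (b : ℝ) ^ (2 * i) ≤ 1 / 2 := by
    have h5 : ((b ^ 2 : ℕ) : ℝ) * i / m * Real.log (m + 1) * (b : ℝ) ^ (2 * i) =
        ((b : ℝ) ^ (2 * (i + 1)) * i) * Real.log (m + 1) / m := by
      push_cast; ring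
    rw [h5, div_le_iff₀ hm0]
    have h6 : ((b : ℝ) ^ (2 * (i + 1)) * i) * Real.log (m + 1) ≤
        ((b : ℝ) ^ (2 * (i + 1)) * i) * Real.sqrt m :=
      mul_le_mul_of_nonneg_left (log_le_sqrt m) (by positivity)
    refine h6.trans ?_
    have h7 : ((b : ℝ) ^ (2 * (i + 1)) * i) * Real.sqrt m ≤ (Real.sqrt m / 2) * Real.sqrt m := by
      apply mul_le_mul_of_nonneg_right _ hs.le
      linarith
    calc ((b : ℝ) ^ (2 * (i + 1)) * i) * Real.sqrt m ≤ (Real.sqrt m / 2) * Real.sqrt m := h7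
      _ = 1 / 2 * (Real.sqrt m * Real.sqrt m) := by ring
      _ = 1 / 2 * m := by rw [hss]
  have h8 : (1 - ((b ^ 2 : ℕ) : ℝ) * i / m * Real.log (m + 1)) * (b : ℝ) ^ (2 * i) * A (2 * m) -
      ((b : ℝ) ^ (2 * i) - 1) * A (2 * m) =
      (1 - ((b ^ 2 : ℕ) : ℝ) * i / m * Real.log (m + 1) * (b : ℝ) ^ (2 * i)) * A (2 * m) := by
    ring
  rw [h8]
  have := hpos m
  nlinarith

/-- The effective final estimate: if a nonzero numerically trivial class lives on the `k`-th power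
then for every `J` and `m ≥ (b+1)^(6Jk)`: `J A(2m) ≤ 2 h(2m)`. -/
theorem final_eff (A h : ℕ → ℝ) (b k : ℕ) (hb : 1 ≤ b)
    (hlow : ∀ m : ℕ, (b : ℝ) ^ (2 * m) ≤ ((m : ℝ) + 1) ^ (b ^ 2) * A (2 * m))
    (hup : ∀ m : ℕ, A (2 * m) ≤ (b : ℝ) ^ (2 * m))
    (hlc : ∀ m : ℕ, (A (2 * (m + 1))) ^ 2 ≤ A (2 * m) * A (2 * (m + 2)))
    (hchain : ∀ m J : ℕ, ∑ j ∈ Finset.range J, (A (j * (2 * k) + 2 * m) -
      ((b : ℝ) ^ (j * (2 * k)) - 1) * A (2 * m)) ≤ h (2 * m)) :
    ∀ J m : ℕ, (b + 1) ^ (6 * J * k) ≤ m → (J : ℝ) * A (2 * m) ≤ 2 * h (2 * m) := by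
  intro J m hm
  have hA0 : 0 ≤ A (2 * m) := by
    by_contra hcon
    push Not at hcon
    have h1 := hlow m
    have h2 : (0 : ℝ) ≤ (b : ℝ) ^ (2 * m) := pow_nonneg (Nat.cast_nonneg _) _
    have h3 : ((m : ℝ) + 1) ^ (b ^ 2) * A (2 * m) < 0 :=
      mul_neg_of_pos_of_neg (by positivity) hcon
    linarith
  have hc := hchain m J
  have hsum : ∑ _j ∈ Finset.range J, A (2 * m) / 2 ≤
      ∑ j ∈ Finset.range J, (A (j * (2 * k) + 2 * m) -
        ((b : ℝ) ^ (j * (2 * k)) - 1) * A (2 * m)) := by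
    apply Finset.sum_le_sum
    intro j hj
    rw [Finset.mem_range] at hj
    have e : j * (2 * k) = 2 * (j * k) := by ring
    rw [e]
    rcases Nat.eq_zero_or_pos k with hk | hk
    · subst hk
      simp only [mul_zero, zero_add, pow_zero, sub_self, zero_mul, sub_zero]
      linarith
    · apply layer_half A b hb hlow hup hlc (j * k) m
      refine le_trans (Nat.pow_le_pow_right (by omega) ?_) hm
      rw [mul_assoc]
      apply Nat.mul_le_mul_left
      calc j * k + 1 ≤ j * k + k := by omega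
        _ = (j + 1) * k := by ring
        _ ≤ J * k := Nat.mul_le_mul_right _ hj
  rw [Finset.sum_const, Finset.card_range, nsmul_eq_mul] at hsum
  linarith

/-- The final estimate.  `A n` is the numerical rank, `h n` the homological one.
Take `2 d` with `d` the size of the numerically trivial class: for `J` layers
`h (2m) ≥ ∑_{j<J} (A (j (2d) + 2m) - (b^(j(2d)) - 1) A(2m))`
`≥ ∑_{j<J} ((1-ε) b^(2 j d) - b^(2 j d) + 1) A (2m) = ∑_{j<J} (1 - ε b^(2jd)) A(2m)`; choose `ε` with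
`ε b^(2Jd) ≤ 1/2`: `h (2m) ≥ (J/2) A (2m)`.  For odd `n = 2m+1`: `h n ≥ h (2m)`,
`A n ≤ A (2m+2) ≤ b^2 A (2m)`; the last inequality follows from log-convexity and `A (2m) ≤ b^(2m)`
(the ratios are nondecreasing and bounded by `b^2`), or is given by `hA2`. -/
theorem final (A h : ℕ → ℝ) (b d C : ℕ) (hb : 1 ≤ b)
    (hlow : ∀ m : ℕ, (b : ℝ) ^ (2 * m) ≤ ((m : ℝ) + 1) ^ C * A (2 * m))
    (hup : ∀ m : ℕ, A (2 * m) ≤ (b : ℝ) ^ (2 * m))
    (hlc : ∀ m : ℕ, (A (2 * (m + 1))) ^ 2 ≤ A (2 * m) * A (2 * (m + 2)))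
    (hmonoA : ∀ n, A n ≤ A (n + 1)) (hmonoh : ∀ n, h n ≤ h (n + 1))
    (hchain : ∀ m J : ℕ, ∑ j ∈ Finset.range J, (A (j * (2 * d) + 2 * m) -
      ((b : ℝ) ^ (j * (2 * d)) - 1) * A (2 * m)) ≤ h (2 * m)) :
    ∀ c : ℝ, ∃ M : ℕ, ∀ n ≥ M, c * A n ≤ h n := by
  intro c
  have hb0 : (1 : ℝ) ≤ b := by exact_mod_cast hb
  have hpos : ∀ m, 0 < A (2 * m) := by
    intro m
    by_contra hcon
    push Not at hcon
    have h1 := hlow m
    have h2 : (0 : ℝ) < (b : ℝ) ^ (2 * m) := pow_pos (by linarith) _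
    have h3 : ((m : ℝ) + 1) ^ C * A (2 * m) ≤ 0 :=
      mul_nonpos_of_nonneg_of_nonpos (by positivity) hcon
    linarith
  obtain ⟨J, hJ⟩ := exists_nat_ge (2 * max c 0 * (b : ℝ) ^ 2)
  have hβ : 1 ≤ (b : ℝ) ^ 2 := one_le_pow₀ hb0
  have hε : (0 : ℝ) < 1 / (2 * (b : ℝ) ^ (2 * (J * d))) := by positivity
  have hr := fun k => ratio (fun m => A (2 * m)) ((b : ℝ) ^ 2) C hβ hpos hlc
    (fun m => by rw [← pow_mul]; exact hlow m) (fun m => by rw [← pow_mul]; exact hup m) k hε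
  choose f hf using hr
  set M := ∑ j ∈ Finset.range J, f (j * d) with hMdef
  have hfM : ∀ j ∈ Finset.range J, f (j * d) ≤ M := fun j hj =>
    Finset.single_le_sum (f := fun j => f (j * d)) (fun _ _ => Nat.zero_le _) hj
  have heven : ∀ m ≥ M, (J : ℝ) / 2 * A (2 * m) ≤ h (2 * m) := by
    intro m hm
    refine le_trans ?_ (hchain m J)
    have hsum : ∑ _j ∈ Finset.range J, A (2 * m) / 2 ≤
        ∑ j ∈ Finset.range J, (A (j * (2 * d) + 2 * m) -
          ((b : ℝ) ^ (j * (2 * d)) - 1) * A (2 * m)) := by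
      apply Finset.sum_le_sum
      intro j hj
      have h1 := hf (j * d) m ((hfM j hj).trans hm)
      rw [Finset.mem_range] at hj
      simp only [← pow_mul] at h1
      have e : j * (2 * d) = 2 * (j * d) := by ring
      have e1 : A (j * (2 * d) + 2 * m) = A (2 * (m + j * d)) := by congr 1; ring
      rw [e1, e]
      have h2 : 1 / (2 * (b : ℝ) ^ (2 * (J * d))) * (b : ℝ) ^ (2 * (j * d)) ≤ 1 / 2 := by
        have h3 : (b : ℝ) ^ (2 * (j * d)) ≤ (b : ℝ) ^ (2 * (J * d)) := by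
          apply pow_le_pow_right₀ hb0
          apply Nat.mul_le_mul_left
          exact Nat.mul_le_mul_right _ hj.le
        rw [div_mul_eq_mul_div, div_le_iff₀ (by positivity)]
        linarith
      have h4 := hpos m
      have h5 : (1 - 1 / (2 * (b : ℝ) ^ (2 * (J * d)))) * (b : ℝ) ^ (2 * (j * d)) * A (2 * m) -
          ((b : ℝ) ^ (2 * (j * d)) - 1) * A (2 * m) =
          (1 - 1 / (2 * (b : ℝ) ^ (2 * (J * d))) * (b : ℝ) ^ (2 * (j * d))) * A (2 * m) := by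
        ring
      have h6 : A (2 * m) / 2 ≤
          (1 - 1 / (2 * (b : ℝ) ^ (2 * (J * d))) * (b : ℝ) ^ (2 * (j * d))) * A (2 * m) := by
        nlinarith
      linarith
    rw [Finset.sum_const, Finset.card_range, nsmul_eq_mul] at hsum
    linarith
  refine ⟨2 * M, fun n hn => ?_⟩
  have hc0 : 0 ≤ max c 0 := le_max_right _ _
  have hcc : c ≤ max c 0 := le_max_left _ _
  rcases Nat.even_or_odd' n with ⟨m, hm | hm⟩
  · subst hm
    have hm : M ≤ m := by omega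
    have h1 := heven m hm
    have h2 := hpos m
    have h3 : c ≤ (J : ℝ) / 2 := by
      have : max c 0 ≤ max c 0 * (b : ℝ) ^ 2 := le_mul_of_one_le_right hc0 hβ
      linarith
    calc c * A (2 * m) ≤ (J : ℝ) / 2 * A (2 * m) := mul_le_mul_of_nonneg_right h3 h2.le
      _ ≤ h (2 * m) := h1
  · subst hm
    have hm : M ≤ m := by omega
    have h1 := heven m hm
    have h2 := hpos m
    have h3 : A (2 * m + 1) ≤ (b : ℝ) ^ 2 * A (2 * m) := by
      refine (hmonoA (2 * m + 1)).trans ?_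
      exact ratio_le (fun m => A (2 * m)) ((b : ℝ) ^ 2) hβ hpos hlc
        (fun m => by rw [← pow_mul]; exact hup m) m
    have h4 : 0 ≤ A (2 * m + 1) := h2.le.trans (hmonoA (2 * m))
    calc c * A (2 * m + 1) ≤ max c 0 * A (2 * m + 1) := mul_le_mul_of_nonneg_right hcc h4
      _ ≤ max c 0 * ((b : ℝ) ^ 2 * A (2 * m)) := mul_le_mul_of_nonneg_left h3 hc0
      _ = (2 * max c 0 * (b : ℝ) ^ 2) / 2 * A (2 * m) := by ring
      _ ≤ (J : ℝ) / 2 * A (2 * m) := by
        apply mul_le_mul_of_nonneg_right _ h2.le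
        linarith
      _ ≤ h (2 * m) := h1
      _ ≤ h (2 * m + 1) := hmonoh _

end ZO
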