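import Pool.Agent.W_f569db_zo.Chain
import Pool.Agent.W_f569db_zo.Ana

set_option autoImplicit false

/-!
# The zero-one law, abstract form
-/

noncomputable section

namespace ZO

open Matrix Module

variable {α : Type} [Fintype α] [DecidableEq α] [Nonempty α] {K : Type*} [Field K] [CharZero K]

theorem main_finrank_map {V W : Type*} [AddCommGroup V] [Module K V] [AddCommGroup W] [Module K W]
    {φ : V →ₗ[K] W} (h : Function.Injective φ) (F : Submodule K V) :
    finrank K (F.map φ) = finrank K F :=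
  (LinearEquiv.finrank_eq (Submodule.equivMapOfInjective φ h F)).symm

/-- multiplication on the right by a permutation matrix is injective -/
theorem main_mul_pm_inj {S S' S'' : Type} [Fintype S] [DecidableEq S] [Fintype S'] [DecidableEq S']
    [Fintype S''] [DecidableEq S''] (e : S ≃ S') {A : Matrix (S'' → α) (S' → α) K}
    (h : A * pm α K e = 0) : A = 0 := by
  have h1 : pm α K e * pm α K e.symm = (1 : Matrix (S' → α) (S' → α) K) := by
    have := pm_symm_mul (α := α) (K := K) e.symm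
    rwa [Equiv.symm_symm] at this
  calc A = A * (pm α K e * pm α K e.symm) := by rw [h1, Matrix.mul_one]
    _ = (A * pm α K e) * pm α K e.symm := by rw [Matrix.mul_assoc]
    _ = 0 := by rw [h, Matrix.zero_mul]

/-- `x ↦ x ⊗ u` -/
def mainT {S T : Type} [Fintype S] [DecidableEq S] [Fintype T] [DecidableEq T]
    (u : Matrix (T → α) (Empty → α) K) :
    Matrix (S → α) (Empty → α) K →ₗ[K] Matrix (S ⊕ T → α) (Empty → α) K where
  toFun x := kr x u * pm α K (Equiv.emptySum Empty Empty).symm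
  map_add' x y := by
    rw [← Matrix.add_mul]
    congr 1
    ext c d
    change (x + y) _ _ * u _ _ = x _ _ * u _ _ + y _ _ * u _ _
    rw [Matrix.add_apply, add_mul]
  map_smul' c x := by
    rw [RingHom.id_apply, ← Matrix.smul_mul]
    congr 1
    ext a b
    change (c • x) _ _ * u _ _ = c • (x _ _ * u _ _)
    rw [Matrix.smul_apply, smul_mul_assoc]

theorem mainT_apply {S T : Type} [Fintype S] [DecidableEq S] [Fintype T] [DecidableEq T]
    (u : Matrix (T → α) (Empty → α) K) (x : Matrix (S → α) (Empty → α) K) :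
    mainT u x = kr x u * pm α K (Equiv.emptySum Empty Empty).symm := rfl

theorem mainT_ne_zero {S T : Type} [Fintype S] [DecidableEq S] [Fintype T] [DecidableEq T]
    {u : Matrix (T → α) (Empty → α) K} (hu : u ≠ 0) {x : Matrix (S → α) (Empty → α) K}
    (hx : x ≠ 0) : mainT u x ≠ 0 := by
  intro h
  exact kr_ne_zero hx hu (main_mul_pm_inj _ h)

theorem mainT_inj {S T : Type} [Fintype S] [DecidableEq S] [Fintype T] [DecidableEq T]
    {u : Matrix (T → α) (Empty → α) K} (hu : u ≠ 0) :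
    Function.Injective (mainT (S := S) u) := by
  rw [← LinearMap.ker_eq_bot, LinearMap.ker_eq_bot']
  intro x hx
  by_contra h
  exact mainT_ne_zero hu h hx

/-- `x ⊗ 1 = x` -/
theorem main_kr_one {S : Type} [Fintype S] [DecidableEq S] (x : Matrix (S → α) (Empty → α) K) :
    pm α K (Equiv.sumEmpty S Empty) *
      (kr x (1 : Matrix (Empty → α) (Empty → α) K) *
        pm α K (Equiv.emptySum Empty Empty).symm) = x := by
  ext c d
  rw [pm_mul_apply, mul_pm_apply]
  change x ((c ∘ (Equiv.sumEmpty S Empty)) ∘ Sum.inl)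
    ((d ∘ (Equiv.emptySum Empty Empty).symm.symm) ∘ Sum.inl) *
    (1 : Matrix (Empty → α) (Empty → α) K) ((c ∘ (Equiv.sumEmpty S Empty)) ∘ Sum.inr)
      ((d ∘ (Equiv.emptySum Empty Empty).symm.symm) ∘ Sum.inr) = x c d
  have h1 : (c ∘ (Equiv.sumEmpty S Empty)) ∘ Sum.inl = c := by
    funext a
    rfl
  have h2 : (d ∘ (Equiv.emptySum Empty Empty).symm.symm) ∘ Sum.inl = d := Subsingleton.elim _ _
  have h3 : (c ∘ (Equiv.sumEmpty S Empty)) ∘ Sum.inr =
      (d ∘ (Equiv.emptySum Empty Empty).symm.symm) ∘ Sum.inr := Subsingleton.elim _ _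
  rw [h1, h2, h3, Matrix.one_apply_eq, mul_one]

/-- the left inverse of `x ↦ x ⊗ u` -/
theorem main_left_inv {S T : Type} [Fintype S] [DecidableEq S] [Fintype T] [DecidableEq T]
    {u : Matrix (T → α) (Empty → α) K} {v : Matrix (Empty → α) (T → α) K} (hvu : v * u = 1)
    (x : Matrix (S → α) (Empty → α) K) :
    (pm α K (Equiv.sumEmpty S Empty) * kr (1 : Matrix (S → α) (S → α) K) v) * mainT u x = x := by
  rw [mainT_apply, Matrix.mul_assoc, ← Matrix.mul_assoc (kr 1 v), kr_mul, hvu, Matrix.one_mul]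
  exact main_kr_one x

namespace Sys

variable (Q : Sys α K)

/-- A nonzero `u ∈ P ∅ {*}` gives injections `P ∅ S → P ∅ (S ⊕ {*})`, `x ↦ x ⊗ u` -/
theorem h_mono {u : Matrix (Unit → α) (Empty → α) K} (hu : u ∈ Q.P Empty Unit) (hu0 : u ≠ 0)
    (n : ℕ) : Q.h n ≤ Q.h (n + 1) := by
  have h1 : (Q.P Empty (Fin n)).map (mainT u) ≤ Q.P Empty (Fin n ⊕ Unit) := by
    rintro _ ⟨x, hx, rfl⟩
    exact Q.mul_mem (Q.kr_mem hx hu) (Q.pm_mem _)
  have h2 := Submodule.finrank_mono h1
  rw [main_finrank_map (mainT_inj hu0)] at h2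
  have h3 := Q.finrank_P_empty (Fin n ⊕ Unit)
  rw [Fintype.card_sum, Fintype.card_fin, Fintype.card_unit] at h3
  rw [← h3]
  unfold h
  exact_mod_cast h2

/-- If moreover `v * u = 1` for some `v ∈ P {*} ∅`, then `x ↦ x ⊗ u` has the left inverse
`1 ⊗ v`, so it induces an injection modulo `N`: `x ⊗ u ∈ N ↔ x ∈ N`. -/
theorem A_mono {u : Matrix (Unit → α) (Empty → α) K} {v : Matrix (Empty → α) (Unit → α) K}
    (hu : u ∈ Q.P Empty Unit) (hv : v ∈ Q.P Unit Empty) (hvu : v * u = 1)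
    (n : ℕ) : Q.A n ≤ Q.A (n + 1) := by
  have hu0 : u ≠ 0 := by
    rintro rfl
    rw [Matrix.mul_zero] at hvu
    have h1 := congrFun (congrFun hvu (fun e => e.elim)) (fun e => e.elim)
    rw [Matrix.one_apply_eq] at h1
    exact zero_ne_one h1
  have h0 : Q.A (n + 1) = Q.a Empty (Fin n ⊕ Unit) := by
    rw [Q.a_eq_A Empty (Fin n ⊕ Unit), Fintype.card_sum, Fintype.card_fin, Fintype.card_unit,
      Fintype.card_empty, zero_add]
  rw [h0]
  set P1 := (Q.P Empty (Fin n)).map (mainT u) with hP1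
  set N1 := (Q.N Empty (Fin n)).map (mainT u) with hN1
  have h1 : P1 ≤ Q.P Empty (Fin n ⊕ Unit) := by
    rintro _ ⟨x, hx, rfl⟩
    exact Q.mul_mem (Q.kr_mem hx hu) (Q.pm_mem _)
  have h2 : P1 ⊓ Q.N Empty (Fin n ⊕ Unit) ≤ N1 := by
    rintro _ ⟨⟨x, hx, rfl⟩, hx'⟩
    refine ⟨x, ?_, rfl⟩
    have h3 := Q.N_mul_left (Q.mul_mem (Q.pm_mem (Equiv.sumEmpty (Fin n) Empty))
      (Q.kr_mem (Q.one_mem (Fin n)) hv)) hx'
    rwa [main_left_inv hvu x] at h3
  have h3 := Submodule.finrank_sup_add_finrank_inf_eq P1 (Q.N Empty (Fin n ⊕ Unit))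
  have h4 : P1 ⊔ Q.N Empty (Fin n ⊕ Unit) ≤ Q.P Empty (Fin n ⊕ Unit) :=
    sup_le h1 (Q.N_le _ _)
  have h5 := Submodule.finrank_mono h4
  have h6 := Submodule.finrank_mono h2
  have h7 : finrank K P1 = finrank K (Q.P Empty (Fin n)) :=
    main_finrank_map (mainT_inj hu0) _
  have h8 : finrank K N1 = finrank K (Q.N Empty (Fin n)) :=
    main_finrank_map (mainT_inj hu0) _
  rw [h7] at h3
  rw [h8] at h6
  unfold A a
  have h9 : finrank K (Q.P Empty (Fin n)) + finrank K (Q.N Empty (Fin n ⊕ Unit)) ≤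
      finrank K (Q.P Empty (Fin n ⊕ Unit)) + finrank K (Q.N Empty (Fin n)) := by
    omega
  have h10 : (finrank K (Q.P Empty (Fin n)) : ℝ) + finrank K (Q.N Empty (Fin n ⊕ Unit)) ≤
      finrank K (Q.P Empty (Fin n ⊕ Unit)) + finrank K (Q.N Empty (Fin n)) := by
    exact_mod_cast h9
  linarith

theorem A_le (n : ℕ) : Q.A n ≤ (Fintype.card α : ℝ) ^ n := by
  have h1 : finrank K (Q.P Empty (Fin n)) ≤
      finrank K (Matrix (Fin n → α) (Empty → α) K) := Submodule.finrank_le _
  rw [Module.finrank_matrix, Module.finrank_self, Fintype.card_fun, Fintype.card_fun,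
    Fintype.card_fin, Fintype.card_empty, pow_zero, mul_one, mul_one] at h1
  have h2 : (finrank K (Q.P Empty (Fin n)) : ℝ) ≤ (Fintype.card α : ℝ) ^ n := by
    exact_mod_cast h1
  unfold A a
  have h3 : (0 : ℝ) ≤ finrank K (Q.N Empty (Fin n)) := Nat.cast_nonneg _
  linarith

/-- The zero-one law: from `final`, with `low`, `A_le`, `cs_a` and `a_eq_A` (log-convexity),
`A_mono`, `h_mono`, `chain_h` applied to `z ⊗ z` (the type `D ⊕ D` has even cardinality;
`z ⊗ z ∈ N`, since `z ⊗ z = (z ⊗ 1) (1 ⊗ z)` and `N` is an ideal). -/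
theorem zero_one {u : Matrix (Unit → α) (Empty → α) K} {v : Matrix (Empty → α) (Unit → α) K}
    (hu : u ∈ Q.P Empty Unit) (hv : v ∈ Q.P Unit Empty) (hvu : v * u = 1)
    {D : Type} [Fintype D] [DecidableEq D] {z : Matrix (D → α) (Empty → α) K}
    (hz : z ∈ Q.N Empty D) (hz0 : z ≠ 0) (c : ℝ) : ∃ M : ℕ, ∀ n ≥ M, c * Q.A n ≤ Q.h n := by
  have hu0 : u ≠ 0 := by
    rintro rfl
    rw [Matrix.mul_zero] at hvu
    have h1 := congrFun (congrFun hvu (fun e => e.elim)) (fun e => e.elim)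
    rw [Matrix.one_apply_eq] at h1
    exact zero_ne_one h1
  refine final Q.A Q.h (Fintype.card α) (Fintype.card D) (Fintype.card α ^ 2)
    Fintype.card_pos ?_ ?_ ?_ (Q.A_mono hu hv hvu) (Q.h_mono hu hu0) ?_ c
  · intro m
    have h1 := low Q (Fin m)
    rw [Q.a_eq_A (Fin m) (Fin m), Fintype.card_fin, ← two_mul] at h1
    exact h1
  · intro m
    exact Q.A_le (2 * m)
  · intro m
    have h1 := Q.cs_a (Fin m) (Fin (m + 2))
    rw [Q.a_eq_A, Q.a_eq_A, Q.a_eq_A, Fintype.card_fin, Fintype.card_fin] at h1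
    have e1 : m + (m + 2) = 2 * (m + 1) := by ring
    have e2 : m + m = 2 * m := by ring
    have e3 : m + 2 + (m + 2) = 2 * (m + 2) := by ring
    rw [e1, e2, e3] at h1
    exact h1
  · intro m J
    have hzz : mainT (S := D) z z ∈ Q.N Empty (D ⊕ D) := by
      have h1 : kr z (1 : Matrix (D → α) (D → α) K) *
          kr (1 : Matrix (Empty → α) (Empty → α) K) z = kr z z := by
        rw [kr_mul, Matrix.mul_one, Matrix.one_mul]
      rw [mainT_apply, ← h1]
      refine Q.N_mul_right (Q.N_mul_left (Q.kr_mem hz.1 (Q.one_mem D)) ?_) (Q.pm_mem _)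
      exact Q.one_kr_mem_N hz
    have h2 := Q.chain_h hzz (mainT_ne_zero hz0 hz0) m J
    rw [Fintype.card_sum, ← two_mul] at h2
    exact h2

theorem A_pos {u : Matrix (Unit → α) (Empty → α) K} {v : Matrix (Empty → α) (Unit → α) K}
    (hu : u ∈ Q.P Empty Unit) (hv : v ∈ Q.P Unit Empty) (hvu : v * u = 1) (n : ℕ) :
    1 ≤ Q.A n := by
  induction n with
  | zero =>
    have h1 := Q.a_pos Empty
    have h2 : Q.a Empty Empty = Q.A 0 := by
      rw [Q.a_eq_A Empty Empty, Fintype.card_empty, add_zero]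
    rw [h2] at h1
    unfold A a at h1 ⊢
    have h3 : (finrank K (Q.N Empty (Fin 0)) : ℝ) < finrank K (Q.P Empty (Fin 0)) := by linarith
    have h4 : finrank K (Q.N Empty (Fin 0)) < finrank K (Q.P Empty (Fin 0)) := by
      exact_mod_cast h3
    have h5 : ((finrank K (Q.N Empty (Fin 0)) + 1 : ℕ) : ℝ) ≤ finrank K (Q.P Empty (Fin 0)) := by
      exact_mod_cast h4
    push_cast at h5
    linarith
  | succ n ih => exact ih.trans (Q.A_mono hu hv hvu n)

end Sys

end ZO
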