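import Pool.Agent.W_f569db_zo.Ann

set_option autoImplicit false

/-!
# The chain of layers
-/

noncomputable section

namespace ZO

open Matrix Module

variable {α : Type} [Fintype α] [DecidableEq α] [Nonempty α] {K : Type*} [Field K] [CharZero K]

namespace Sys

variable (Q : Sys α K)

omit [Nonempty α] [CharZero K] in
theorem Chain_pm {S : Type} [Fintype S] [DecidableEq S] (y : Matrix (S → α) (Empty → α) K) :
    kr y (1 : Matrix (Empty → α) (Empty → α) K) * pm α K (Equiv.emptySum Empty Empty).symm =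
      pm α K (Equiv.sumEmpty S Empty).symm * y := by
  ext c d
  rw [mul_pm_apply, pm_mul_apply]
  have h1 : (d ∘ (Equiv.emptySum Empty Empty).symm.symm) ∘ Sum.inl = d := Subsingleton.elim _ _
  have h2 : c ∘ (Equiv.sumEmpty S Empty).symm = c ∘ Sum.inl := rfl
  have h3 : c ∘ Sum.inr = (d ∘ (Equiv.emptySum Empty Empty).symm.symm) ∘ Sum.inr :=
    Subsingleton.elim _ _
  rw [h2]
  unfold kr
  rw [Matrix.of_apply, h1, h3, Matrix.one_apply_eq, mul_one]

omit [Nonempty α] [CharZero K] in
theorem Chain_le {S D : Type} [Fintype S] [DecidableEq S] [Fintype D] [DecidableEq D]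
    {z : Matrix (D → α) (Empty → α) K} (hz : z ∈ Q.N Empty D) (Y : Type) [Fintype Y]
    [DecidableEq Y] (y : Matrix (S → α) (Empty → α) K) :
    (Q.P (S ⊕ D) Y).map (sand (1 : Matrix (Y → α) (Y → α) K)
        (kr y z * pm α K (Equiv.emptySum Empty Empty).symm)) ≤
      (Q.N S Y).map (sand (1 : Matrix (Y → α) (Y → α) K) y) := by
  rintro _ ⟨f, hf, rfl⟩
  refine ⟨f * kr (1 : Matrix (S → α) (S → α) K) z * pm α K (Equiv.sumEmpty S Empty).symm, ?_, ?_⟩
  · exact Q.N_mul_right (Q.N_mul_left hf (Q.one_kr_mem_N hz)) (Q.pm_mem _)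
  · rw [sand_apply, sand_apply, Matrix.one_mul, Matrix.one_mul]
    have h1 : kr y z = kr (1 : Matrix (S → α) (S → α) K) z *
        kr y (1 : Matrix (Empty → α) (Empty → α) K) := by
      rw [kr_mul, Matrix.one_mul, Matrix.mul_one]
    rw [h1, Matrix.mul_assoc (kr 1 z), Chain_pm]
    simp only [Matrix.mul_assoc]

omit [Nonempty α] [CharZero K] in
theorem Chain_ne {S D : Type} [Fintype S] [DecidableEq S] [Fintype D] [DecidableEq D]
    {z : Matrix (D → α) (Empty → α) K} (hz0 : z ≠ 0) {y : Matrix (S → α) (Empty → α) K}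
    (hy0 : y ≠ 0) : kr y z * pm α K (Equiv.emptySum Empty Empty).symm ≠ 0 := by
  intro h
  refine kr_ne_zero hy0 hz0 ?_
  ext c d
  have h1 := congrFun (congrFun h c) (d ∘ (Equiv.emptySum Empty Empty).symm)
  rw [mul_pm_apply] at h1
  have h2 : (d ∘ (Equiv.emptySum Empty Empty).symm) ∘ (Equiv.emptySum Empty Empty).symm.symm = d := by
    funext x
    simp
  rw [h2] at h1
  exact h1

/-- Let `0 ≠ z ∈ N ∅ D`.  By induction on `J`, for all `S` and `0 ≠ y ∈ P ∅ S`:
`(P S Y) y ⊇ (N S Y) y ⊇ (P (S ⊕ D) Y) (y ⊗ z)` because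
`f * kr y z = (f * kr 1 z) * (..) y` with `kr 1 z ∈ N` (`one_kr_mem_N`, `N_mul_left`; mind the
identifications `Empty ⊕ Empty ≃ Empty`, `S ⊕ Empty ≃ S` by `pm`), so
`dim (P S Y) y ≥ layer + dim (P (S ⊕ D) Y) (y ⊗ z)`; apply the induction hypothesis to
`kr y z * pm` on `S ⊕ D`, which is not zero by `kr_ne_zero`. -/
theorem chain {D : Type} [Fintype D] [DecidableEq D] {z : Matrix (D → α) (Empty → α) K}
    (hz : z ∈ Q.N Empty D) (hz0 : z ≠ 0) (T : Type) [Fintype T] [DecidableEq T] (J : ℕ) :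
    ∀ (S : Type) [Fintype S] [DecidableEq S] (y : Matrix (S → α) (Empty → α) K),
      y ∈ Q.P Empty S → y ≠ 0 →
      ∑ j ∈ Finset.range J,
        (Q.A (Fintype.card S + j * Fintype.card D + 2 * Fintype.card T) -
          ((Fintype.card α : ℝ) ^ (Fintype.card S + j * Fintype.card D) - 1) *
            Q.A (2 * Fintype.card T)) ≤
      finrank K ((Q.P S (T ⊕ T)).map (sand (1 : Matrix (T ⊕ T → α) (T ⊕ T → α) K) y)) := by
  induction J with
  | zero =>
    intro S _ _ y _ _
    rw [Finset.range_zero, Finset.sum_empty]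
    positivity
  | succ J ih =>
    intro S _ _ y hy hy0
    have hlayer := Q.layer T hy hy0
    have hy' : kr y z * pm α K (Equiv.emptySum Empty Empty).symm ∈ Q.P Empty (S ⊕ D) :=
      Q.mul_mem (Q.kr_mem hy (Q.N_le _ _ hz)) (Q.pm_mem _)
    have hih := ih (S ⊕ D) _ hy' (Chain_ne hz0 hy0)
    have hle : finrank K ((Q.P (S ⊕ D) (T ⊕ T)).map
        (sand (1 : Matrix (T ⊕ T → α) (T ⊕ T → α) K)
          (kr y z * pm α K (Equiv.emptySum Empty Empty).symm))) ≤
        finrank K ((Q.N S (T ⊕ T)).map (sand (1 : Matrix (T ⊕ T → α) (T ⊕ T → α) K) y)) :=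
      Submodule.finrank_mono (Q.Chain_le hz (T ⊕ T) y)
    have hle' : (finrank K ((Q.P (S ⊕ D) (T ⊕ T)).map
        (sand (1 : Matrix (T ⊕ T → α) (T ⊕ T → α) K)
          (kr y z * pm α K (Equiv.emptySum Empty Empty).symm))) : ℝ) ≤
        finrank K ((Q.N S (T ⊕ T)).map (sand (1 : Matrix (T ⊕ T → α) (T ⊕ T → α) K) y)) := by
      exact_mod_cast hle
    rw [Finset.sum_range_succ']
    have hsum : ∑ j ∈ Finset.range J,
        (Q.A (Fintype.card S + (j + 1) * Fintype.card D + 2 * Fintype.card T) -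
          ((Fintype.card α : ℝ) ^ (Fintype.card S + (j + 1) * Fintype.card D) - 1) *
            Q.A (2 * Fintype.card T)) =
        ∑ j ∈ Finset.range J,
        (Q.A (Fintype.card (S ⊕ D) + j * Fintype.card D + 2 * Fintype.card T) -
          ((Fintype.card α : ℝ) ^ (Fintype.card (S ⊕ D) + j * Fintype.card D) - 1) *
            Q.A (2 * Fintype.card T)) := by
      refine Finset.sum_congr rfl fun j _ => ?_
      have h1 : Fintype.card S + (j + 1) * Fintype.card D =
          Fintype.card (S ⊕ D) + j * Fintype.card D := by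
        rw [Fintype.card_sum]
        ring
      rw [h1]
    rw [hsum]
    simp only [zero_mul, add_zero]
    unfold cod at hlayer
    linarith

/-- `S = Empty`, `y = 1`, `T = Fin m` -/
theorem chain_h {D : Type} [Fintype D] [DecidableEq D] {z : Matrix (D → α) (Empty → α) K}
    (hz : z ∈ Q.N Empty D) (hz0 : z ≠ 0) (m J : ℕ) :
    ∑ j ∈ Finset.range J,
        (Q.A (j * Fintype.card D + 2 * m) -
          ((Fintype.card α : ℝ) ^ (j * Fintype.card D) - 1) * Q.A (2 * m)) ≤ Q.h (2 * m) := by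
  have h1 : (1 : Matrix (Empty → α) (Empty → α) K) ≠ 0 := by
    intro h
    have h2 := congrFun (congrFun h Empty.elim) Empty.elim
    rw [Matrix.one_apply_eq] at h2
    exact one_ne_zero h2
  have h2 := Q.chain hz hz0 (Fin m) J Empty 1 (Q.one_mem Empty) h1
  simp only [Fintype.card_fin, Fintype.card_empty, zero_add] at h2
  refine h2.trans ?_
  have h3 := Q.finrank_P_empty (Fin m ⊕ Fin m)
  rw [Fintype.card_sum, Fintype.card_fin, ← two_mul] at h3
  rw [← h3]
  exact_mod_cast Submodule.finrank_map_le _ _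

end Sys

end ZO
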