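import Pool.Agent.W_f569db_zo.Pm

set_option autoImplicit false

/-!
# Bending

`bnd g : Matrix (S ⊕ T' → α) (T → α) K → Matrix (T' → α) (S ⊕ T → α) K` moves the tensor factors in
`S` from the target to the source with the help of the form `g`.
-/

noncomputable section

namespace ZO

open Matrix Module

set_option linter.unusedSectionVars false

variable {α : Type} [Fintype α] [DecidableEq α] {K : Type*} [Field K]
  {S T T' T₁ : Type} [Fintype S] [DecidableEq S] [Fintype T] [DecidableEq T]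
  [Fintype T'] [DecidableEq T'] [Fintype T₁] [DecidableEq T₁]

/-- the tensor power of a matrix -/
def tp (g : Matrix α α K) (S : Type) [Fintype S] : Matrix (S → α) (S → α) K :=
  Matrix.of fun c d => ∏ s, g (c s) (d s)

/-- `tp` is multiplicative (`Finset.prod_univ_sum`) -/
theorem tp_mul (g h : Matrix α α K) : tp (g * h) S = tp g S * tp h S := by
  ext c d
  simp only [tp, Matrix.of_apply, Matrix.mul_apply, ← Finset.prod_mul_distrib]
  rw [Finset.prod_univ_sum, Fintype.piFinset_univ]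

theorem tp_one : tp (1 : Matrix α α K) S = 1 := by
  ext c d
  simp only [tp, Matrix.of_apply]
  by_cases h : c = d
  · subst h
    simp
  · rw [Matrix.one_apply_ne h]
    obtain ⟨s, hs⟩ := Function.ne_iff.1 h
    exact Finset.prod_eq_zero (Finset.mem_univ s) (Matrix.one_apply_ne hs)

theorem BendA_tp_inv {g g' : Matrix α α K} (h : g * g' = 1) : tp g S * tp g' S = 1 := by
  rw [← tp_mul, h, tp_one]

/-- sums over words of a sum type -/
theorem BendA_sum (f : (S ⊕ T → α) → K) :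
    ∑ w, f w = ∑ s : S → α, ∑ t : T → α, f (Sum.elim s t) := by
  rw [← (Equiv.sumArrowEquivProdArrow S T α).symm.sum_comp f, Fintype.sum_prod_type]
  rfl

theorem BendA_kr_l {S' : Type} (A : Matrix (S' → α) (S → α) K) (B : Matrix (T' → α) (T → α) K)
    (a : S' → α) (b : T' → α) (d : S ⊕ T → α) :
    kr A B (Sum.elim a b) d = A a (d ∘ Sum.inl) * B b (d ∘ Sum.inr) := rfl

theorem BendA_kr_r {S' : Type} (A : Matrix (S' → α) (S → α) K) (B : Matrix (T' → α) (T → α) K)
    (a : S → α) (b : T → α) (c : S' ⊕ T' → α) :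
    kr A B c (Sum.elim a b) = A (c ∘ Sum.inl) a * B (c ∘ Sum.inr) b := rfl

theorem BendA_mul_kr_one (M : Matrix (T' → α) (S ⊕ T → α) K) (h : Matrix (T → α) (T₁ → α) K)
    (r : T' → α) (u : S ⊕ T₁ → α) :
    (M * kr (1 : Matrix (S → α) (S → α) K) h) r u =
      ∑ t, M r (Sum.elim (u ∘ Sum.inl) t) * h t (u ∘ Sum.inr) := by
  rw [Matrix.mul_apply, BendA_sum, Finset.sum_comm]
  refine Finset.sum_congr rfl fun t _ => ?_
  rw [Finset.sum_eq_single (u ∘ Sum.inl)]
  · rw [BendA_kr_l, Matrix.one_apply_eq, one_mul]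
  · intro s _ hs
    rw [BendA_kr_l, Matrix.one_apply_ne hs, zero_mul, mul_zero]
  · intro h
    exact absurd (Finset.mem_univ _) h

theorem BendA_mul_one_kr (M : Matrix (T' → α) (S ⊕ T → α) K) (f : Matrix (S → α) (S → α) K)
    (r : T' → α) (u : S ⊕ T → α) :
    (M * kr f (1 : Matrix (T → α) (T → α) K)) r u =
      ∑ s, M r (Sum.elim s (u ∘ Sum.inr)) * f s (u ∘ Sum.inl) := by
  rw [Matrix.mul_apply, BendA_sum]
  refine Finset.sum_congr rfl fun s _ => ?_
  rw [Finset.sum_eq_single (u ∘ Sum.inr)]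
  · rw [BendA_kr_l, Matrix.one_apply_eq, mul_one]
  · intro t _ ht
    rw [BendA_kr_l, Matrix.one_apply_ne ht, mul_zero, mul_zero]
  · intro h
    exact absurd (Finset.mem_univ _) h

theorem BendA_kr_one_mul (k : Matrix (T₁ → α) (T' → α) K) (F : Matrix (S ⊕ T' → α) (T → α) K)
    (v : S ⊕ T₁ → α) (t : T → α) :
    (kr (1 : Matrix (S → α) (S → α) K) k * F) v t =
      ∑ t', k (v ∘ Sum.inr) t' * F (Sum.elim (v ∘ Sum.inl) t') t := by
  rw [Matrix.mul_apply, BendA_sum, Finset.sum_comm]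
  refine Finset.sum_congr rfl fun t' _ => ?_
  rw [Finset.sum_eq_single (v ∘ Sum.inl)]
  · rw [BendA_kr_r, Matrix.one_apply_eq, one_mul]
  · intro s _ hs
    rw [BendA_kr_r, Matrix.one_apply_ne (Ne.symm hs), zero_mul, zero_mul]
  · intro h
    exact absurd (Finset.mem_univ _) h

theorem BendA_one_kr_mul {S' : Type} [Fintype S'] [DecidableEq S'] (f : Matrix (S' → α) (S → α) K)
    (F : Matrix (S ⊕ T' → α) (T → α) K) (v : S' ⊕ T' → α) (t : T → α) :
    (kr f (1 : Matrix (T' → α) (T' → α) K) * F) v t =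
      ∑ s, f (v ∘ Sum.inl) s * F (Sum.elim s (v ∘ Sum.inr)) t := by
  rw [Matrix.mul_apply, BendA_sum]
  refine Finset.sum_congr rfl fun s _ => ?_
  rw [Finset.sum_eq_single (v ∘ Sum.inr)]
  · rw [BendA_kr_r, Matrix.one_apply_eq, mul_one]
  · intro t' _ ht
    rw [BendA_kr_r, Matrix.one_apply_ne (Ne.symm ht), mul_zero, zero_mul]
  · intro h
    exact absurd (Finset.mem_univ _) h

theorem BendA_elim {β : Type} (u : S ⊕ T → β) : Sum.elim (u ∘ Sum.inl) (u ∘ Sum.inr) = u := by
  funext x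
  cases x <;> rfl

theorem BendA_cancel {ι : Type*} [Fintype ι] [DecidableEq ι] {A B : Matrix ι ι K} (h : A * B = 1)
    (X : ι → K) (c : ι) : ∑ s', A c s' * ∑ s'', B s' s'' * X s'' = X c := by
  have h1 : (A *ᵥ (B *ᵥ X)) c = X c := by
    rw [Matrix.mulVec_mulVec, h, Matrix.one_mulVec]
  exact h1

/-- Bending. -/
def bnd (g : Matrix α α K) : Matrix (S ⊕ T' → α) (T → α) K →ₗ[K] Matrix (T' → α) (S ⊕ T → α) K where
  toFun F := Matrix.of fun t' u =>
    ∑ s' : S → α, tp g S (u ∘ Sum.inl) s' * F (Sum.elim s' t') (u ∘ Sum.inr)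
  map_add' F F' := by
    ext t' u
    simp [mul_add, Finset.sum_add_distrib]
  map_smul' c F := by
    ext t' u
    simp only [Matrix.of_apply, Matrix.smul_apply, smul_eq_mul, RingHom.id_apply, Finset.mul_sum]
    exact Finset.sum_congr rfl fun _ _ => by ring

/-- The inverse of bending. -/
def bndI (g' : Matrix α α K) : Matrix (T' → α) (S ⊕ T → α) K →ₗ[K] Matrix (S ⊕ T' → α) (T → α) K where
  toFun H := Matrix.of fun v t =>
    ∑ s' : S → α, tp g' S (v ∘ Sum.inl) s' * H (v ∘ Sum.inr) (Sum.elim s' t)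
  map_add' F F' := by
    ext t' u
    simp [mul_add, Finset.sum_add_distrib]
  map_smul' c F := by
    ext t' u
    simp only [Matrix.of_apply, Matrix.smul_apply, smul_eq_mul, RingHom.id_apply, Finset.mul_sum]
    exact Finset.sum_congr rfl fun _ _ => by ring

theorem BendA_bnd (g : Matrix α α K) (F : Matrix (S ⊕ T' → α) (T → α) K) (t' : T' → α)
    (u : S ⊕ T → α) : bnd g F t' u =
      ∑ s' : S → α, tp g S (u ∘ Sum.inl) s' * F (Sum.elim s' t') (u ∘ Sum.inr) := rfl

/-- `∑_{s'} G(s,s') ∑_{s''} G'(s',s'') H(t',(s'',t)) = H(t',(s,t))` because `G * G' = 1` -/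
theorem bnd_bndI {g g' : Matrix α α K} (h : g * g' = 1) (H : Matrix (T' → α) (S ⊕ T → α) K) :
    bnd g (bndI g' H) = H := by
  ext t' u
  have h1 := BendA_cancel (BendA_tp_inv (S := S) h)
    (fun s => H t' (Sum.elim s (u ∘ Sum.inr))) (u ∘ Sum.inl)
  rw [BendA_elim] at h1
  exact h1

theorem bndI_bnd {g g' : Matrix α α K} (h : g' * g = 1) (F : Matrix (S ⊕ T' → α) (T → α) K) :
    bndI g' (bnd g F) = F := by
  ext v t
  have h1 := BendA_cancel (BendA_tp_inv (S := S) h)
    (fun s => F (Sum.elim s (v ∘ Sum.inr)) t) (v ∘ Sum.inl)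
  rw [BendA_elim] at h1
  exact h1

theorem bnd_mul (g : Matrix α α K) (F : Matrix (S ⊕ T' → α) (T → α) K)
    (h : Matrix (T → α) (T₁ → α) K) :
    bnd g (F * h) = bnd g F * kr (1 : Matrix (S → α) (S → α) K) h := by
  ext t' u
  rw [BendA_mul_kr_one, BendA_bnd]
  simp only [BendA_bnd, Matrix.mul_apply, Finset.mul_sum, Finset.sum_mul]
  rw [Finset.sum_comm]
  refine Finset.sum_congr rfl fun t _ => Finset.sum_congr rfl fun s _ => ?_
  simp only [Sum.elim_comp_inl, Sum.elim_comp_inr]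
  ring

theorem bnd_one_kr (g : Matrix α α K) (k : Matrix (T₁ → α) (T' → α) K)
    (F : Matrix (S ⊕ T' → α) (T → α) K) :
    bnd g (kr (1 : Matrix (S → α) (S → α) K) k * F) = k * bnd g F := by
  ext t' u
  rw [Matrix.mul_apply, BendA_bnd]
  simp only [BendA_bnd, BendA_kr_one_mul, Finset.mul_sum]
  rw [Finset.sum_comm]
  refine Finset.sum_congr rfl fun t _ => Finset.sum_congr rfl fun s _ => ?_
  simp only [Sum.elim_comp_inl, Sum.elim_comp_inr]
  ring

/-- the adjoint of a matrix for the form `G = tp g S` -/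
def adj (g g' : Matrix α α K) (f : Matrix (S → α) (S → α) K) : Matrix (S → α) (S → α) K :=
  (tp g S * f * tp g' S)ᵀ

/-- `bnd ((f ⊗ 1) F) (t',(s,t)) = ∑ G(s,s') f(s',s'') F((s'',t'),t)` and `G f = (G f G') G` -/
theorem bnd_kr_one {g g' : Matrix α α K} (h : g' * g = 1) (f : Matrix (S → α) (S → α) K)
    (F : Matrix (S ⊕ T' → α) (T → α) K) :
    bnd g (kr f (1 : Matrix (T' → α) (T' → α) K) * F) =
      bnd g F * kr (adj g g' f) (1 : Matrix (T → α) (T → α) K) := by
  ext t' u
  rw [BendA_mul_one_kr, BendA_bnd]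
  simp only [BendA_one_kr_mul, Sum.elim_comp_inl, Sum.elim_comp_inr]
  have h1 : (tp g S *ᵥ (f *ᵥ fun s => F (Sum.elim s t') (u ∘ Sum.inr))) (u ∘ Sum.inl) =
      ((tp g S * f * tp g' S) *ᵥ (tp g S *ᵥ fun s => F (Sum.elim s t') (u ∘ Sum.inr)))
        (u ∘ Sum.inl) := by
    rw [Matrix.mulVec_mulVec, Matrix.mulVec_mulVec, Matrix.mul_assoc (tp g S * f),
      BendA_tp_inv h, Matrix.mul_one]
  refine Eq.trans h1 ?_
  refine Finset.sum_congr rfl fun s _ => ?_
  rw [mul_comm]
  rfl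

theorem adj_mul {g g' : Matrix α α K} (h : g' * g = 1) (f f' : Matrix (S → α) (S → α) K) :
    adj g g' (f * f') = adj g g' f' * adj g g' f := by
  unfold adj
  rw [← Matrix.transpose_mul]
  congr 1
  have h1 : tp g' S * tp g S = (1 : Matrix (S → α) (S → α) K) := BendA_tp_inv h
  calc tp g S * (f * f') * tp g' S = tp g S * f * 1 * (f' * tp g' S) := by
        simp only [Matrix.mul_assoc, Matrix.mul_one]
    _ = tp g S * f * (tp g' S * tp g S) * (f' * tp g' S) := by rw [h1]
    _ = tp g S * f * tp g' S * (tp g S * f' * tp g' S) := by simp only [Matrix.mul_assoc]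

theorem trace_adj {g g' : Matrix α α K} (h : g' * g = 1) (f : Matrix (S → α) (S → α) K) :
    Matrix.trace (adj g g' f) = Matrix.trace f := by
  unfold adj
  rw [Matrix.trace_transpose, Matrix.mul_assoc, Matrix.trace_mul_comm, Matrix.mul_assoc,
    BendA_tp_inv h, Matrix.mul_one]

/-- bending by hand: the trace of `bnd g F * B` in terms of `F` and the bending of `B` the other way,
with the transposed form: both are
`∑ G(s,s') F((s',t'),t) B((s,t),t')` -/
theorem trace_bnd_mul (g : Matrix α α K) (F : Matrix (S ⊕ T' → α) (T → α) K)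
    (B : Matrix (S ⊕ T → α) (T' → α) K) :
    Matrix.trace (bnd g F * B) = Matrix.trace (F * bnd gᵀ B) := by
  have h1 : Matrix.trace (bnd g F * B) = ∑ t' : T' → α, ∑ s : S → α, ∑ t : T → α, ∑ s' : S → α,
      tp g S s s' * F (Sum.elim s' t') t * B (Sum.elim s t) t' := by
    simp only [Matrix.trace, Matrix.diag, Matrix.mul_apply]
    refine Finset.sum_congr rfl fun t' _ => ?_
    rw [BendA_sum]
    refine Finset.sum_congr rfl fun s _ => Finset.sum_congr rfl fun t _ => ?_
    rw [BendA_bnd, Finset.sum_mul]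
    rfl
  have h2 : Matrix.trace (F * bnd gᵀ B) = ∑ s' : S → α, ∑ t' : T' → α, ∑ t : T → α, ∑ s : S → α,
      tp g S s s' * F (Sum.elim s' t') t * B (Sum.elim s t) t' := by
    simp only [Matrix.trace, Matrix.diag, Matrix.mul_apply]
    rw [BendA_sum]
    refine Finset.sum_congr rfl fun s' _ => Finset.sum_congr rfl fun t' _ =>
      Finset.sum_congr rfl fun t _ => ?_
    rw [BendA_bnd, Finset.mul_sum]
    refine Finset.sum_congr rfl fun s _ => ?_
    simp only [Sum.elim_comp_inl, Sum.elim_comp_inr]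
    have h3 : tp gᵀ S s' s = tp g S s s' := rfl
    rw [h3]
    ring
  rw [h1, h2, Finset.sum_comm]
  have h4 : ∀ t' : T' → α, (∑ s : S → α, ∑ t : T → α, ∑ s' : S → α,
      tp g S s s' * F (Sum.elim s' t') t * B (Sum.elim s t) t') =
      ∑ s' : S → α, ∑ t : T → α, ∑ s : S → α,
      tp g S s s' * F (Sum.elim s' t') t * B (Sum.elim s t) t' := by
    intro t'
    rw [Finset.sum_comm]
    rw [Finset.sum_comm (s := (Finset.univ : Finset (S → α)))]
    refine Finset.sum_congr rfl fun t _ => ?_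
    rw [Finset.sum_comm]
  rw [Finset.sum_comm]
  simp only [h4]
  rw [Finset.sum_comm]

/-- `bnd` as a composition: `(cap ⊗ 1) (assoc) (1 ⊗ F)` -/
theorem bnd_eq (g : Matrix α α K) (F : Matrix (S ⊕ T' → α) (T → α) K) :
    bnd g F = pm α K (Equiv.emptySum Empty T') *
      (kr (capM g S) (1 : Matrix (T' → α) (T' → α) K) *
        (pm α K (Equiv.sumAssoc S S T').symm * kr (1 : Matrix (S → α) (S → α) K) F)) := by
  ext t' u
  rw [pm_mul_apply, BendA_one_kr_mul, BendA_sum, BendA_bnd, Finset.sum_comm]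
  refine Finset.sum_congr rfl fun s' _ => ?_
  rw [Finset.sum_eq_single (u ∘ Sum.inl)]
  · rw [pm_mul_apply]
    have h1 : (Sum.elim (Sum.elim (u ∘ Sum.inl) s')
        ((t' ∘ (Equiv.emptySum Empty T')) ∘ Sum.inr)) ∘ (Equiv.sumAssoc S S T').symm =
        Sum.elim (u ∘ Sum.inl) (Sum.elim s' t') := by
      funext x
      rcases x with x | x | x <;> rfl
    rw [h1, BendA_kr_l, Matrix.one_apply_eq, one_mul]
    rfl
  · intro s _ hs
    rw [pm_mul_apply]
    have h1 : (Sum.elim (Sum.elim s s')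
        ((t' ∘ (Equiv.emptySum Empty T')) ∘ Sum.inr)) ∘ (Equiv.sumAssoc S S T').symm =
        Sum.elim s (Sum.elim s' t') := by
      funext x
      rcases x with x | x | x <;> rfl
    rw [h1, BendA_kr_l, Matrix.one_apply_ne hs, zero_mul, mul_zero]
  · intro h
    exact absurd (Finset.mem_univ _) h

/-- `bndI` as a composition: `(1 ⊗ H) (assoc) (cup ⊗ 1)` -/
theorem bndI_eq (g' : Matrix α α K) (H : Matrix (T' → α) (S ⊕ T → α) K) :
    bndI g' H = kr (1 : Matrix (S → α) (S → α) K) H *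
      (pm α K (Equiv.sumAssoc S S T) *
        (kr (cupM g' S) (1 : Matrix (T → α) (T → α) K) *
          pm α K (Equiv.emptySum Empty T).symm)) := by
  ext v t
  rw [BendA_kr_one_mul, BendA_sum]
  have h0 : bndI g' H v t =
      ∑ s' : S → α, tp g' S (v ∘ Sum.inl) s' * H (v ∘ Sum.inr) (Sum.elim s' t) := rfl
  rw [h0]
  refine Finset.sum_congr rfl fun s' _ => ?_
  have h1 : ∀ t₁ : T → α, (Sum.elim (v ∘ Sum.inl) (Sum.elim s' t₁)) ∘ (Equiv.sumAssoc S S T) =
      Sum.elim (Sum.elim (v ∘ Sum.inl) s') t₁ := by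
    intro t₁
    funext x
    rcases x with (x | x) | x <;> rfl
  have h2 : (t ∘ (Equiv.emptySum Empty T).symm.symm) ∘ Sum.inr = t := by
    funext x
    rfl
  rw [Finset.sum_eq_single t]
  · rw [pm_mul_apply, mul_pm_apply, h1, BendA_kr_l, h2, Matrix.one_apply_eq, mul_one, mul_comm]
    rfl
  · intro t₁ _ ht
    rw [pm_mul_apply, mul_pm_apply, h1, BendA_kr_l, h2, Matrix.one_apply_ne ht, mul_zero,
      mul_zero]
  · intro h
    exact absurd (Finset.mem_univ _) h

end ZO
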