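import Mathlib

set_option autoImplicit false

/-!
# Cauchy-Schwarz for the dimensions of the Peirce blocks of a semisimple algebra

`dim (f R e) ^ 2 ≤ dim (e R e) * dim (f R f)` for idempotents `e, f` of a finite-dimensional
semisimple algebra `R`.

PROOF. By `IsSemisimpleRing.exists_algEquiv_pi_matrix_divisionRing_finite` we may assume
`R = ∏ i, Matrix (Fin (d i)) (Fin (d i)) (D i)`.  Then `f R e = ∏ i, f_i M_i e_i` and for an idempotent
`e ∈ M = Matrix (Fin d) (Fin d) D` with rank `ρ e` (dimension over `D` of the range of the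
corresponding endomorphism of `Fin d → D`) one has `dim_K (f M e) = ρ f * ρ e * dim_K D`
(`f M e` is the space of `D`-linear maps from the range of `e` to the range of `f`).
Finally `(∑ i, ρ_i f * ρ_i e * δ_i)^2 ≤ (∑ i, (ρ_i e)^2 δ_i) * (∑ i, (ρ_i f)^2 δ_i)` by Cauchy-Schwarz.
It may be convenient to prove first, for a single matrix algebra `M` over a division ring, that there
are a function `ρ : M → ℕ` and `δ : ℕ` with `finrank (f M e) = ρ f * ρ e * δ` for all idempotents
`e, f`. Any other proof is fine.
-/

noncomputable section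

namespace ZO

open Module

/-- `x ↦ f x e` -/
def sandR (K : Type*) {R : Type*} [Field K] [Ring R] [Algebra K R] (f e : R) : R →ₗ[K] R :=
  (LinearMap.mulLeft K f).comp (LinearMap.mulRight K e)

theorem sandR_apply (K : Type*) {R : Type*} [Field K] [Ring R] [Algebra K R] (f e x : R) :
    sandR K f e x = f * (x * e) := rfl

/-- rank factorisation of an idempotent matrix over a division ring -/
theorem Wed_rank {D : Type*} [DivisionRing D] {n : ℕ} (e : Matrix (Fin n) (Fin n) D)
    (he : IsIdempotentElem e) : ∃ (r : ℕ) (u : Matrix (Fin r) (Fin n) D)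
      (v : Matrix (Fin n) (Fin r) D), u * v = 1 ∧ v * u = e := by
  let W : Submodule D (Fin n → D) := LinearMap.range (Matrix.vecMulLinear e)
  let b := Module.finBasis D W
  have hrow : ∀ j, e j ∈ W := by
    intro j
    refine ⟨Pi.single j 1, ?_⟩
    rw [Matrix.vecMulLinear_apply, Matrix.single_one_vecMul]
    rfl
  have hfix : ∀ w ∈ W, ∑ l, w l • e l = w := by
    rintro _ ⟨w, rfl⟩
    have h1 : ∀ w : Fin n → D, ∑ l, w l • e l = Matrix.vecMul w e := by
      intro w
      funext k
      rw [Finset.sum_apply]
      rfl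
    rw [h1, Matrix.vecMulLinear_apply, Matrix.vecMul_vecMul, he.eq]
  refine ⟨finrank D W, Matrix.of fun i => (b i : Fin n → D),
    Matrix.of fun j k => b.repr ⟨e j, hrow j⟩ k, ?_, ?_⟩
  · ext i k
    rw [Matrix.mul_apply]
    simp only [Matrix.of_apply]
    have h1 : (∑ l, ((b i : Fin n → D) l) • (⟨e l, hrow l⟩ : W)) = b i := by
      apply Subtype.ext
      rw [Submodule.coe_sum]
      simp only [Submodule.coe_smul]
      exact hfix _ (b i).2
    have h2 := congrArg (fun x => b.repr x k) h1
    simp only [map_sum, map_smul, Finsupp.coe_finsetSum, Finset.sum_apply, Finsupp.smul_apply,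
      smul_eq_mul, Module.Basis.repr_self] at h2
    rw [h2, Matrix.one_apply, Finsupp.single_apply]
  · ext j l
    rw [Matrix.mul_apply]
    simp only [Matrix.of_apply]
    have h1 := congrArg (fun x : W => (x : Fin n → D) l) (b.sum_repr ⟨e j, hrow j⟩)
    simp only [Submodule.coe_sum, Submodule.coe_smul, Finset.sum_apply, Pi.smul_apply,
      smul_eq_mul] at h1
    exact h1

theorem Wed_mem {K : Type*} {R : Type*} [Field K] [Ring R] [Algebra K R] {e f : R}
    (he : IsIdempotentElem e) (hf : IsIdempotentElem f) {x : R}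
    (hx : x ∈ LinearMap.range (sandR K f e)) : f * (x * e) = x := by
  obtain ⟨y, rfl⟩ := hx
  rw [sandR_apply]
  calc f * (f * (y * e) * e) = (f * f) * (y * (e * e)) := by noncomm_ring
    _ = f * (y * e) := by rw [he.eq, hf.eq]

theorem Wed_single {K : Type*} [Field K] {D : Type*} [DivisionRing D] [Algebra K D] {n a b : ℕ}
    {e f : Matrix (Fin n) (Fin n) D} (he : IsIdempotentElem e) (hf : IsIdempotentElem f)
    {u : Matrix (Fin a) (Fin n) D} {v : Matrix (Fin n) (Fin a) D} (huv : u * v = 1)
    (hvu : v * u = f) {u' : Matrix (Fin b) (Fin n) D} {v' : Matrix (Fin n) (Fin b) D}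
    (huv' : u' * v' = 1) (hvu' : v' * u' = e) :
    finrank K (LinearMap.range (sandR K f e)) = a * b * finrank K D := by
  let g : LinearMap.range (sandR K f e) ≃ₗ[K] Matrix (Fin a) (Fin b) D :=
    { toFun := fun x => u * x.1 * v'
      map_add' := fun x y => by
        rw [Submodule.coe_add, Matrix.mul_add, Matrix.add_mul]
      map_smul' := fun c x => by
        rw [Submodule.coe_smul, Matrix.mul_smul, Matrix.smul_mul]
        rfl
      invFun := fun y => ⟨v * y * u', v * y * u', by
        rw [sandR_apply, ← hvu, ← hvu']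
        calc v * u * (v * y * u' * (v' * u')) = v * (u * v) * y * (u' * v') * u' := by
              simp only [Matrix.mul_assoc]
          _ = v * y * u' := by rw [huv, huv', Matrix.mul_one, Matrix.mul_one]⟩
      left_inv := fun x => by
        apply Subtype.ext
        change v * (u * x.1 * v') * u' = x.1
        calc v * (u * x.1 * v') * u' = (v * u) * (x.1 * (v' * u')) := by
              simp only [Matrix.mul_assoc]
          _ = x.1 := by
              rw [hvu, hvu']
              exact Wed_mem he hf x.2
      right_inv := fun y => by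
        change u * (v * y * u') * v' = y
        calc u * (v * y * u') * v' = (u * v) * y * (u' * v') := by
              simp only [Matrix.mul_assoc]
          _ = y := by rw [huv, huv', Matrix.one_mul, Matrix.mul_one] }
  rw [g.finrank_eq, Module.finrank_matrix, Fintype.card_fin, Fintype.card_fin]

theorem Wed_pi {K : Type*} [Field K] {n : ℕ} {A : Fin n → Type*} [∀ i, Ring (A i)]
    [∀ i, Algebra K (A i)] [∀ i, Module.Finite K (A i)] (e f : ∀ i, A i) :
    finrank K (LinearMap.range (sandR K f e)) =
      ∑ i, finrank K (LinearMap.range (sandR K (f i) (e i))) := by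
  have h : ∀ i, ∀ x ∈ LinearMap.range (sandR K f e),
      (LinearMap.proj i : (∀ i, A i) →ₗ[K] A i) x ∈ LinearMap.range (sandR K (f i) (e i)) := by
    rintro i _ ⟨y, rfl⟩
    exact ⟨y i, rfl⟩
  let g : LinearMap.range (sandR K f e) →ₗ[K] ∀ i, LinearMap.range (sandR K (f i) (e i)) :=
    LinearMap.pi fun i => (LinearMap.proj i : (∀ i, A i) →ₗ[K] A i).restrict (h i)
  have hg : Function.Bijective g := by
    constructor
    · intro x y hxy
      apply Subtype.ext
      funext i
      exact congrArg Subtype.val (congrFun hxy i)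
    · intro y
      choose z hz using fun i => (y i).2
      refine ⟨⟨sandR K f e z, z, rfl⟩, ?_⟩
      funext i
      apply Subtype.ext
      exact hz i
  rw [(LinearEquiv.ofBijective g hg).finrank_eq, Module.finrank_pi_fintype]

theorem Wed_equiv {K : Type*} [Field K] {R R' : Type*} [Ring R] [Algebra K R] [Ring R']
    [Algebra K R'] (φ : R ≃ₐ[K] R') (e f : R) :
    finrank K (LinearMap.range (sandR K f e)) =
      finrank K (LinearMap.range (sandR K (φ f) (φ e))) := by
  have h : LinearMap.range (sandR K (φ f) (φ e)) =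
      (LinearMap.range (sandR K f e)).map (φ.toLinearEquiv : R →ₗ[K] R') := by
    ext x
    constructor
    · rintro ⟨y, rfl⟩
      refine ⟨f * (φ.symm y * e), ⟨φ.symm y, rfl⟩, ?_⟩
      change φ (f * (φ.symm y * e)) = φ f * (y * φ e)
      rw [map_mul, map_mul, AlgEquiv.apply_symm_apply]
    · rintro ⟨_, ⟨y, rfl⟩, rfl⟩
      refine ⟨φ y, ?_⟩
      change φ f * (φ y * φ e) = φ (f * (y * e))
      rw [map_mul, map_mul]
  rw [h, LinearEquiv.finrank_map_eq]

theorem wed (K : Type*) {R : Type*} [Field K] [Ring R] [Algebra K R] [Module.Finite K R]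
    [IsSemisimpleRing R] {e f : R} (he : IsIdempotentElem e) (hf : IsIdempotentElem f) :
    (finrank K (LinearMap.range (sandR K f e))) ^ 2 ≤
      finrank K (LinearMap.range (sandR K e e)) * finrank K (LinearMap.range (sandR K f f)) := by
  obtain ⟨n, D, d, i1, i2, i3, -, ⟨φ⟩⟩ :=
    IsSemisimpleRing.exists_algEquiv_pi_matrix_divisionRing_finite K R
  have key : ∀ x y : R, IsIdempotentElem x → IsIdempotentElem y →
      finrank K (LinearMap.range (sandR K y x)) =
        ∑ i, finrank K (LinearMap.range (sandR K (φ y i) (φ x i))) := by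
    intro x y _ _
    rw [Wed_equiv φ, Wed_pi]
  have hid : ∀ {x : R}, IsIdempotentElem x → ∀ i, IsIdempotentElem (φ x i) := by
    intro x hx i
    have h1 : φ x * φ x = φ x := by rw [← map_mul, hx.eq]
    exact congrFun h1 i
  choose r u v huv hvu using fun i => Wed_rank (φ e i) (hid he i)
  choose r' u' v' huv' hvu' using fun i => Wed_rank (φ f i) (hid hf i)
  rw [key e f he hf, key e e he he, key f f hf hf]
  refine Finset.sum_sq_le_sum_mul_sum_of_sq_le_mul _ (fun i _ => Nat.zero_le _)
    (fun i _ => Nat.zero_le _) fun i _ => le_of_eq ?_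
  rw [Wed_single (hid he i) (hid hf i) (huv' i) (hvu' i) (huv i) (hvu i),
    Wed_single (hid he i) (hid he i) (huv i) (hvu i) (huv i) (hvu i),
    Wed_single (hid hf i) (hid hf i) (huv' i) (hvu' i) (huv' i) (hvu' i)]
  ring

end ZO
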