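import Pool.Agent.W_f569db_zo.Two

set_option autoImplicit false

/-!
# One layer

For `0 ≠ y ∈ P ∅ S` and `Y = T ⊕ T`:
`dim (P S Y) y - dim (N S Y) y ≥ A (|S| + 2|T|) - (b^|S| - 1) A (2|T|)`.
-/

noncomputable section

namespace ZO

open Matrix Module

/-- rank-nullity for the restriction to a subspace -/
theorem ann_rank {K : Type*} [Field K] {V W : Type*} [AddCommGroup V] [Module K V]
    [FiniteDimensional K V] [AddCommGroup W] [Module K W] (φ : V →ₗ[K] W) (F : Submodule K V) :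
    finrank K (F.map φ) + finrank K (F ⊓ LinearMap.ker φ : Submodule K V) = finrank K F := by
  have h := LinearMap.finrank_range_add_finrank_ker (φ.domRestrict F)
  rw [LinearMap.range_domRestrict] at h
  have h2 : (LinearMap.ker (φ.domRestrict F)).map F.subtype = F ⊓ LinearMap.ker φ := by
    rw [LinearMap.ker_domRestrict, Submodule.map_comap_subtype]
  have h3 : finrank K (LinearMap.ker (φ.domRestrict F)) =
      finrank K (F ⊓ LinearMap.ker φ : Submodule K V) := by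
    rw [← h2]
    exact LinearEquiv.finrank_eq (Submodule.equivMapOfInjective F.subtype
      F.injective_subtype (LinearMap.ker (φ.domRestrict F)))
  rw [← h3]
  exact h

/-- transport of `cod` -/
theorem ann_cod_congr {K : Type*} [Field K] {V W V' W' : Type*} [AddCommGroup V] [Module K V]
    [AddCommGroup W] [Module K W] [AddCommGroup V'] [Module K V'] [AddCommGroup W'] [Module K W']
    (φ : V →ₗ[K] W) (φ' : V' →ₗ[K] W') (Φ : V →ₗ[K] V') (Φ' : W →ₗ[K] W')
    (hΦ : Function.Injective Φ') (h : ∀ x, Φ' (φ x) = φ' (Φ x)) (F G : Submodule K V) :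
    cod φ F G = cod φ' (F.map Φ) (G.map Φ) := by
  have hc : Φ' ∘ₗ φ = φ' ∘ₗ Φ := LinearMap.ext h
  have key : ∀ H : Submodule K V, finrank K (H.map φ) = finrank K ((H.map Φ).map φ') := by
    intro H
    have h1 : (H.map Φ).map φ' = (H.map φ).map Φ' := by
      rw [← Submodule.map_comp, ← Submodule.map_comp, hc]
    rw [h1]
    exact LinearEquiv.finrank_eq (Submodule.equivMapOfInjective Φ' hΦ (H.map φ))
  unfold cod
  rw [key F, key G]

/-- For a linear map `φ` and `G ≤ F` (finite-dimensional): `cod φ F G = (dim F - dim G) -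
(dim (F ⊓ ker φ) - dim (G ⊓ ker φ))`. -/
theorem cod_eq {K : Type*} [Field K] {V W : Type*} [AddCommGroup V] [Module K V]
    [FiniteDimensional K V] [AddCommGroup W] [Module K W] (φ : V →ₗ[K] W) (F G : Submodule K V) :
    cod φ F G = ((finrank K F : ℝ) - finrank K G) -
      ((finrank K (F ⊓ LinearMap.ker φ : Submodule K V) : ℝ) -
        finrank K (G ⊓ LinearMap.ker φ : Submodule K V)) := by
  have h1 := ann_rank φ F
  have h2 := ann_rank φ G
  unfold cod
  rw [← h1, ← h2]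
  push_cast
  ring

/-- Let `G ≤ F`, let `ψ` be an endomorphism of `V` which maps `F` to `F` and `G` to `G`, and let
`L ≤ F` be such that `x - ψ x ∈ G` for all `x ∈ L`.  Then `dim L - dim (G ⊓ L) ≤ dim ψ(F) - dim ψ(G)`,
if moreover `ψ` is idempotent: the left side is the dimension of the image of `L` in `F / G`, contained
in the image of `ψ(F)`, whose dimension is `dim ψ(F) - dim (ψ(F) ⊓ G)` and `ψ(F) ⊓ G = ψ(G)` because
`ψ` is idempotent. -/
theorem dim_image_le {K : Type*} [Field K] {V : Type*} [AddCommGroup V] [Module K V]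
    [FiniteDimensional K V] (ψ : V →ₗ[K] V) (hψ : ∀ x, ψ (ψ x) = ψ x) (F G L : Submodule K V)
    (hGF : G ≤ F) (hF : ∀ x ∈ F, ψ x ∈ F) (hG : ∀ x ∈ G, ψ x ∈ G) (hL : L ≤ F)
    (h : ∀ x ∈ L, x - ψ x ∈ G) :
    (finrank K L : ℝ) - finrank K (G ⊓ L : Submodule K V) ≤ cod ψ F G := by
  have h1 := ann_rank G.mkQ L
  have h2 := ann_rank G.mkQ (F.map ψ)
  rw [Submodule.ker_mkQ] at h1 h2
  have h3 : F.map ψ ⊓ G = G.map ψ := by
    apply le_antisymm
    · rintro z ⟨⟨x, hx, rfl⟩, hz⟩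
      exact ⟨ψ x, hz, hψ x⟩
    · rintro _ ⟨x, hx, rfl⟩
      exact ⟨⟨x, hGF hx, rfl⟩, hG x hx⟩
  rw [h3] at h2
  have h4 : L.map G.mkQ ≤ (F.map ψ).map G.mkQ := by
    rintro _ ⟨x, hx, rfl⟩
    refine ⟨ψ x, ⟨x, hL hx, rfl⟩, ?_⟩
    symm
    exact (Submodule.Quotient.eq G).2 (h x hx)
  have h5 := Submodule.finrank_mono h4
  rw [inf_comm G L]
  unfold cod
  have h6 : (finrank K L : ℝ) = finrank K (L.map G.mkQ) +
      finrank K (L ⊓ G : Submodule K V) := by
    rw [← h1]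
    push_cast
    rfl
  have h7 : (finrank K (F.map ψ) : ℝ) = finrank K ((F.map ψ).map G.mkQ) +
      finrank K (G.map ψ) := by
    rw [← h2]
    push_cast
    rfl
  have h8 : (finrank K (L.map G.mkQ) : ℝ) ≤ finrank K ((F.map ψ).map G.mkQ) := by
    exact_mod_cast h5
  rw [h6, h7]
  linarith

variable {α : Type} [Fintype α] [DecidableEq α] {K : Type*} [Field K] [CharZero K]

namespace Sys

variable (Q : Sys α K) {S T : Type} [Fintype S] [DecidableEq S] [Fintype T] [DecidableEq T]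

/-- bending one factor `T` of the target: `P S (T ⊕ T)` to `P (T ⊕ S) T` (`map_bnd_P`, `map_bnd_N`,
`bnd_mul`), then exchanging the factors `T ⊕ S ≃ S ⊕ T` by `pm` -/
theorem cod_eq_pT (q : Matrix (S → α) (S → α) K) :
    cod (sand (1 : Matrix (T ⊕ T → α) (T ⊕ T → α) K) q) (Q.P S (T ⊕ T)) (Q.N S (T ⊕ T)) =
      Q.pT T q := by
  have h1 := ann_cod_congr (sand (1 : Matrix (T ⊕ T → α) (T ⊕ T → α) K) q)
    (sand (1 : Matrix (T → α) (T → α) K) (kr (1 : Matrix (T → α) (T → α) K) q))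
    (bnd (S := T) (T' := T) (T := S) Q.g) (bnd (S := T) (T' := T) (T := S) Q.g)
    (Function.LeftInverse.injective (g := bndI Q.g') (fun F => bndI_bnd Q.g'g F))
    (fun x => by rw [sand_apply, sand_apply, Matrix.one_mul, Matrix.one_mul, bnd_mul])
    (Q.P S (T ⊕ T)) (Q.N S (T ⊕ T))
  rw [map_bnd_P, map_bnd_N] at h1
  rw [h1, pT]
  set e : S ⊕ T ≃ T ⊕ S := Equiv.sumComm S T with he
  have hcomm : kr (1 : Matrix (T → α) (T → α) K) q * pm α K e =
      pm α K e * kr q (1 : Matrix (T → α) (T → α) K) := by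
    ext c d
    rw [mul_pm_apply, pm_mul_apply]
    simp only [kr, Matrix.of_apply]
    rw [mul_comm]
    rfl
  let Φ : Matrix (T → α) (T ⊕ S → α) K →ₗ[K] Matrix (T → α) (S ⊕ T → α) K :=
    sand (1 : Matrix (T → α) (T → α) K) (pm α K e)
  have hΦ : ∀ x, Φ x = x * pm α K e := fun x => by
    change (1 : Matrix (T → α) (T → α) K) * x * pm α K e = _
    rw [Matrix.one_mul]
  have hinj : Function.Injective Φ := by
    intro x x' hx
    rw [hΦ, hΦ] at hx
    have h2 : pm α K e * pm α K e.symm = 1 := pm_symm_mul e.symm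
    have h3 := congrArg (fun z => z * pm α K e.symm) hx
    simp only [Matrix.mul_assoc, h2, Matrix.mul_one] at h3
    exact h3
  have h4 := ann_cod_congr
    (sand (1 : Matrix (T → α) (T → α) K) (kr (1 : Matrix (T → α) (T → α) K) q))
    (sand (1 : Matrix (T → α) (T → α) K) (kr q (1 : Matrix (T → α) (T → α) K)))
    Φ Φ hinj
    (fun x => by
      rw [hΦ, hΦ, sand_apply, sand_apply, Matrix.one_mul, Matrix.one_mul, Matrix.mul_assoc,
        hcomm, Matrix.mul_assoc])
    (Q.P (T ⊕ S) T) (Q.N (T ⊕ S) T)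
  have h5 : (Q.P (T ⊕ S) T).map Φ = Q.P (S ⊕ T) T := by
    apply le_antisymm
    · rintro _ ⟨x, hx, rfl⟩
      rw [hΦ]
      exact Q.mul_mem hx (Q.pm_mem e)
    · intro z hz
      refine ⟨z * pm α K e.symm, Q.mul_mem hz (Q.pm_mem e.symm), ?_⟩
      rw [hΦ, Matrix.mul_assoc, pm_symm_mul, Matrix.mul_one]
  have h6 : (Q.N (T ⊕ S) T).map Φ = Q.N (S ⊕ T) T := by
    apply le_antisymm
    · rintro _ ⟨x, hx, rfl⟩
      rw [hΦ]
      exact Q.N_mul_right hx (Q.pm_mem e)
    · intro z hz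
      refine ⟨z * pm α K e.symm, Q.N_mul_right hz (Q.pm_mem e.symm), ?_⟩
      rw [hΦ, Matrix.mul_assoc, pm_symm_mul, Matrix.mul_one]
  rw [h4, h5, h6]

/-- Every `0 ≠ y ∈ P ∅ S` has an idempotent `q ∈ P S S`, `q ≠ 1`, such that for all `Y` and all
`f ∈ P S Y` with `f * y = 0`: `f - f * q ∈ N S Y`.  (`left_idem` for `Q.alg S` and
`L = {f ∈ P S S | f * y = 0}`.  If `q = 1`: `1 - l ∈ N`, `l * y = 0`, so `y = g * y` with `g ∈ N S S`
nilpotent, so `y = 0`.  For `f` and `g ∈ P Y S`: `g * f ∈ L`, so `g * f - g * f * q ∈ N S S`, whose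
trace is zero: `tr ((f - f q) g) = tr (g (f - f q)) = 0`.) -/
theorem exists_ann {y : Matrix (S → α) (Empty → α) K} (hy : y ∈ Q.P Empty S) (hy0 : y ≠ 0) :
    ∃ q ∈ Q.P S S, q * q = q ∧ q ≠ 1 ∧ ∀ (Y : Type) [Fintype Y] [DecidableEq Y]
      (f : Matrix (Y → α) (S → α) K), f ∈ Q.P S Y → f * y = 0 → f - f * q ∈ Q.N S Y := by
  let L : Submodule K (Matrix (S → α) (S → α) K) :=
    { carrier := {f | f ∈ Q.P S S ∧ f * y = 0}
      add_mem' := by
        rintro a b ⟨h1, h2⟩ ⟨h3, h4⟩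
        refine ⟨add_mem h1 h3, ?_⟩
        rw [Matrix.add_mul, h2, h4, add_zero]
      zero_mem' := ⟨zero_mem _, Matrix.zero_mul _⟩
      smul_mem' := by
        rintro c a ⟨h1, h2⟩
        refine ⟨Submodule.smul_mem _ c h1, ?_⟩
        rw [Matrix.smul_mul, h2, smul_zero] }
  have hLm : ∀ f, f ∈ L ↔ f ∈ Q.P S S ∧ f * y = 0 := fun _ => Iff.rfl
  obtain ⟨q, hq, hqq, hL, l, hl, hql⟩ := left_idem (Q.alg S) L (fun f hf => hf.1)
    (fun x hx f hf => ⟨Q.mul_mem hx hf.1, by rw [Matrix.mul_assoc, hf.2, Matrix.mul_zero]⟩)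
  refine ⟨q, hq, hqq, ?_, ?_⟩
  · rintro rfl
    obtain ⟨n, hn⟩ := rad_nilp hql
    have h1 : (1 - l) * y = y := by
      rw [Matrix.sub_mul, Matrix.one_mul, hl.2, sub_zero]
    have h2 : ∀ m : ℕ, (1 - l) ^ m * y = y := by
      intro m
      induction m with
      | zero => rw [pow_zero, Matrix.one_mul]
      | succ m ih => rw [pow_succ, Matrix.mul_assoc, h1, ih]
    have h3 := h2 n
    rw [hn, Matrix.zero_mul] at h3
    exact hy0 h3.symm
  · intro Y _ _ f hf hfy
    refine ⟨sub_mem hf (Q.mul_mem hf hq), fun B hB => ?_⟩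
    have h1 : B * f ∈ L := ⟨Q.mul_mem hB hf, by rw [Matrix.mul_assoc, hfy, Matrix.mul_zero]⟩
    have h2 := hL _ h1
    rw [rad_alg] at h2
    have h3 := Q.trace_N h2
    rw [Matrix.trace_mul_comm, Matrix.mul_sub, ← Matrix.mul_assoc]
    exact h3

/-- One layer. -/
theorem layer [Nonempty α] (T : Type) [Fintype T] [DecidableEq T]
    {y : Matrix (S → α) (Empty → α) K} (hy : y ∈ Q.P Empty S) (hy0 : y ≠ 0) :
    Q.A (Fintype.card S + 2 * Fintype.card T) -
        ((Fintype.card α : ℝ) ^ (Fintype.card S) - 1) * Q.A (2 * Fintype.card T) ≤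
      cod (sand (1 : Matrix (T ⊕ T → α) (T ⊕ T → α) K) y) (Q.P S (T ⊕ T)) (Q.N S (T ⊕ T)) := by
  obtain ⟨q, hq, hqq, hq1, hann⟩ := Q.exists_ann hy hy0
  set φ := sand (1 : Matrix (T ⊕ T → α) (T ⊕ T → α) K) y with hφ
  set F := Q.P S (T ⊕ T) with hF
  set G := Q.N S (T ⊕ T) with hG
  have hGF : G ≤ F := Q.N_le S (T ⊕ T)
  have h1 := cod_eq φ F G
  have h2 := dim_image_le (sand (1 : Matrix (T ⊕ T → α) (T ⊕ T → α) K) q)
    (fun x => by
      rw [sand_apply, sand_apply, Matrix.one_mul, Matrix.one_mul, Matrix.mul_assoc, hqq])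
    F G (F ⊓ LinearMap.ker φ) hGF
    (fun x hx => by
      rw [sand_apply, Matrix.one_mul]
      exact Q.mul_mem hx hq)
    (fun x hx => by
      rw [sand_apply, Matrix.one_mul]
      exact Q.N_mul_right hx hq)
    inf_le_left
    (fun x hx => by
      rw [sand_apply, Matrix.one_mul]
      refine hann _ x hx.1 ?_
      have h3 : φ x = 0 := hx.2
      rw [hφ, sand_apply, Matrix.one_mul] at h3
      exact h3)
  rw [Q.cod_eq_pT q] at h2
  have h3 : G ⊓ (F ⊓ LinearMap.ker φ) = G ⊓ LinearMap.ker φ := by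
    rw [← inf_assoc, inf_eq_left.2 hGF]
  rw [h3] at h2
  have h4 := Q.pT_le (T := T) hq hqq
  have h5 := rank_lt_of_idem hqq hq1
  have h6 : (finrank K F : ℝ) - finrank K G = Q.A (Fintype.card S + 2 * Fintype.card T) := by
    have h7 := Q.a_eq_A S (T ⊕ T)
    rw [Fintype.card_sum, ← two_mul] at h7
    exact h7
  have h8 : Q.a T T = Q.A (2 * Fintype.card T) := by
    rw [Q.a_eq_A T T, ← two_mul]
  have h9 : (q.rank : ℝ) ≤ (Fintype.card α : ℝ) ^ (Fintype.card S) - 1 := by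
    have h10 : ((q.rank + 1 : ℕ) : ℝ) ≤ ((Fintype.card (S → α) : ℕ) : ℝ) := by exact_mod_cast h5
    rw [Fintype.card_fun] at h10
    push_cast at h10
    linarith
  have h11 : (q.rank : ℝ) * Q.a T T ≤
      ((Fintype.card α : ℝ) ^ (Fintype.card S) - 1) * Q.a T T :=
    mul_le_mul_of_nonneg_right h9 (Q.a_pos T).le
  rw [h8] at h11 h4
  rw [h1, h6]
  linarith

end Sys

end ZO
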