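import Pool.Agent.W_f569db_zo.Rat

set_option autoImplicit false

/-!
# The zero-one law
-/

noncomputable section

namespace ZO

open AlgebraicGeometry CategoryTheory MonoidalCategory
open Pool.Agent.WeilH_h6 Pool.Agent.WeilH_h6.VarClass

universe u v w

variable {k : Type u} [Field k] {𝒱 : VarClass k} {K : Type v} [Field K] [CharZero K]
  (W : Weil.{u, v, w} 𝒱 K)

theorem isAlgEnd_par {X : 𝒱.Obj} (h : AlgParity W X) : W.par X ∈ W.algHom X X := by
  obtain ⟨φ, hφ, hφ'⟩ := h
  have h1 : φ = W.par X := by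
    refine LinearMap.ext fun x => ?_
    refine W.hom_induction (P := fun x => φ x = W.par X x) (by simp) ?_ ?_ x
    · intro x y hx hy; rw [map_add, map_add, hx, hy]
    · intro i x hx
      rw [W.par_apply hx]; exact hφ' i x hx
  rw [← h1]; exact W.isAlgEnd_iff.1 hφ

/-- a failure of `D(Y)` gives a nonzero numerically trivial class -/
theorem Law_exists_nt {Y : 𝒱.Obj} (h : ¬ W.HomEqNum Y) : ∃ a : W.H Y, W.NT a ∧ a ≠ 0 := by
  unfold Weil.HomEqNum at h
  push Not at h
  obtain ⟨i, z, hz⟩ := h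
  have hz' : W.NumTrivial z ∧ W.cl z ≠ 0 := by
    rcases hz with h1 | h1
    · exact h1
    · exact absurd (fun j z' _ => by rw [h1.2, zero_mul, map_zero]) h1.1
  refine ⟨W.cl z, ⟨W.cl_mem_algSpan z, fun b hb => ?_⟩, hz'.2⟩
  unfold Weil.algSpan at hb
  induction hb using Submodule.span_induction with
  | mem b hb =>
    obtain ⟨j, t, rfl⟩ := hb
    by_cases hij : i + j = Y.dim
    · exact hz'.1 j t hij
    · refine W.tr_grad Y (2 * i + 2 * j) _ (W.mul_mem_grad (W.cl_mem_grad z) (W.cl_mem_grad t)) ?_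
      omega
  | zero => rw [mul_zero, map_zero]
  | add x y _ _ hx hy => rw [mul_add, map_add, hx, hy, add_zero]
  | smul c x _ hx => rw [mul_smul_comm, map_smul, hx, smul_zero]

/-- `H(X) ≠ 0` because there is a class with trace `1` -/
theorem Law_nonempty {X : 𝒱.Obj} {α : Type} (bs : Module.Basis α K (W.H X)) : Nonempty α := by
  by_contra hα
  rw [not_nonempty_iff] at hα
  obtain ⟨p, _, hp⟩ := exists_tr_one_alg W X
  have hsub : Subsingleton (W.H X) := bs.repr.toEquiv.subsingleton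
  rw [Subsingleton.elim p 0, map_zero] at hp
  exact zero_ne_one hp

/-- from `Sys.zero_one`, `Sys.A_pos`, `h_sysX`, `A_sysX`, `numRank_eq`, `exists_N` -/
theorem tendsto_of_not {X : 𝒱.Obj} (hpar : AlgParity W X) {m : ℕ}
    (h : ¬ W.HomEqNum (X.pow m)) :
    Filter.Tendsto (fun m : ℕ => (homRank W (X.pow m) : ℝ) / numRank W (X.pow m)) Filter.atTop
      Filter.atTop := by
  classical
  have hp := isAlgEnd_par W hpar
  obtain ⟨b, bs, π, hπ⟩ := exists_par_basis W X
  have hne : Nonempty (Fin b) := Law_nonempty W bs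
  obtain ⟨a, ha, ha0⟩ := Law_exists_nt W h
  obtain ⟨z, hz, hz0⟩ := exists_N W bs hp hπ ha ha0
  obtain ⟨u, v, hu, hv, hvu⟩ := exists_uv W bs hp hπ
  have hA : ∀ n, (sysX W bs hp hπ).A n = (numRank W (X.pow n) : ℝ) := by
    intro n
    rw [A_sysX, numRank_eq]
  have hh : ∀ n, (sysX W bs hp hπ).h n = (homRank W (X.pow n) : ℝ) := by
    intro n
    rw [h_sysX]
    rfl
  rw [Filter.tendsto_atTop]
  intro c
  obtain ⟨M, hM⟩ := (sysX W bs hp hπ).zero_one hu hv hvu hz hz0 c
  filter_upwards [Filter.eventually_ge_atTop M] with n hn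
  have h1 := hM n hn
  have h2 := (sysX W bs hp hπ).A_pos hu hv hvu n
  rw [hA] at h1 h2
  rw [hh] at h1
  rw [le_div_iff₀ (lt_of_lt_of_le one_pos h2)]
  exact h1

/-- `nt_eq_zero_of_homEqNum`: `ntSub = ⊥` -/
theorem rank_eq_of_homEqNum {X : 𝒱.Obj} (h : W.HomEqNum X) : homRank W X = numRank W X := by
  have h1 := numRank_eq W X
  have h2 : ntSub W X = ⊥ := by
    rw [eq_bot_iff]
    intro a ha
    exact (Submodule.mem_bot K).2 (W.nt_eq_zero_of_homEqNum h ha)
  rw [h2, finrank_bot, Nat.cast_zero, sub_zero] at h1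
  have h3 : (homRank W X : ℝ) = numRank W X := h1.symm
  exact_mod_cast h3

theorem law (X : 𝒱.Obj) (hpar : AlgParity W X) :
    ((∀ m : ℕ, W.HomEqNum (X.pow m)) ∧ ∀ m : ℕ, homRank W (X.pow m) = numRank W (X.pow m)) ∨
      Filter.Tendsto (fun m : ℕ => (homRank W (X.pow m) : ℝ) / numRank W (X.pow m)) Filter.atTop
        Filter.atTop := by
  by_cases h : ∀ m : ℕ, W.HomEqNum (X.pow m)
  · exact Or.inl ⟨h, fun m => rank_eq_of_homEqNum W (h m)⟩
  · push Not at h
    obtain ⟨m, hm⟩ := h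
    exact Or.inr (tendsto_of_not W hpar hm)

end ZO
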