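import Pool.Agent.W_f569db_zo.BendA

set_option autoImplicit false

/-!
# Bending and the subspaces `P`, `N`
-/

noncomputable section

namespace ZO

open Matrix Module

variable {α : Type} [Fintype α] [DecidableEq α] {K : Type*} [Field K]
  {S T T' : Type} [Fintype S] [DecidableEq S] [Fintype T] [DecidableEq T]
  [Fintype T'] [DecidableEq T']

namespace Sys

variable (Q : Sys α K)

/-- The same system with the transposed form: `capM gᵀ S = capM g S * pm (Equiv.sumComm S S)` and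
similarly for `cupM`. -/
def tr : Sys α K where
  P := Q.P
  g := Q.gᵀ
  g' := Q.g'ᵀ
  gg' := by rw [← Matrix.transpose_mul, Q.g'g, Matrix.transpose_one]
  g'g := by rw [← Matrix.transpose_mul, Q.gg', Matrix.transpose_one]
  one_mem := Q.one_mem
  mul_mem := Q.mul_mem
  kr_mem := Q.kr_mem
  pm_mem := Q.pm_mem
  cap_mem := by
    intro S _ _
    have h : capM Q.gᵀ S = capM Q.g S * pm α K (Equiv.sumComm S S) := by
      ext c d
      rw [mul_pm_apply]
      rfl
    rw [h]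
    exact Q.mul_mem (Q.cap_mem S) (Q.pm_mem _)
  cup_mem := by
    intro S _ _
    have h : cupM Q.g'ᵀ S = pm α K (Equiv.sumComm S S) * cupM Q.g' S := by
      ext c d
      rw [pm_mul_apply]
      rfl
    rw [h]
    exact Q.mul_mem (Q.pm_mem _) (Q.cup_mem S)

/-- from `bnd_eq` -/
theorem bnd_mem {F : Matrix (S ⊕ T' → α) (T → α) K} (hF : F ∈ Q.P T (S ⊕ T')) :
    bnd Q.g F ∈ Q.P (S ⊕ T) T' := by
  rw [bnd_eq]
  exact Q.mul_mem (Q.pm_mem _) (Q.mul_mem (Q.kr_mem (Q.cap_mem S) (Q.one_mem T'))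
    (Q.mul_mem (Q.pm_mem _) (Q.kr_mem (Q.one_mem S) hF)))

/-- from `bndI_eq` -/
theorem bndI_mem {H : Matrix (T' → α) (S ⊕ T → α) K} (hH : H ∈ Q.P (S ⊕ T) T') :
    bndI Q.g' H ∈ Q.P T (S ⊕ T') := by
  rw [bndI_eq]
  exact Q.mul_mem (Q.kr_mem (Q.one_mem S) hH) (Q.mul_mem (Q.pm_mem _)
    (Q.mul_mem (Q.kr_mem (Q.cup_mem S) (Q.one_mem T)) (Q.pm_mem _)))

/-- `P (S ⊕ T) T'` is the image of `P T (S ⊕ T')` -/
theorem map_bnd_P : (Q.P T (S ⊕ T')).map (bnd (S := S) Q.g) = Q.P (S ⊕ T) T' := by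
  apply le_antisymm
  · rintro _ ⟨F, hF, rfl⟩
    exact Q.bnd_mem hF
  · intro H hH
    exact ⟨bndI Q.g' H, Q.bndI_mem hH, bnd_bndI Q.gg' H⟩

/-- `N (S ⊕ T) T'` is the image of `N T (S ⊕ T')`: for `F ∈ N` and `B ∈ P T' (S ⊕ T)` use
`trace_bnd_mul` and `Q.tr.bnd_mem`; conversely if `bnd g F ∈ N` and `B' ∈ P (S ⊕ T') T` apply
`trace_bnd_mul` to `B = bndI g'ᵀ B'` (`Q.tr.bndI_mem`, `bnd_bndI`). -/
theorem map_bnd_N : (Q.N T (S ⊕ T')).map (bnd (S := S) Q.g) = Q.N (S ⊕ T) T' := by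
  apply le_antisymm
  · rintro _ ⟨F, hF, rfl⟩
    refine ⟨Q.bnd_mem hF.1, ?_⟩
    intro B hB
    rw [trace_bnd_mul]
    exact hF.2 _ (Q.tr.bnd_mem hB)
  · intro H hH
    refine ⟨bndI Q.g' H, ⟨Q.bndI_mem hH.1, ?_⟩, bnd_bndI Q.gg' H⟩
    intro B' hB'
    have h1 : bnd Q.gᵀ (bndI Q.g'ᵀ B') = B' := by
      apply bnd_bndI
      rw [← Matrix.transpose_mul, Q.g'g, Matrix.transpose_one]
    have h2 := trace_bnd_mul Q.g (bndI Q.g' H) (bndI Q.g'ᵀ B')
    rw [h1, bnd_bndI Q.gg' H] at h2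
    rw [← h2]
    exact hH.2 _ (Q.tr.bndI_mem hB')

/-- bending preserves `a` (`bnd` is injective by `bndI_bnd`) -/
theorem a_bnd : Q.a T (S ⊕ T') = Q.a (S ⊕ T) T' := by
  have hinj : Function.Injective (bnd (S := S) (T := T) (T' := T') Q.g) :=
    Function.LeftInverse.injective (g := bndI Q.g') (fun F => bndI_bnd Q.g'g F)
  have h1 := (Submodule.equivMapOfInjective _ hinj (Q.P T (S ⊕ T'))).finrank_eq
  have h2 := (Submodule.equivMapOfInjective _ hinj (Q.N T (S ⊕ T'))).finrank_eq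
  rw [map_bnd_P] at h1
  rw [map_bnd_N] at h2
  unfold a
  rw [h1, h2]

/-- `a S S'` is `A (card S + card S')`: bend `P Empty (S ⊕ S')` to `P (S ⊕ Empty) S'`, and use
`a_congr`. -/
theorem a_eq_A (S S' : Type) [Fintype S] [DecidableEq S] [Fintype S'] [DecidableEq S'] :
    Q.a S S' = Q.A (Fintype.card S + Fintype.card S') := by
  have e : S ⊕ S' ≃ Fin (Fintype.card S + Fintype.card S') :=
    Fintype.equivFinOfCardEq (Fintype.card_sum)
  unfold A
  rw [← Q.a_congr (Equiv.refl Empty) e, Q.a_bnd]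
  exact Q.a_congr (Equiv.sumEmpty S Empty).symm (Equiv.refl S')

/-- `dim P Empty S` is `h (card S)` -/
theorem finrank_P_empty (S : Type) [Fintype S] [DecidableEq S] :
    (finrank K (Q.P Empty S) : ℝ) = Q.h (Fintype.card S) := by
  have e : S ≃ Fin (Fintype.card S) := Fintype.equivFin S
  have hinj : Function.Injective (sand (pm α K e) (1 : Matrix (Empty → α) (Empty → α) K)) := by
    apply Function.LeftInverse.injective (g := fun A => pm α K e.symm * A)
    intro A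
    show pm α K e.symm * (pm α K e * A * (1 : Matrix (Empty → α) (Empty → α) K)) = A
    rw [Matrix.mul_one, ← Matrix.mul_assoc, pm_symm_mul, Matrix.one_mul]
  have h1 := (Submodule.equivMapOfInjective _ hinj (Q.P Empty S)).finrank_eq
  have h2 : (Q.P Empty S).map (sand (pm α K e) (1 : Matrix (Empty → α) (Empty → α) K)) =
      Q.P Empty (Fin (Fintype.card S)) := by
    apply le_antisymm
    · rintro _ ⟨F, hF, rfl⟩
      rw [sand_apply, Matrix.mul_one]
      exact Q.mul_mem (Q.pm_mem _) hF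
    · intro H hH
      refine ⟨pm α K e.symm * H, Q.mul_mem (Q.pm_mem _) hH, ?_⟩
      rw [sand_apply, Matrix.mul_one, ← Matrix.mul_assoc]
      have h3 := pm_symm_mul (α := α) (K := K) e.symm
      rw [Equiv.symm_symm] at h3
      rw [h3, Matrix.one_mul]
  rw [h2] at h1
  unfold h
  rw [h1]

/-- the adjoint is in `P`: `adj g g' f = bnd g (kr f 1 * cupM g' S)` up to `pm (Equiv.sumEmpty ..)` -/
theorem adj_mem {f : Matrix (S → α) (S → α) K} (hf : f ∈ Q.P S S) : adj Q.g Q.g' f ∈ Q.P S S := by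
  have h : adj Q.g Q.g' f =
      bnd Q.g (kr f (1 : Matrix (S → α) (S → α) K) * cupM Q.g' S) *
        pm α K (Equiv.sumEmpty S Empty).symm := by
    ext c d
    rw [mul_pm_apply]
    have h1 : ∀ s' : S → α, (kr f (1 : Matrix (S → α) (S → α) K) * cupM Q.g' S)
        (Sum.elim s' c) ((d ∘ (Equiv.sumEmpty S Empty).symm.symm) ∘ Sum.inr) =
        (f * tp Q.g' S) s' c := by
      intro s'
      rw [Matrix.mul_apply, Matrix.mul_apply, ← (Equiv.sumArrowEquivProdArrow S S α).symm.sum_comp,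
        Fintype.sum_prod_type]
      refine Finset.sum_congr rfl ?_
      intro x _
      rw [Finset.sum_eq_single c]
      · show f s' x * (1 : Matrix (S → α) (S → α) K) c c * tp Q.g' S x c = f s' x * tp Q.g' S x c
        rw [Matrix.one_apply_eq, mul_one]
      · intro y _ hy
        show f s' x * (1 : Matrix (S → α) (S → α) K) c y * tp Q.g' S x y = 0
        rw [Matrix.one_apply_ne (Ne.symm hy), mul_zero, zero_mul]
      · intro hc
        exact absurd (Finset.mem_univ c) hc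
    show (tp Q.g S * f * tp Q.g' S) d c = ∑ s' : S → α, tp Q.g S _ s' * _
    simp_rw [h1]
    rw [Matrix.mul_assoc, Matrix.mul_apply]
    rfl
  rw [h]
  exact Q.mul_mem (Q.bnd_mem (Q.mul_mem (Q.kr_mem hf (Q.one_mem S)) (Q.cup_mem S))) (Q.pm_mem _)

/-- For `z ∈ N Empty D`: `(1_S ⊗ z) ∈ N S (S ⊕ D)` (with the identification `S ≃ S ⊕ Empty`).
Proof: let `B ∈ P (S ⊕ D) S`; `tr ((1 ⊗ z) B) = ∑_{s, d} z(d) B(s, (s, d)) = ∑_d z(d) w(d)` with
`w(d) = ∑_s B(s,(s,d))`, and `w ∈ P D Empty` because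
`w = capM g S * ((B ⊗ 1_S) * (permutation) * (cupM ⊗ 1_D))` up to permutations; for instance
`w = (cap gᵀ ..)`: `∑_{s,e} B(s,(s,d)) = ∑_{s,s',e} B(s,(s',d)) g(s,e) g'(e,s')`.  Alternatively use
bending: `1_S ⊗ z` corresponds under `bnd`/`bndI` to `z * (capM)` and `N` is an ideal (`N_mul_right`):
`bnd g (1_S ⊗ z) = z * capM g S` up to `pm`, and `z * (..) ∈ N` by `N_mul_right`, then use
`map_bnd_N` and the injectivity of `bnd`. -/
theorem one_kr_mem_N {D : Type} [Fintype D] [DecidableEq D] {z : Matrix (D → α) (Empty → α) K}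
    (hz : z ∈ Q.N Empty D) :
    kr (1 : Matrix (S → α) (S → α) K) z ∈ Q.N (S ⊕ Empty) (S ⊕ D) := by
  have hinj : Function.Injective (bnd (S := S) (T := S ⊕ Empty) (T' := D) Q.g) :=
    Function.LeftInverse.injective (g := bndI Q.g') (fun F => bndI_bnd Q.g'g F)
  have h1 : bnd Q.g (kr (1 : Matrix (S → α) (S → α) K) z) =
      z * bnd Q.g (1 : Matrix (S ⊕ Empty → α) (S ⊕ Empty → α) K) := by
    rw [← bnd_one_kr, Matrix.mul_one]
  have h2 : bnd Q.g (kr (1 : Matrix (S → α) (S → α) K) z) ∈ Q.N (S ⊕ (S ⊕ Empty)) D := by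
    rw [h1]
    exact Q.N_mul_right hz (Q.bnd_mem (Q.one_mem _))
  rw [← map_bnd_N] at h2
  obtain ⟨F, hF, hF2⟩ := h2
  rw [← hinj hF2]
  exact hF

end Sys

end ZO
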