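import Pool.Agent.W_f569db_zo.Pm
import Pool.Agent.W_f569db_h13.UPerm

set_option autoImplicit false

/-!
# Bridge 1: bases of `H(X^n)`, coordinates of linear maps, the system attached to a variety
-/

noncomputable section

namespace ZO

open AlgebraicGeometry CategoryTheory MonoidalCategory
open scoped TensorProduct DirectSum
open Pool.Agent.WeilH_h6 Pool.Agent.WeilH_h6.VarClass Pool.Agent.WeilH_h6.Weil

universe u v w

variable {k : Type u} [Field k] {𝒱 : VarClass k} {K : Type v} [Field K] (W : Weil.{u, v, w} 𝒱 K)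

/-- A basis of `H(X)` consisting of even and odd elements: `H(X)` is the direct sum of the
eigenspaces of the involution `W.par X` (`W.par_par`), use bases of the two eigenspaces; or the
collected basis of the grading. -/
theorem exists_par_basis [CharZero K] (X : 𝒱.Obj) :
    ∃ (b : ℕ) (bs : Module.Basis (Fin b) K (W.H X)) (π : Fin b → ℕ),
      ∀ i, W.par X (bs i) = ((-1 : K) ^ (π i)) • bs i := by
  classical
  have : Module.Finite K (W.H X) := W.axFinite X
  let B := (W.isInternal X).collectedBasis fun i => Module.Free.chooseBasis K (W.grad X i)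
  have := Module.Finite.finite_basis B
  have := Fintype.ofFinite ((i : ℕ) × Module.Free.ChooseBasisIndex K (W.grad X i))
  let e := Fintype.equivFin ((i : ℕ) × Module.Free.ChooseBasisIndex K (W.grad X i))
  refine ⟨_, B.reindex e, fun i => (e.symm i).1, fun i => ?_⟩
  rw [Module.Basis.reindex_apply]
  exact W.par_apply ((W.isInternal X).collectedBasis_mem _ (e.symm i))

variable {X : 𝒱.Obj} {α : Type} [Fintype α] [DecidableEq α] (bs : Module.Basis α K (W.H X))

/-- words of length `n + 1` are words of length `n` with a letter -/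
def Br1_snoc (α : Type) (n : ℕ) : (Fin n → α) × α ≃ (Fin (n + 1) → α) where
  toFun p := Fin.snoc p.1 p.2
  invFun c := (fun s => c s.castSucc, c (Fin.last n))
  left_inv p := by
    refine Prod.ext ?_ ?_
    · funext s
      exact Fin.snoc_castSucc (α := fun _ => α) _ _ _
    · exact Fin.snoc_last (α := fun _ => α) _ _
  right_inv c := by
    funext s
    refine Fin.lastCases ?_ (fun s => ?_) s
    · exact Fin.snoc_last (α := fun _ => α) _ _
    · exact Fin.snoc_castSucc (α := fun _ => α) _ _ _

/-- The products of basis vectors form a basis of `H(X^n)`: induction on `n`, the Künneth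
isomorphism `W.ku (X.pow n) X`, `Module.Basis.tensorProduct`, `pureT_succ`, `eq_smul_one` for
`n = 0`. -/
theorem exists_pow_basis (n : ℕ) : ∃ B : Module.Basis (Fin n → α) K (W.H (X.pow n)),
    ∀ c, B c = W.pureT fun s => bs (c s) := by
  induction n with
  | zero =>
    have h1 : (1 : W.H (Obj.pt : 𝒱.Obj)) ≠ 0 := by
      intro h
      have h2 := W.tr_pt_one
      rw [h, map_zero] at h2
      exact one_ne_zero h2.symm
    refine ⟨Module.Basis.mk (v := fun c : Fin 0 → α => W.pureT fun s => bs (c s)) ?_ ?_,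
      fun c => ?_⟩
    · rw [linearIndependent_unique_iff, pureT_zero]
      exact h1
    · intro x _
      have h2 : x = W.tr Obj.pt x • (1 : W.H (Obj.pt : 𝒱.Obj)) := W.eq_smul_one x
      rw [h2]
      refine Submodule.smul_mem _ _ (Submodule.subset_span ⟨fun s => s.elim0, ?_⟩)
      exact W.pureT_zero _
    · rw [Module.Basis.mk_apply]
  | succ n ih =>
    obtain ⟨B, hB⟩ := ih
    let B' : Module.Basis (Fin (n + 1) → α) K (W.H ((X.pow n).prod X)) :=
      ((B.tensorProduct bs).map (W.ku (X.pow n) X)).reindex (Br1_snoc α n)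
    have hB' : ∀ c : Fin (n + 1) → α, B' c = W.p1 (X.pow n) X (W.pureT fun s => bs (c s.castSucc)) *
        W.p2 (X.pow n) X (bs (c (Fin.last n))) := by
      intro c
      have h1 : (Br1_snoc α n).symm c = (fun s => c s.castSucc, c (Fin.last n)) := rfl
      rw [Module.Basis.reindex_apply, Module.Basis.map_apply, h1,
        Module.Basis.tensorProduct_apply, hB, W.ku_tmul]
    refine ⟨B', fun c => (hB' c).trans ?_⟩
    rw [pureT_succ]
    rfl

/-- the basis of `H(X^n)` -/
def pB (n : ℕ) : Module.Basis (Fin n → α) K (W.H (X.pow n)) :=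
  Classical.choose (exists_pow_basis W bs n)

theorem pB_apply (n : ℕ) (c : Fin n → α) : pB W bs n c = W.pureT fun s => bs (c s) :=
  Classical.choose_spec (exists_pow_basis W bs n) c

/-- unsigned permutations are algebraic (see the proof of `H13F.exists_uperm`) -/
theorem exists_uperm' [CharZero K] (hpar : W.par X ∈ W.algHom X X) {m M : ℕ}
    (e : Fin m ≃ Fin M) :
    ∃ U ∈ W.algHom (X.pow m) (X.pow M), ∀ v : Fin m → W.H X,
      U (W.pureT v) = W.pureT fun t => v (e.symm t) := by
  classical
  choose ε hε hU using fun π : Fin m → Fin 2 =>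
    W.pull_sel_pureT (X := X) e (fun s => ((π s : Fin 2) : ℕ))
  have hεsq : ∀ π, ε π * ε π = 1 := by
    intro π
    rcases hε π with h | h <;> rw [h] <;> ring
  let E : (Fin m → Fin 2) → (W.H (X.pow m) →ₗ[K] W.H (X.pow M)) := fun π =>
    ε π • ((W.pull (Obj.sel X e)).toLinearMap ∘ₗ W.powMap m fun s => H13F.parPr W X (π s))
  have hE1 : ∀ π v, E π (W.pureT v) =
      W.pureT fun t => H13F.parPr W X (π (e.symm t)) (v (e.symm t)) := by
    intro π v
    change ε π • W.pull (Obj.sel X e) (W.powMap m (fun s => H13F.parPr W X (π s)) (W.pureT v)) = _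
    rw [W.powMap_pureT, hU π _ (fun s => H13F.par_parPr W (π s) (v s)), smul_smul, hεsq, one_smul]
  have hE2 : ∀ π, E π ∈ W.algHom (X.pow m) (X.pow M) := by
    intro π
    refine Submodule.smul_mem _ _ (W.comp_mem_algHom (W.powMap_mem_algHom fun s => ?_)
      (W.pull_mem_algHom _))
    exact H13F.parPr_mem W hpar (π s)
  have hmem : (∑ π, E π) ∈ W.algHom (X.pow m) (X.pow M) := Submodule.sum_mem _ fun π _ => hE2 π
  refine ⟨∑ π, E π, hmem, fun v => ?_⟩
  rw [LinearMap.sum_apply]
  simp only [hE1]
  -- multilinear expansion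
  have h1 : (fun t => v (e.symm t)) = fun t => ∑ i : Fin 2, H13F.parPr W X i (v (e.symm t)) := by
    funext t
    rw [H13F.parPr_add]
  rw [← pureM_apply, h1, MultilinearMap.map_sum]
  refine Fintype.sum_equiv (Equiv.arrowCongr e (Equiv.refl (Fin 2))) _ _ fun π => ?_
  rw [pureM_apply]
  rfl

variable {S S' S'' : Type} {n n' n'' : ℕ}

/-- The linear map `H(X^n) → H(X^n')` with a given matrix, for identifications `S ≃ Fin n`,
`S' ≃ Fin n'`. -/
def mkL (e : S ≃ Fin n) (e' : S' ≃ Fin n') :
    Matrix (S' → α) (S → α) K ≃ₗ[K] (W.H (X.pow n) →ₗ[K] W.H (X.pow n')) :=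
  (Matrix.reindexLinearEquiv K K (Equiv.arrowCongr e' (Equiv.refl α))
    (Equiv.arrowCongr e (Equiv.refl α))).trans (Matrix.toLin (pB W bs n) (pB W bs n'))

theorem mkL_pureT (e : S ≃ Fin n) (e' : S' ≃ Fin n') (M : Matrix (S' → α) (S → α) K)
    (c : Fin n → α) :
    mkL W bs e e' M (W.pureT fun s => bs (c s)) =
      ∑ c' : Fin n' → α, M (c' ∘ e') (c ∘ e) • W.pureT fun s => bs (c' s) := by
  rw [← pB_apply W bs n c]
  change Matrix.toLin (pB W bs n) (pB W bs n') (Matrix.reindexLinearEquiv K K
    (Equiv.arrowCongr e' (Equiv.refl α)) (Equiv.arrowCongr e (Equiv.refl α)) M) (pB W bs n c) = _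
  rw [Matrix.toLin_self]
  refine Finset.sum_congr rfl fun c' _ => ?_
  rw [pB_apply]
  rfl

theorem mkL_mul [Fintype S] [DecidableEq S] [Fintype S'] [DecidableEq S'] [Fintype S'']
    [DecidableEq S''] (e : S ≃ Fin n) (e' : S' ≃ Fin n') (e'' : S'' ≃ Fin n'')
    (A : Matrix (S'' → α) (S' → α) K) (B : Matrix (S' → α) (S → α) K) :
    mkL W bs e e'' (A * B) = mkL W bs e' e'' A ∘ₗ mkL W bs e e' B := by
  change Matrix.toLin (pB W bs n) (pB W bs n'') (Matrix.reindexLinearEquiv K K
    (Equiv.arrowCongr e'' (Equiv.refl α)) (Equiv.arrowCongr e (Equiv.refl α)) (A * B)) = _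
  rw [← Matrix.reindexLinearEquiv_mul K K (Equiv.arrowCongr e'' (Equiv.refl α))
    (Equiv.arrowCongr e' (Equiv.refl α)) (Equiv.arrowCongr e (Equiv.refl α)),
    Matrix.toLin_mul (pB W bs n) (pB W bs n') (pB W bs n'')]
  rfl

theorem mkL_one [Fintype S] [DecidableEq S] (e : S ≃ Fin n) :
    mkL W bs e e (1 : Matrix (S → α) (S → α) K) = LinearMap.id := by
  change Matrix.toLin (pB W bs n) (pB W bs n) (Matrix.reindexLinearEquiv K K
    (Equiv.arrowCongr e (Equiv.refl α)) (Equiv.arrowCongr e (Equiv.refl α)) 1) = _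
  rw [Matrix.reindexLinearEquiv_one, Matrix.toLin_one]

/-- by multilinearity from the basis vectors -/
theorem mkL_pm (e : S ≃ Fin n) (e' : S' ≃ Fin n') (f : S ≃ S') (v : Fin n → W.H X) :
    mkL W bs e e' (pm α K f) (W.pureT v) = W.pureT fun t => v (e (f.symm (e'.symm t))) := by
  classical
  let σ : Fin n' ≃ Fin n := e'.symm.trans (f.symm.trans e)
  have key : (mkL W bs e e' (pm α K f)).compMultilinearMap (W.pureM X n) =
      (W.pureM X n').domDomCongr σ := by
    refine Module.Basis.ext_multilinear (fun _ => bs) fun c => ?_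
    rw [LinearMap.compMultilinearMap_apply, MultilinearMap.domDomCongr_apply, pureM_apply,
      pureM_apply, mkL_pureT, Finset.sum_eq_single (c ∘ σ)]
    · have h1 : ((c ∘ σ) ∘ e') ∘ f = c ∘ e := by
        funext s
        simp [σ]
      rw [Pm_apply, if_pos h1, one_smul]
      rfl
    · intro c' _ hc'
      have h1 : ¬ (c' ∘ e') ∘ f = c ∘ e := by
        intro h
        apply hc'
        funext t
        have h2 := congrFun h (f.symm (e'.symm t))
        simpa [σ] using h2
      rw [Pm_apply, if_neg h1, zero_smul]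
    · intro h
      exact absurd (Finset.mem_univ _) h
  have h1 := congrArg (fun F => F v) key
  have h2 : mkL W bs e e' (pm α K f) (W.pureT v) = W.pureT fun i => v (σ i) := by
    simpa only [LinearMap.compMultilinearMap_apply, MultilinearMap.domDomCongr_apply,
      pureM_apply] using h1
  exact h2

/-- the unsigned permutations given by `pm` are algebraic -/
theorem Br1_pm_mem [CharZero K] (hpar : W.par X ∈ W.algHom X X) (e : S ≃ Fin n) (e' : S' ≃ Fin n')
    (f : S ≃ S') : mkL W bs e e' (pm α K f) ∈ W.algHom (X.pow n) (X.pow n') := by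
  obtain ⟨U, hU, hUv⟩ := exists_uperm' W hpar (e.symm.trans (f.trans e'))
  have h1 : mkL W bs e e' (pm α K f) = U := by
    refine LinearMap.ext fun z => ?_
    refine W.pure_induction (P := fun z => mkL W bs e e' (pm α K f) z = U z) ?_ ?_ ?_ z
    · intro a b ha hb
      rw [map_add, map_add, ha, hb]
    · intro c a ha
      rw [map_smul, map_smul, ha]
    · intro v
      rw [mkL_pm, hUv]
      rfl
  rw [h1]
  exact hU

/-- The matrices of the algebraic maps: for all identifications `S ≃ Fin n`, `S' ≃ Fin n'`. -/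
def PP (S S' : Type) : Submodule K (Matrix (S' → α) (S → α) K) where
  carrier := {M | ∀ (n n' : ℕ) (e : S ≃ Fin n) (e' : S' ≃ Fin n'),
    mkL W bs e e' M ∈ W.algHom (X.pow n) (X.pow n')}
  add_mem' := by
    intro A B hA hB n n' e e'
    rw [map_add]
    exact Submodule.add_mem _ (hA n n' e e') (hB n n' e e')
  zero_mem' := by
    intro n n' e e'
    rw [map_zero]
    exact Submodule.zero_mem _
  smul_mem' := by
    intro c A hA n n' e e'
    rw [map_smul]
    exact Submodule.smul_mem _ _ (hA n n' e e')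

/-- It is enough to check one pair of identifications: two identifications differ by unsigned
permutations (`exists_uperm'`), `mkL e₁ e₁' M = U' ∘ mkL e e' M ∘ U`. -/
theorem mem_PP [CharZero K] (hpar : W.par X ∈ W.algHom X X) (e : S ≃ Fin n) (e' : S' ≃ Fin n')
    {M : Matrix (S' → α) (S → α) K} (h : mkL W bs e e' M ∈ W.algHom (X.pow n) (X.pow n')) :
    M ∈ PP W bs S S' := by
  classical
  have : Fintype S := Fintype.ofEquiv _ e.symm
  have : Fintype S' := Fintype.ofEquiv _ e'.symm
  intro n₁ n₁' e₁ e₁'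
  have h1 : M = (1 : Matrix (S' → α) (S' → α) K) * (M * (1 : Matrix (S → α) (S → α) K)) := by
    rw [Matrix.mul_one, Matrix.one_mul]
  rw [h1, mkL_mul W bs e₁ e' e₁', mkL_mul W bs e₁ e e', ← pm_refl, ← pm_refl]
  exact W.comp_mem_algHom (W.comp_mem_algHom (Br1_pm_mem W bs hpar e₁ e _) h)
    (Br1_pm_mem W bs hpar e' e₁' _)

theorem one_mem_PP [CharZero K] (hpar : W.par X ∈ W.algHom X X) (S : Type) [Fintype S]
    [DecidableEq S] : (1 : Matrix (S → α) (S → α) K) ∈ PP W bs S S := by
  intro n n' e e'
  rw [← pm_refl]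
  exact Br1_pm_mem W bs hpar e e' _

theorem mul_mem_PP [CharZero K] (hpar : W.par X ∈ W.algHom X X) [Fintype S] [DecidableEq S]
    [Fintype S'] [DecidableEq S'] [Fintype S''] [DecidableEq S'']
    {A : Matrix (S'' → α) (S' → α) K} {B : Matrix (S' → α) (S → α) K} (hA : A ∈ PP W bs S' S'')
    (hB : B ∈ PP W bs S S') : A * B ∈ PP W bs S S'' := by
  intro n n'' e e''
  rw [mkL_mul W bs e (Fintype.equivFin S') e'']
  exact W.comp_mem_algHom (hB n _ e (Fintype.equivFin S')) (hA _ n'' (Fintype.equivFin S') e'')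

theorem pm_mem_PP [CharZero K] (hpar : W.par X ∈ W.algHom X X) [Fintype S] [DecidableEq S]
    [Fintype S'] [DecidableEq S'] (f : S ≃ S') : pm α K f ∈ PP W bs S S' :=
  fun _ _ e e' => Br1_pm_mem W bs hpar e e' f

end ZO
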