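import Pool.Agent.W_f569db_zo.Br1

set_option autoImplicit false

/-!
# Bridge 4: external products of algebraic maps between powers
-/

noncomputable section

namespace ZO

open AlgebraicGeometry CategoryTheory MonoidalCategory
open scoped TensorProduct DirectSum
open Pool.Agent.WeilH_h6 Pool.Agent.WeilH_h6.VarClass Pool.Agent.WeilH_h6.Weil

universe u v w

variable {k : Type u} [Field k] {𝒱 : VarClass k} {K : Type v} [Field K] (W : Weil.{u, v, w} 𝒱 K)
variable {X : 𝒱.Obj} {α : Type} [Fintype α] [DecidableEq α] (bs : Module.Basis α K (W.H X))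

/-- The morphism `X^(n+k) → X^n × X^k`. -/
def Br4_split (X : 𝒱.Obj) (n k : ℕ) : X.pow (n + k) ⟶ (X.pow n).prod (X.pow k) :=
  Obj.lift (Obj.sel X (Fin.castAdd k)) (Obj.sel X (Fin.natAdd n))

/-- The morphism `X^n × X^k → X^(n+k)`. -/
def Br4_glue (X : 𝒱.Obj) (n k : ℕ) : (X.pow n).prod (X.pow k) ⟶ X.pow (n + k) :=
  Obj.liftP (n + k) (Fin.addCases (motive := fun _ => (X.pow n).prod (X.pow k) ⟶ X)
    (fun s => Obj.fst (X.pow n) (X.pow k) ≫ Obj.proj X n s)
    (fun s => Obj.snd (X.pow n) (X.pow k) ≫ Obj.proj X k s))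

theorem Br4_glue_fst (X : 𝒱.Obj) (n k : ℕ) :
    Br4_glue X n k ≫ Obj.sel X (Fin.castAdd k) = Obj.fst (X.pow n) (X.pow k) := by
  refine Obj.pow_hom_ext fun s => ?_
  rw [Category.assoc, Obj.sel_proj, Br4_glue, Obj.liftP_proj, Fin.addCases_left]

theorem Br4_glue_snd (X : 𝒱.Obj) (n k : ℕ) :
    Br4_glue X n k ≫ Obj.sel X (Fin.natAdd n) = Obj.snd (X.pow n) (X.pow k) := by
  refine Obj.pow_hom_ext fun s => ?_
  rw [Category.assoc, Obj.sel_proj, Br4_glue, Obj.liftP_proj, Fin.addCases_right]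

theorem Br4_pull_glue {n k : ℕ} (u : W.H (X.pow n)) (v : W.H (X.pow k)) :
    W.pull (Br4_glue X n k) (W.box2 u v) =
      W.p1 (X.pow n) (X.pow k) u * W.p2 (X.pow n) (X.pow k) v := by
  unfold box2
  rw [map_mul, ← W.pull_comp, ← W.pull_comp, Br4_glue_fst, Br4_glue_snd]

theorem Br4_pull_split {n k : ℕ} (u : W.H (X.pow n)) (v : W.H (X.pow k)) :
    W.pull (Br4_split X n k) (W.p1 (X.pow n) (X.pow k) u * W.p2 (X.pow n) (X.pow k) v) =
      W.box2 u v := by
  unfold box2 Br4_split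
  rw [map_mul, ← W.pull_comp, ← W.pull_comp, Obj.lift_fst, Obj.lift_snd]

/-- The external product: with the morphisms `X^(n+k) → X^n × X^k` (components `Obj.sel X (Fin.castAdd k)`
and `Obj.sel X (Fin.natAdd n)`) and `X^n × X^k → X^(n+k)` (`Obj.liftP`), which are inverse to each
other (`Obj.pow_hom_ext`), `Φ = (pull j) ∘ extHom φ ψ ∘ (pull j⁻¹)`; `box2 u v` is
`pull j (p1 u * p2 v)`. -/
theorem exists_box [CharZero K] {n n' k k' : ℕ} {φ : W.H (X.pow n) →ₗ[K] W.H (X.pow n')}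
    {ψ : W.H (X.pow k) →ₗ[K] W.H (X.pow k')} (hφ : φ ∈ W.algHom (X.pow n) (X.pow n'))
    (hψ : ψ ∈ W.algHom (X.pow k) (X.pow k')) :
    ∃ Φ ∈ W.algHom (X.pow (n + k)) (X.pow (n' + k')), ∀ (u : W.H (X.pow n)) (v : W.H (X.pow k)),
      Φ (W.box2 u v) = W.box2 (φ u) (ψ v) := by
  refine ⟨(W.pull (Br4_split X n' k')).toLinearMap ∘ₗ W.extHom φ ψ ∘ₗ
    (W.pull (Br4_glue X n k)).toLinearMap, ?_, fun u v => ?_⟩
  · exact W.comp_mem_algHom (W.comp_mem_algHom (W.pull_mem_algHom _)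
      (W.extHom_mem_algHom hφ hψ)) (W.pull_mem_algHom _)
  · change W.pull (Br4_split X n' k') (W.extHom φ ψ (W.pull (Br4_glue X n k) (W.box2 u v))) = _
    rw [Br4_pull_glue, W.extHom_apply, Br4_pull_split]

theorem Br4_box2_sum {n k : ℕ} {ι κ : Type} [Fintype ι] [Fintype κ] (a : ι → K) (b : κ → K)
    (u : ι → W.H (X.pow n)) (v : κ → W.H (X.pow k)) :
    W.box2 (∑ i, a i • u i) (∑ j, b j • v j) = ∑ p : ι × κ, (a p.1 * b p.2) • W.box2 (u p.1) (v p.2) := by
  unfold box2
  rw [map_sum, map_sum, Finset.sum_mul_sum, Fintype.sum_prod_type]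
  refine Finset.sum_congr rfl fun i _ => Finset.sum_congr rfl fun j _ => ?_
  rw [map_smul, map_smul, smul_mul_smul_comm]

omit [Fintype α] [DecidableEq α] in
theorem Br4_append_bs {n k : ℕ} (c₁ : Fin n → α) (c₂ : Fin k → α) :
    Fin.append (fun s => bs (c₁ s)) (fun s => bs (c₂ s)) = fun s => bs (Fin.append c₁ c₂ s) := by
  funext s
  refine Fin.addCases (fun i => ?_) (fun i => ?_) s
  · rw [Fin.append_left, Fin.append_left]
  · rw [Fin.append_right, Fin.append_right]

/-- Take `e : S ≃ Fin n`, `e' : S' ≃ Fin n'`, `f : T ≃ Fin k`, `f' : T' ≃ Fin k'` and the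
identification `(Equiv.sumCongr e f).trans finSumFinEquiv : S ⊕ T ≃ Fin (n + k)`; by `mem_PP` it is
enough to see that `mkL .. (kr A B)` is the `Φ` of `exists_box`: compare the values on the basis vectors
`W.pureT (bs ∘ c)`, `c = Fin.append c₁ c₂`, with `box2_pureT` and `mkL_pureT`. -/
theorem kr_mem_PP [CharZero K] (hpar : W.par X ∈ W.algHom X X) {S S' T T' : Type} [Fintype S]
    [DecidableEq S] [Fintype S'] [DecidableEq S'] [Fintype T] [DecidableEq T] [Fintype T']
    [DecidableEq T'] {A : Matrix (S' → α) (S → α) K} {B : Matrix (T' → α) (T → α) K}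
    (hA : A ∈ PP W bs S S') (hB : B ∈ PP W bs T T') : kr A B ∈ PP W bs (S ⊕ T) (S' ⊕ T') := by
  let e := Fintype.equivFin S
  let e' := Fintype.equivFin S'
  let f := Fintype.equivFin T
  let f' := Fintype.equivFin T'
  obtain ⟨Φ, hΦ, hΦv⟩ := exists_box W (hA _ _ e e') (hB _ _ f f')
  refine mem_PP W bs hpar ((Equiv.sumCongr e f).trans finSumFinEquiv)
    ((Equiv.sumCongr e' f').trans finSumFinEquiv) ?_
  have key : mkL W bs ((Equiv.sumCongr e f).trans finSumFinEquiv)
      ((Equiv.sumCongr e' f').trans finSumFinEquiv) (kr A B) = Φ := by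
    refine (pB W bs _).ext fun c => ?_
    obtain ⟨⟨c₁, c₂⟩, rfl⟩ := (Fin.appendEquiv (α := α) (Fintype.card S) (Fintype.card T)).surjective c
    rw [pB_apply, mkL_pureT]
    have h1 : (W.pureT fun s => bs (Fin.appendEquiv (α := α) (Fintype.card S) (Fintype.card T)
        (c₁, c₂) s)) = W.box2 (W.pureT fun s => bs (c₁ s)) (W.pureT fun s => bs (c₂ s)) := by
      rw [W.box2_pureT, Br4_append_bs]
      rfl
    rw [h1, hΦv, mkL_pureT, mkL_pureT, Br4_box2_sum]
    refine (Fintype.sum_equiv (Fin.appendEquiv (α := α) (Fintype.card S') (Fintype.card T'))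
      _ _ fun p => ?_).symm
    rw [W.box2_pureT, Br4_append_bs]
    have h2 : kr A B ((Fin.appendEquiv (α := α) (Fintype.card S') (Fintype.card T') p) ∘
        ((Equiv.sumCongr e' f').trans finSumFinEquiv))
        ((Fin.appendEquiv (α := α) (Fintype.card S) (Fintype.card T) (c₁, c₂)) ∘
          ((Equiv.sumCongr e f).trans finSumFinEquiv)) =
        A (p.1 ∘ e') (c₁ ∘ e) * B (p.2 ∘ f') (c₂ ∘ f) := by
      unfold kr
      rw [Matrix.of_apply]
      congr 2
      · funext s; simp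
      · funext s; simp
      · funext s; simp
      · funext s; simp
    rw [h2]
    rfl
  rw [key]
  exact hΦ

end ZO
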