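import Pool.Agent.W_f569db_zo.Br1

set_option autoImplicit false

/-!
# Bridge 5: the form `g i j = Tr (b_i b_j)` and its inverse are algebraic on all powers
-/

noncomputable section

namespace ZO

open AlgebraicGeometry CategoryTheory MonoidalCategory
open scoped TensorProduct DirectSum
open Pool.Agent.WeilH_h6 Pool.Agent.WeilH_h6.VarClass Pool.Agent.WeilH_h6.Weil

universe u v w

variable {k : Type u} [Field k] {𝒱 : VarClass k} {K : Type v} [Field K] (W : Weil.{u, v, w} 𝒱 K)
variable {X : 𝒱.Obj} {α : Type} [Fintype α] [DecidableEq α] (bs : Module.Basis α K (W.H X))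

/-- the matrix of the Poincaré pairing -/
def gX : Matrix α α K := Matrix.of fun i j => W.tr X (bs i * bs j)

/-- Poincaré duality -/
theorem gX_unit : IsUnit (gX W bs) := by
  rw [← Matrix.vecMul_injective_iff_isUnit]
  have key : ∀ v : α → K, Matrix.vecMul v (gX W bs) = 0 → v = 0 := by
    intro v hv
    have h1 : ∑ i, v i • bs i = 0 := by
      refine W.duality X _ fun y => ?_
      have h2 : (W.tr X ∘ₗ LinearMap.mulLeft K (∑ i, v i • bs i)) = 0 := by
        refine bs.ext fun j => ?_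
        have h3 := congrFun hv j
        rw [Matrix.vecMul, dotProduct] at h3
        rw [LinearMap.comp_apply, LinearMap.mulLeft_apply, Finset.sum_mul, map_sum,
          LinearMap.zero_apply]
        refine Eq.trans (Finset.sum_congr rfl fun i _ => ?_) h3
        rw [smul_mul_assoc, map_smul, smul_eq_mul]
        rfl
      exact LinearMap.congr_fun h2 y
    exact funext fun i => Fintype.linearIndependent_iff.1 bs.linearIndependent v h1 i
  intro v w hvw
  have h4 : Matrix.vecMul (v - w) (gX W bs) = 0 := by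
    rw [Matrix.sub_vecMul]
    exact sub_eq_zero.2 hvw
  exact sub_eq_zero.1 (key _ h4)

/-- the functional `x ↦ Tr (x a) • 1` with values in `H(pt) = H(X^0)` is algebraic for `a` in
`algSpan`: composition of the multiplication by `a` (central, `mulLeft_mem_algHom`) with the
push-forward to the point (`exists_push`, `tr_pt_one`, `eq_smul_one`) -/
theorem exists_functional {n : ℕ} {a : W.H (X.pow n)} (ha : a ∈ W.algSpan (X.pow n)) :
    ∃ φ ∈ W.algHom (X.pow n) (X.pow 0), ∀ x, φ x = W.tr (X.pow n) (x * a) • (1 : W.H (X.pow 0)) := by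
  obtain ⟨φ, hφ, h⟩ := W.exists_push (Obj.toPt (X.pow n))
  refine ⟨φ ∘ₗ LinearMap.mulLeft K a, W.comp_mem_algHom (W.mulLeft_mem_algHom ha) hφ, fun x => ?_⟩
  have h1 : W.tr (Obj.pt : 𝒱.Obj) (φ (a * x)) = W.tr (X.pow n) (x * a) := by
    have h2 := h (a * x) 1
    rw [mul_one, map_one, mul_one] at h2
    rw [h2, W.central ha]
  have h3 : φ (a * x) = W.tr (Obj.pt : 𝒱.Obj) (φ (a * x)) • (1 : W.H (Obj.pt : 𝒱.Obj)) :=
    W.eq_smul_one _
  rw [h1] at h3
  exact h3

/-- conversely every algebraic functional is of this form -/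
theorem functional_eq {n : ℕ} {φ : W.H (X.pow n) →ₗ[K] W.H (X.pow 0)}
    (hφ : φ ∈ W.algHom (X.pow n) (X.pow 0)) :
    ∃ a ∈ W.algSpan (X.pow n), ∀ x, φ x = W.tr (X.pow n) (x * a) • (1 : W.H (X.pow 0)) := by
  obtain ⟨γ, hγ, h⟩ := W.mem_algHom_iff.1 hφ
  obtain ⟨b, hb, hb'⟩ := W.push_algSpan (Obj.fst (X.pow n) (X.pow 0)) hγ
  refine ⟨b, hb, fun x => ?_⟩
  have h1 : W.tr (X.pow 0) (φ x) = W.tr (X.pow n) (x * b) := by
    have h2 := h x 1
    rw [mul_one, map_one, mul_one, ← hb'] at h2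
    rw [h2, W.central hb]
  have h3 : φ x = W.tr (Obj.pt : 𝒱.Obj) (φ x) • (1 : W.H (Obj.pt : 𝒱.Obj)) :=
    W.eq_smul_one _
  rw [← h1]
  exact h3

/-- algebraic maps from the point: `φ 1 ∈ algSpan`, and every element of `algSpan` occurs -/
theorem exists_vector {n : ℕ} {a : W.H (X.pow n)} (ha : a ∈ W.algSpan (X.pow n)) :
    ∃ φ ∈ W.algHom (X.pow 0) (X.pow n), φ 1 = a := by
  refine ⟨LinearMap.mulLeft K a ∘ₗ (W.pull (Obj.toPt (X.pow n))).toLinearMap,
    W.comp_mem_algHom (W.pull_mem_algHom (Obj.toPt (X.pow n))) (W.mulLeft_mem_algHom ha), ?_⟩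
  change a * W.pull (Obj.toPt (X.pow n)) 1 = a
  rw [map_one, mul_one]

/-- the pairs `inl s, inr s` are consecutive letters -/
def Br5_e {S : Type} {n : ℕ} (e : S ≃ Fin n) : S ⊕ S ≃ Fin (n * 2) where
  toFun := Sum.elim (fun s => finProdFinEquiv (e s, (0 : Fin 2)))
    (fun s => finProdFinEquiv (e s, (1 : Fin 2)))
  invFun t := if (finProdFinEquiv.symm t).2 = 0 then Sum.inl (e.symm (finProdFinEquiv.symm t).1)
    else Sum.inr (e.symm (finProdFinEquiv.symm t).1)
  left_inv x := by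
    rcases x with s | s
    · simp
    · simp
  right_inv t := by
    have h1 : finProdFinEquiv (finProdFinEquiv.symm t) = t := Equiv.apply_symm_apply _ _
    rcases h : (finProdFinEquiv.symm t : Fin n × Fin 2) with ⟨j, i⟩
    rw [h] at h1
    fin_cases i
    · simpa [h] using h1
    · simpa [h] using h1

/-- `capM g S ∈ P (S ⊕ S) Empty`: the functional `pureT (append u v) ↦ ∏ Tr (u_s v_s)` is the
composition of an unsigned permutation `Fin (n + n) ≃ Fin (n * 2)` (`exists_uperm'`) and the functional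
`x ↦ Tr (x * theta X n)` (`tr_pureT_theta`, `theta_mem`, `exists_functional`). -/
theorem cap_mem_PP [CharZero K] (hpar : W.par X ∈ W.algHom X X) (S : Type) [Fintype S]
    [DecidableEq S] : capM (gX W bs) S ∈ PP W bs (S ⊕ S) Empty := by
  classical
  let e0 : S ≃ Fin (Fintype.card S) := Fintype.equivFin S
  let e' : Empty ≃ Fin 0 := Equiv.equivOfIsEmpty Empty (Fin 0)
  refine mem_PP W bs hpar (Br5_e e0) e' ?_
  obtain ⟨φ, hφ, h⟩ := exists_functional W (W.theta_mem X (Fintype.card S))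
  have h1 : mkL W bs (Br5_e e0) e' (capM (gX W bs) S) = φ := by
    refine (pB W bs _).ext fun c => ?_
    rw [h, pB_apply, mkL_pureT, W.tr_pureT_theta]
    have h2 : ∀ c' : Fin 0 → α, capM (gX W bs) S (c' ∘ e') (c ∘ Br5_e e0) •
        (W.pureT fun s => bs (c' s)) =
        (∏ j : Fin (Fintype.card S), W.tr X (bs (c (finProdFinEquiv (j, (0 : Fin 2)))) *
          bs (c (finProdFinEquiv (j, (1 : Fin 2)))))) • (1 : W.H (X.pow 0)) := by
      intro c'
      rw [W.pureT_zero]
      congr 1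
      change ∏ s, W.tr X (bs (c (finProdFinEquiv (e0 s, (0 : Fin 2)))) *
        bs (c (finProdFinEquiv (e0 s, (1 : Fin 2))))) = _
      exact e0.prod_comp fun j => W.tr X (bs (c (finProdFinEquiv (j, (0 : Fin 2)))) *
        bs (c (finProdFinEquiv (j, (1 : Fin 2)))))
    rw [Finset.sum_congr rfl fun c' _ => h2 c', Fintype.sum_unique]
  rw [h1]
  exact hφ

/-- The diagonal class in coordinates, for a basis of even and odd elements:
`δ = ∑ g'_{ij} b_i × b_j` with `g' = g⁻¹`.  For all `v`, `w` (even or odd):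
`Tr ((b_i × b_j) (v × w)) = (-1)^(π_j |v|) Tr (b_i v) Tr (b_j w)` (`supercomm`, `tr_prod`),
`Tr (b_i v) = (-1)^(|v|) Tr (v b_i)` (`tr_comm`), `Tr (b_i v) ≠ 0` only if `π_i ≡ |v|` mod 2 (`tr_par`),
`g'_{ij} ≠ 0` only if `π_i ≡ π_j`; so the sum over `i, j` is
`∑ g'_{ij} Tr (v b_i) Tr (b_j w) = Tr (v w)`.  Then `ext_tr` with `kunneth_induction`, `tr_delta`. -/
theorem delta_eq [CharZero K] {π : α → ℕ}
    (hπ : ∀ i, W.par X (bs i) = ((-1 : K) ^ (π i)) • bs i) :
    W.delta X = ∑ i, ∑ j, (gX W bs)⁻¹ i j • (W.p1 X X (bs i) * W.p2 X X (bs j)) := by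
  -- parity of the form
  have hg : ∀ i j, ((-1 : K) ^ (π i)) * gX W bs i j = ((-1 : K) ^ (π j)) * gX W bs i j := by
    intro i j
    have h1 : gX W bs i j = ((-1 : K) ^ (π i)) * (((-1 : K) ^ (π j)) * gX W bs i j) := by
      have h2 := W.tr_par (bs i * bs j)
      rw [W.par_mul, hπ, hπ, smul_mul_assoc, mul_smul_comm, map_smul, map_smul, smul_eq_mul,
        smul_eq_mul] at h2
      exact h2.symm
    conv_lhs => rw [h1]
    rw [← mul_assoc, ← mul_pow]
    simp
  have hgp : ∀ (m : ℕ) i j, (((-1 : K) ^ (π i)) ^ m) * gX W bs i j =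
      (((-1 : K) ^ (π j)) ^ m) * gX W bs i j := by
    intro m i j
    induction m with
    | zero => simp
    | succ m ih => rw [pow_succ, pow_succ, mul_assoc, hg, mul_left_comm, ih]; ring
  have hsw : ∀ i j, gX W bs i j = ((-1 : K) ^ (π i)) * gX W bs j i := by
    intro i j
    have h1 := W.tr_comm (bs i) (bs j)
    rw [hπ, mul_smul_comm, map_smul, smul_eq_mul] at h1
    exact h1
  -- the four-fold products
  have hterm : ∀ i j a b, W.tr (X.prod X) ((W.p1 X X (bs i) * W.p2 X X (bs j)) *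
      (W.p1 X X (bs a) * W.p2 X X (bs b))) =
      ((-1 : K) ^ (π j * π a)) * (gX W bs i a * gX W bs j b) := by
    intro i j a b
    have h1 : W.p2 X X (bs j) * W.p1 X X (bs a) =
        ((-1 : K) ^ (π j * π a)) • (W.p1 X X (bs a) * W.p2 X X (bs j)) := by
      refine W.supercomm ?_ ?_
      · rw [W.par_pull, hπ, map_smul]
      · rw [W.par_pull, hπ, map_smul]
    have h2 : (W.p1 X X (bs i) * W.p2 X X (bs j)) * (W.p1 X X (bs a) * W.p2 X X (bs b)) =
        ((-1 : K) ^ (π j * π a)) • (W.p1 X X (bs i * bs a) * W.p2 X X (bs j * bs b)) := by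
      rw [mul_assoc, ← mul_assoc (W.p2 X X (bs j)), h1, smul_mul_assoc, mul_smul_comm, map_mul,
        map_mul]
      congr 1
      simp only [mul_assoc]
    rw [h2, map_smul, W.tr_prod, smul_eq_mul]
    rfl
  have hunit : IsUnit (gX W bs).det := (Matrix.isUnit_iff_isUnit_det _).1 (gX_unit W bs)
  have hsum : ∀ a b, ∑ i, ∑ j, (gX W bs)⁻¹ i j *
      (((-1 : K) ^ (π j * π a)) * (gX W bs i a * gX W bs j b)) = gX W bs a b := by
    intro a b
    have h1 : ∀ i j, (gX W bs)⁻¹ i j * (((-1 : K) ^ (π j * π a)) * (gX W bs i a * gX W bs j b)) =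
        (((-1 : K) ^ (π b)) ^ (π a) * ((-1 : K) ^ (π a))) *
          (gX W bs a i * (gX W bs)⁻¹ i j * gX W bs j b) := by
      intro i j
      have h2 : ((-1 : K) ^ (π j * π a)) * gX W bs j b =
          (((-1 : K) ^ (π b)) ^ (π a)) * gX W bs j b := by
        rw [pow_mul]
        exact hgp (π a) j b
      have h3 : gX W bs i a = ((-1 : K) ^ (π a)) * gX W bs a i := by
        rw [hsw i a, hg a i]
      calc (gX W bs)⁻¹ i j * (((-1 : K) ^ (π j * π a)) * (gX W bs i a * gX W bs j b)) =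
          (gX W bs)⁻¹ i j * gX W bs i a * (((-1 : K) ^ (π j * π a)) * gX W bs j b) := by ring
        _ = (gX W bs)⁻¹ i j * (((-1 : K) ^ (π a)) * gX W bs a i) *
            ((((-1 : K) ^ (π b)) ^ (π a)) * gX W bs j b) := by rw [h2, h3]
        _ = _ := by ring
    rw [Finset.sum_congr rfl fun i _ => Finset.sum_congr rfl fun j _ => h1 i j]
    simp only [← Finset.mul_sum]
    have h4 : ∑ i, ∑ j, gX W bs a i * (gX W bs)⁻¹ i j * gX W bs j b = gX W bs a b := by
      have h5 : (gX W bs * (gX W bs)⁻¹ * gX W bs) a b = gX W bs a b := by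
        rw [Matrix.mul_nonsing_inv _ hunit, Matrix.one_mul]
      rw [Matrix.mul_apply] at h5
      rw [Finset.sum_comm]
      refine Eq.trans (Finset.sum_congr rfl fun j _ => ?_) h5
      rw [Matrix.mul_apply, Finset.sum_mul]
    rw [h4, mul_assoc, mul_left_comm, ← hgp (π a) a b, ← mul_assoc, ← pow_mul, ← pow_add]
    have h6 : Even (π a + π a * π a) := by
      have := Nat.even_mul_succ_self (π a)
      rw [Nat.mul_succ, add_comm] at this
      exact this
    rw [h6.neg_one_pow, one_mul]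
  -- comparison
  let B : W.H (X.prod X) → (W.H X →ₗ[K] W.H X →ₗ[K] K) := fun γ =>
    ((LinearMap.mul K (W.H (X.prod X))).compl₁₂ (W.p1 X X).toLinearMap
      (W.p2 X X).toLinearMap).compr₂ ((W.tr (X.prod X)) ∘ₗ (LinearMap.mulLeft K γ))
  have hB : ∀ γ v v', B γ v v' = W.tr (X.prod X) (γ * (W.p1 X X v * W.p2 X X v')) :=
    fun γ v v' => rfl
  have hBB : B (W.delta X) =
      B (∑ i, ∑ j, (gX W bs)⁻¹ i j • (W.p1 X X (bs i) * W.p2 X X (bs j))) := by
    refine bs.ext fun a => bs.ext fun b => ?_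
    rw [hB, hB, W.tr_delta, Finset.sum_mul, map_sum]
    refine (hsum a b).symm.trans (Finset.sum_congr rfl fun i _ => ?_)
    rw [Finset.sum_mul, map_sum]
    refine Finset.sum_congr rfl fun j _ => ?_
    rw [smul_mul_assoc, map_smul, hterm, smul_eq_mul]
  refine W.ext_tr fun u => ?_
  refine W.kunneth_induction X X (P := fun u => W.tr _ (W.delta X * u) =
    W.tr _ ((∑ i, ∑ j, (gX W bs)⁻¹ i j • (W.p1 X X (bs i) * W.p2 X X (bs j))) * u)) ?_ ?_ u
  · intro a b ha hb
    rw [mul_add, mul_add, map_add, map_add, ha, hb]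
  · intro x y
    have h1 := LinearMap.congr_fun (LinearMap.congr_fun hBB x) y
    rw [hB, hB] at h1
    exact h1

/-- `theta` in coordinates: product of the pull-backs of `δ` (`delta_eq`), expanded;
`LamB_pureT`. -/
theorem theta_eq [CharZero K] {π : α → ℕ}
    (hπ : ∀ i, W.par X (bs i) = ((-1 : K) ^ (π i)) • bs i) (R : ℕ) :
    W.theta X R = ∑ c : Fin R × Fin 2 → α, (∏ j, (gX W bs)⁻¹ (c (j, 0)) (c (j, 1))) •
      W.pureT fun t => bs (c (finProdFinEquiv.symm t)) := by
  have h1 : ∀ j : Fin R, W.pull (pairM X R j) (W.delta X) = ∑ p : α × α,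
      (gX W bs)⁻¹ p.1 p.2 • (W.pull (Obj.proj X (R * 2) (finProdFinEquiv (j, 0))) (bs p.1) *
        W.pull (Obj.proj X (R * 2) (finProdFinEquiv (j, 1))) (bs p.2)) := by
    intro j
    rw [delta_eq W bs hπ, map_sum, Fintype.sum_prod_type]
    refine Finset.sum_congr rfl fun i _ => ?_
    rw [map_sum]
    refine Finset.sum_congr rfl fun i' _ => ?_
    rw [map_smul, W.Lam_pull_pairM]
  have h2 : W.theta X R = MultilinearMap.mkPiAlgebraFin K R (W.H (X.pow (R * 2)))
      (fun j => W.pull (pairM X R j) (W.delta X)) := by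
    rw [MultilinearMap.mkPiAlgebraFin_apply]
    rfl
  rw [h2, funext h1, MultilinearMap.map_sum]
  let E : (Fin R × Fin 2 → α) ≃ (Fin R → α × α) :=
    (Equiv.curry (Fin R) (Fin 2) α).trans (Equiv.arrowCongr (Equiv.refl _) (finTwoArrowEquiv α))
  refine (Fintype.sum_equiv E _ _ fun c => ?_).symm
  have hE : ∀ j, E c j = (c (j, 0), c (j, 1)) := fun j => rfl
  rw [MultilinearMap.map_smul_univ, W.LamB_pureT, MultilinearMap.mkPiAlgebraFin_apply]
  simp only [hE, Equiv.symm_apply_apply]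

/-- `cupM g' S ∈ P Empty (S ⊕ S)`: `exists_vector` for `theta`, followed by an unsigned permutation -/
theorem cup_mem_PP [CharZero K] (hpar : W.par X ∈ W.algHom X X) {π : α → ℕ}
    (hπ : ∀ i, W.par X (bs i) = ((-1 : K) ^ (π i)) • bs i) (S : Type) [Fintype S]
    [DecidableEq S] : cupM (gX W bs)⁻¹ S ∈ PP W bs Empty (S ⊕ S) := by
  classical
  let e0 : S ≃ Fin (Fintype.card S) := Fintype.equivFin S
  let e' : Empty ≃ Fin 0 := Equiv.equivOfIsEmpty Empty (Fin 0)
  refine mem_PP W bs hpar e' (Br5_e e0) ?_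
  obtain ⟨φ, hφ, h⟩ := exists_vector W (W.theta_mem X (Fintype.card S))
  have h1 : mkL W bs e' (Br5_e e0) (cupM (gX W bs)⁻¹ S) = φ := by
    refine (pB W bs _).ext fun c => ?_
    rw [pB_apply, mkL_pureT, W.pureT_zero, h, theta_eq W bs hπ]
    refine (Fintype.sum_equiv (Equiv.arrowCongr finProdFinEquiv (Equiv.refl α)) _ _
      fun c' => ?_).symm
    congr 1
    change _ = ∏ s, (gX W bs)⁻¹ (c' (finProdFinEquiv.symm (finProdFinEquiv (e0 s, (0 : Fin 2)))))
      (c' (finProdFinEquiv.symm (finProdFinEquiv (e0 s, (1 : Fin 2)))))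
    simp only [Equiv.symm_apply_apply]
    exact (e0.prod_comp fun j => (gX W bs)⁻¹ (c' (j, 0)) (c' (j, 1))).symm
  rw [h1]
  exact hφ

end ZO
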