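import Pool.Agent.W_f569db_zo.Br4
import Pool.Agent.W_f569db_zo.Br5
import Pool.Agent.W_f569db_zo.Main

set_option autoImplicit false

/-!
# Bridge 7: the system of a variety, and its dimensions
-/

noncomputable section

namespace ZO

open AlgebraicGeometry CategoryTheory MonoidalCategory
open scoped TensorProduct DirectSum
open Pool.Agent.WeilH_h6 Pool.Agent.WeilH_h6.VarClass Pool.Agent.WeilH_h6.Weil

universe u v w

variable {k : Type u} [Field k] {𝒱 : VarClass k} {K : Type v} [Field K] (W : Weil.{u, v, w} 𝒱 K)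
variable {X : 𝒱.Obj} {α : Type} [Fintype α] [DecidableEq α] (bs : Module.Basis α K (W.H X))

/-- the numerically trivial elements of the `K`-span of the algebraic classes -/
def ntSub (Y : 𝒱.Obj) : Submodule K (W.H Y) where
  carrier := {a | W.NT a}
  add_mem' := by
    rintro a b ⟨h1, h2⟩ ⟨h3, h4⟩
    exact ⟨Submodule.add_mem _ h1 h3, fun c hc => by
      rw [add_mul, map_add, h2 c hc, h4 c hc, add_zero]⟩
  zero_mem' := ⟨Submodule.zero_mem _, fun c _ => by rw [zero_mul, map_zero]⟩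
  smul_mem' := by
    rintro c a ⟨h1, h2⟩
    exact ⟨Submodule.smul_mem _ _ h1, fun d hd => by
      rw [smul_mul_assoc, map_smul, h2 d hd, smul_zero]⟩

/-- the system attached to a variety with algebraic parity operator -/
def sysX [CharZero K] (hpar : W.par X ∈ W.algHom X X) {π : α → ℕ}
    (hπ : ∀ i, W.par X (bs i) = ((-1 : K) ^ (π i)) • bs i) : Sys α K where
  P := PP W bs
  g := gX W bs
  g' := (gX W bs)⁻¹
  gg' := Matrix.mul_nonsing_inv _ ((Matrix.isUnit_iff_isUnit_det _).1 (gX_unit W bs))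
  g'g := Matrix.nonsing_inv_mul _ ((Matrix.isUnit_iff_isUnit_det _).1 (gX_unit W bs))
  one_mem := fun S => one_mem_PP W bs hpar S
  mul_mem := fun hA hB => mul_mem_PP W bs hpar hA hB
  kr_mem := fun hA hB => kr_mem_PP W bs hpar hA hB
  pm_mem := fun e => pm_mem_PP W bs hpar e
  cap_mem := fun S => cap_mem_PP W bs hpar S
  cup_mem := fun S => cup_mem_PP W bs hpar hπ S

omit [Fintype α] [DecidableEq α] in
/-- linear maps from `H(pt)` are determined by the value at `1` -/
theorem br7_pt_ext {V : Type*} [AddCommGroup V] [Module K V] {φ ψ : W.H (X.pow 0) →ₗ[K] V}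
    (h : φ 1 = ψ 1) : φ = ψ := by
  refine LinearMap.ext fun x => ?_
  have hx : x = W.tr Obj.pt x • (1 : W.H (X.pow 0)) := W.eq_smul_one x
  rw [hx, map_smul, map_smul, h]

/-- `A ↦ (mkL A) 1` -/
def br7Ψ (n : ℕ) : Matrix (Fin n → α) (Empty → α) K →ₗ[K] W.H (X.pow n) :=
  (LinearMap.applyₗ (1 : W.H (X.pow 0))).comp
    (mkL W bs (Equiv.equivOfIsEmpty Empty (Fin 0)) (Equiv.refl (Fin n))).toLinearMap

theorem br7Ψ_apply (n : ℕ) (A : Matrix (Fin n → α) (Empty → α) K) :
    br7Ψ W bs n A = mkL W bs (Equiv.equivOfIsEmpty Empty (Fin 0)) (Equiv.refl (Fin n)) A 1 := rfl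

theorem br7Ψ_inj (n : ℕ) : Function.Injective (br7Ψ W bs n) := by
  intro A B h
  rw [br7Ψ_apply, br7Ψ_apply] at h
  exact (mkL W bs _ _).injective (br7_pt_ext W h)

theorem br7_entry (M : Matrix (Empty → α) (Empty → α) K) : M = Matrix.trace M • 1 := by
  ext c d
  have hc : c = default := Subsingleton.elim _ _
  have hd : d = default := Subsingleton.elim _ _
  subst hc hd
  rw [Matrix.smul_apply, Matrix.one_apply_eq, smul_eq_mul, mul_one, Matrix.trace,
    Fintype.sum_unique]
  rfl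

theorem br7_trace {n : ℕ} (A : Matrix (Fin n → α) (Empty → α) K)
    (B : Matrix (Empty → α) (Fin n → α) K) {b : W.H (X.pow n)}
    (hB : ∀ x, mkL W bs (Equiv.refl (Fin n)) (Equiv.equivOfIsEmpty Empty (Fin 0)) B x =
      W.tr (X.pow n) (x * b) • (1 : W.H (X.pow 0))) :
    Matrix.trace (A * B) = W.tr (X.pow n) (br7Ψ W bs n A * b) := by
  have h1 := mkL_mul W bs (Equiv.equivOfIsEmpty Empty (Fin 0)) (Equiv.refl (Fin n))
    (Equiv.equivOfIsEmpty Empty (Fin 0)) B A
  have h2 : mkL W bs (Equiv.equivOfIsEmpty Empty (Fin 0)) (Equiv.equivOfIsEmpty Empty (Fin 0))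
      (B * A) (1 : W.H (X.pow 0)) =
        W.tr (X.pow n) (br7Ψ W bs n A * b) • (1 : W.H (X.pow 0)) := by
    rw [h1, LinearMap.comp_apply, hB, br7Ψ_apply]
  rw [br7_entry (B * A), map_smul, mkL_one, LinearMap.smul_apply, LinearMap.id_apply] at h2
  have h3 := congrArg (W.tr Obj.pt) h2
  have h4 : W.tr (Obj.pt : 𝒱.Obj) 1 = 1 := W.tr_pt_one
  change W.tr Obj.pt (Matrix.trace (B * A) • (1 : W.H Obj.pt)) =
    W.tr Obj.pt (W.tr (X.pow n) (br7Ψ W bs n A * b) • (1 : W.H Obj.pt)) at h3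
  rw [map_smul, map_smul, h4, smul_eq_mul, smul_eq_mul, mul_one, mul_one] at h3
  rw [Matrix.trace_mul_comm, h3]

theorem br7_map_P [CharZero K] (hpar : W.par X ∈ W.algHom X X) (n : ℕ) :
    (PP W bs Empty (Fin n)).map (br7Ψ W bs n) = W.algSpan (X.pow n) := by
  apply le_antisymm
  · rintro _ ⟨A, hA, rfl⟩
    rw [br7Ψ_apply]
    exact W.algHom_apply_mem (hA 0 n _ _) (W.one_mem_algSpan _)
  · intro a ha
    obtain ⟨φ, hφ, h1⟩ := exists_vector W ha
    refine ⟨(mkL W bs (Equiv.equivOfIsEmpty Empty (Fin 0)) (Equiv.refl (Fin n))).symm φ, ?_, ?_⟩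
    · refine mem_PP W bs hpar (Equiv.equivOfIsEmpty Empty (Fin 0)) (Equiv.refl (Fin n)) ?_
      rwa [LinearEquiv.apply_symm_apply]
    · rw [br7Ψ_apply, LinearEquiv.apply_symm_apply, h1]

variable [CharZero K] (hpar : W.par X ∈ W.algHom X X) {π : α → ℕ}
  (hπ : ∀ i, W.par X (bs i) = ((-1 : K) ^ (π i)) • bs i)

theorem br7_map_N (n : ℕ) :
    ((sysX W bs hpar hπ).N Empty (Fin n)).map (br7Ψ W bs n) = ntSub W (X.pow n) := by
  apply le_antisymm
  · rintro _ ⟨A, hA, rfl⟩
    obtain ⟨hA1, hA2⟩ := (Sys.mem_N _).1 hA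
    refine ⟨?_, fun b hb => ?_⟩
    · rw [← br7_map_P W bs hpar n]
      exact ⟨A, hA1, rfl⟩
    · obtain ⟨φ, hφ, h1⟩ := exists_functional W hb
      have h2 : (mkL W bs (Equiv.refl (Fin n)) (Equiv.equivOfIsEmpty Empty (Fin 0))).symm φ ∈
          PP W bs (Fin n) Empty := by
        refine mem_PP W bs hpar (Equiv.refl (Fin n)) (Equiv.equivOfIsEmpty Empty (Fin 0)) ?_
        rwa [LinearEquiv.apply_symm_apply]
      have h3 := hA2 _ h2
      rwa [br7_trace W bs A _ (b := b) (fun x => by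
        rw [LinearEquiv.apply_symm_apply, h1])] at h3
  · intro a ha
    have ha1 : a ∈ W.algSpan (X.pow n) := ha.1
    rw [← br7_map_P W bs hpar n] at ha1
    obtain ⟨A, hA1, rfl⟩ := ha1
    refine ⟨A, (Sys.mem_N _).2 ⟨hA1, fun B hB => ?_⟩, rfl⟩
    obtain ⟨b, hb, h1⟩ := functional_eq W (hB n 0 (Equiv.refl (Fin n))
      (Equiv.equivOfIsEmpty Empty (Fin 0)))
    rw [br7_trace W bs A B h1]
    exact ha.2 b hb

/-- `A ↦ (mkL .. A) 1` is an isomorphism of `P Empty (Fin n)` onto `algSpan (X^n)`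
(`exists_vector`, `algHom_apply_mem`, `one_mem_algSpan`) -/
theorem h_sysX (n : ℕ) : (sysX W bs hpar hπ).h n = Module.finrank K (W.algSpan (X.pow n)) := by
  change (Module.finrank K (PP W bs Empty (Fin n)) : ℝ) = _
  rw [← br7_map_P W bs hpar n, main_finrank_map (br7Ψ_inj W bs n)]

/-- the same isomorphism maps `N Empty (Fin n)` onto `ntSub (X^n)`: for `A ∈ P Empty (Fin n)` with
`a = (mkL A) 1` and `B ∈ P (Fin n) Empty` with `mkL B = Tr (· * b) • 1` (`functional_eq`,
`exists_functional`): `trace (A * B) = trace (B * A)`, which is the only entry of `B * A`,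
`mkL (B * A) 1 = Tr (a b) • 1`. -/
theorem A_sysX (n : ℕ) : (sysX W bs hpar hπ).A n =
    (Module.finrank K (W.algSpan (X.pow n)) : ℝ) - Module.finrank K (ntSub W (X.pow n)) := by
  change (Module.finrank K (PP W bs Empty (Fin n)) : ℝ) -
    Module.finrank K ((sysX W bs hpar hπ).N Empty (Fin n)) = _
  rw [← br7_map_P W bs hpar n, main_finrank_map (br7Ψ_inj W bs n), ← br7_map_N W bs hpar hπ n,
    main_finrank_map (br7Ψ_inj W bs n)]

/-- numerically trivial algebraic classes give elements of `N` -/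
theorem exists_N {d : ℕ} {a : W.H (X.pow d)} (ha : W.NT a) (ha0 : a ≠ 0) :
    ∃ z ∈ (sysX W bs hpar hπ).N Empty (Fin d), z ≠ 0 := by
  have h1 : a ∈ ntSub W (X.pow d) := ha
  rw [← br7_map_N W bs hpar hπ d] at h1
  obtain ⟨z, hz, rfl⟩ := h1
  refine ⟨z, hz, ?_⟩
  rintro rfl
  exact ha0 (map_zero _)

/-- There is an algebraic class with trace `1` on every variety: the class of a point `x` with
`coheight x = dim` (if `krullDim` is finite take the first element of a chain of maximal length; if it is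
infinite then `dim = 0` by definition and the generic point will do). -/
theorem exists_tr_one_alg (Y : 𝒱.Obj) : ∃ p ∈ W.algSpan Y, W.tr Y p = 1 := by
  have hint := 𝒱.integral Y.X Y.mem
  have hex : ∃ x : Y.X.left, Order.coheight x = (Y.dim : ℕ∞) := by
    by_cases htop : Order.krullDim Y.X.left = ⊤
    · have hd : Y.dim = 0 := by
        unfold Obj.dim
        rw [htop]
        rfl
      refine ⟨genericPoint Y.X.left, ?_⟩
      rw [hd, Nat.cast_zero, Order.coheight_eq_zero]
      intro y _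
      exact genericPoint_specializes y
    · have hne : Nonempty Y.X.left := inferInstance
      have hbot : Order.krullDim Y.X.left ≠ ⊥ := by
        rw [Ne, Order.krullDim_eq_bot_iff]
        exact not_isEmpty_of_nonempty _
      obtain ⟨e, he⟩ := WithBot.ne_bot_iff_exists.1 hbot
      have he' : e ≠ ⊤ := by
        rintro rfl
        exact htop he.symm
      obtain ⟨m, rfl⟩ := ENat.ne_top_iff_exists.1 he'
      have hd : Y.dim = m := by
        unfold Obj.dim
        rw [← he]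
        rfl
      obtain ⟨l, hl⟩ := Order.le_krullDim_iff.1 (le_of_eq he)
      refine ⟨l.head, ?_⟩
      rw [hd]
      apply le_antisymm
      · have h1 := Order.coheight_le_krullDim l.head
        rw [← he] at h1
        exact WithBot.coe_le_coe.1 h1
      · rw [← hl]
        exact Order.length_le_coheight le_rfl
  obtain ⟨x, hx⟩ := hex
  refine ⟨W.clPt Y x, ?_, W.tr_clPt Y x hx⟩
  have h1 : W.cl (Finsupp.single (⟨x, hx⟩ : {x : Y.X.left //
      Order.coheight x = ((Y.dim : ℕ) : ℕ∞)}) 1 : Cyc Y Y.dim) = W.clPt Y x := by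
    unfold Weil.cl cycSum
    rw [Finsupp.sum_single_index]
    · simp only [Rat.cast_one, one_smul]
    · simp
  rw [← h1]
  exact W.cl_mem_algSpan _

/-- the unit class and the class of a point -/
theorem exists_uv : ∃ (u : Matrix (Unit → α) (Empty → α) K) (v : Matrix (Empty → α) (Unit → α) K),
    u ∈ (sysX W bs hpar hπ).P Empty Unit ∧ v ∈ (sysX W bs hpar hπ).P Unit Empty ∧ v * u = 1 := by
  obtain ⟨p, hp, hp1⟩ := exists_tr_one_alg W (X.pow 1)
  obtain ⟨φ, hφ, h1⟩ := exists_vector W (W.one_mem_algSpan (X.pow 1))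
  obtain ⟨ψ, hψ, h2⟩ := exists_functional W hp
  have e1 : Unit ≃ Fin 1 := Equiv.ofUnique Unit (Fin 1)
  refine ⟨(mkL W bs (Equiv.equivOfIsEmpty Empty (Fin 0)) e1).symm φ,
    (mkL W bs e1 (Equiv.equivOfIsEmpty Empty (Fin 0))).symm ψ, ?_, ?_, ?_⟩
  · refine mem_PP W bs hpar (Equiv.equivOfIsEmpty Empty (Fin 0)) e1 ?_
    rwa [LinearEquiv.apply_symm_apply]
  · refine mem_PP W bs hpar e1 (Equiv.equivOfIsEmpty Empty (Fin 0)) ?_
    rwa [LinearEquiv.apply_symm_apply]
  · apply (mkL W bs (Equiv.equivOfIsEmpty Empty (Fin 0))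
      (Equiv.equivOfIsEmpty Empty (Fin 0))).injective
    rw [mkL_mul W bs _ e1, LinearEquiv.apply_symm_apply, LinearEquiv.apply_symm_apply, mkL_one]
    apply br7_pt_ext W
    rw [LinearMap.comp_apply, h1, h2, one_mul, hp1, one_smul, LinearMap.id_apply]

include W bs in
/-- `H(X) ≠ 0`: `1 ≠ 0` -/
theorem nonempty_of_basis : Nonempty α := by
  by_contra hα
  rw [not_nonempty_iff] at hα
  obtain ⟨x, _, hx⟩ := W.exists_tr_one X
  have h1 : x = 0 := by
    have h2 : bs.repr x = 0 := Subsingleton.elim _ _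
    exact (LinearEquiv.map_eq_zero_iff _).1 h2
  rw [h1, map_zero] at hx
  exact zero_ne_one hx

end ZO
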