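import Pool.Agent.W_f569db_zo.Defs

set_option autoImplicit false

/-!
# Nilpotency from traces, and the semisimple quotient

1. `isNilpotent_of_trace_pow`: in characteristic zero a square matrix with `tr (A ^ k) = 0` for all
   `k ≥ 1` is nilpotent.  (Newton identities, or: over the algebraic closure, if the distinct nonzero
   eigenvalues were `λ_1, ..., λ_r`, `r ≥ 1`, with multiplicities `m_i ≥ 1`, then
   `∑ m_i λ_i ^ k = 0` for all `k ≥ 1`, contradiction by Vandermonde; or: Cayley-Hamilton
   `A^n + c_1 A^{n-1} + ... + c_n = 0`; if `A` is not nilpotent write `X^j * p(X)` for the minimal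
   polynomial with `p(0) ≠ 0`, `deg p ≥ 1`; then `e := 1 - p(A) * u(A)` is a nonzero idempotent
   polynomial in `A` without constant term, so `tr e = 0`, but the trace of a nonzero idempotent is its
   rank, which is not zero in characteristic zero.)
2. `rad_nilp`: the elements of `rad D` are nilpotent (`A^k = A * A^(k-1)` with `A^(k-1) ∈ D`).
3. `exists_quot`: `rad D` is a two-sided ideal of `D` and `D / rad D` is semisimple: `D` is artinian;
   if the class of `x ∈ D` lies in the Jacobson radical of the quotient, which is a nilpotent ideal,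
   then for all `B ∈ D` some power of `x * B` lies in `rad D`, hence `x * B` is nilpotent, hence
   `tr (x * B) = 0`, so `x ∈ rad D`.  (`IsArtinianRing.isSemisimpleRing_iff_jacobson`.)
-/

noncomputable section

namespace ZO

open Matrix Module

universe u v

theorem isNilpotent_of_trace_pow {ι : Type*} [Fintype ι] [DecidableEq ι] {K : Type*} [Field K]
    [CharZero K] (A : Matrix ι ι K) (h : ∀ k : ℕ, 1 ≤ k → Matrix.trace (A ^ k) = 0) :
    IsNilpotent A := by
  classical
  have htr : ∀ p : Polynomial K, p.coeff 0 = 0 → Matrix.trace (Polynomial.aeval A p) = 0 := by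
    intro p hp
    rw [Polynomial.aeval_eq_sum_range, Matrix.trace_sum]
    refine Finset.sum_eq_zero fun k _ => ?_
    rw [Matrix.trace_smul]
    rcases Nat.eq_zero_or_pos k with hk | hk
    · rw [hk, hp, zero_smul]
    · rw [h k hk, smul_zero]
  have hne : minpoly K A ≠ 0 := minpoly.ne_zero (Algebra.IsIntegral.isIntegral A)
  obtain ⟨q, hq1, hq2⟩ :=
    Polynomial.exists_eq_pow_rootMultiplicity_mul_and_not_dvd (minpoly K A) hne 0
  rw [Polynomial.C_0, sub_zero] at hq1 hq2
  set j := (minpoly K A).rootMultiplicity 0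
  have hcop : IsCoprime (Polynomial.X ^ (j + 1)) q :=
    ((Polynomial.irreducible_X.coprime_iff_not_dvd).2 hq2).pow_left
  obtain ⟨u, v, huv⟩ := hcop
  have h0 : Polynomial.aeval A (Polynomial.X ^ j * q) = 0 := by
    rw [← hq1, minpoly.aeval]
  set e : Matrix ι ι K := Polynomial.aeval A (u * Polynomial.X ^ (j + 1)) with he
  have h1e : e + Polynomial.aeval A (v * q) = 1 := by
    rw [he, ← map_add, huv, map_one]
  have hemul : e * Polynomial.aeval A (v * q) = 0 := by
    have h2 : u * Polynomial.X ^ (j + 1) * (v * q) =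
        (u * v * Polynomial.X) * (Polynomial.X ^ j * q) := by ring
    rw [he, ← map_mul, h2, map_mul, h0, mul_zero]
  have hidem : e * e = e := by
    have h3 : e * (e + Polynomial.aeval A (v * q)) = e := by rw [h1e, mul_one]
    rwa [mul_add, hemul, add_zero] at h3
  have htre : Matrix.trace e = 0 := by
    rw [he]
    apply htr
    rw [pow_succ, ← mul_assoc, Polynomial.mul_coeff_zero, Polynomial.coeff_X_zero, mul_zero]
  have he0 : e = 0 := by
    have h4 : IsIdempotentElem (Matrix.toLin' e) := by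
      unfold IsIdempotentElem
      rw [Module.End.mul_eq_comp, ← Matrix.toLin'_mul, hidem]
    have h5 := (LinearMap.IsIdempotentElem.trace_eq_zero_iff h4).1
      (by rw [Matrix.trace_toLin'_eq, htre])
    exact (LinearEquiv.map_eq_zero_iff _).1 h5
  rw [he0, zero_add] at h1e
  refine ⟨j, ?_⟩
  have h6 : A ^ j = Polynomial.aeval A ((Polynomial.X : Polynomial K) ^ j) := by
    rw [map_pow, Polynomial.aeval_X]
  have h7 : A ^ j * Polynomial.aeval A (v * q) = 0 := by
    rw [h6, ← map_mul]
    have h8 : (Polynomial.X : Polynomial K) ^ j * (v * q) = v * (Polynomial.X ^ j * q) := by ring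
    rw [h8, map_mul, h0, mul_zero]
  rwa [h1e, mul_one] at h7

theorem rad_nilp {ι : Type*} [Fintype ι] [DecidableEq ι] {K : Type*} [Field K] [CharZero K]
    {D : Subalgebra K (Matrix ι ι K)} {A : Matrix ι ι K} (hA : A ∈ rad D) : IsNilpotent A := by
  refine isNilpotent_of_trace_pow A fun k hk => ?_
  obtain ⟨m, rfl⟩ := Nat.exists_eq_add_of_le' hk
  rw [pow_succ']
  exact (mem_rad.1 hA).2 _ (pow_mem (mem_rad.1 hA).1 m)

theorem rad_mul_left {ι : Type*} [Fintype ι] [DecidableEq ι] {K : Type*} [Field K]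
    {D : Subalgebra K (Matrix ι ι K)} {A B : Matrix ι ι K} (hA : A ∈ rad D) (hB : B ∈ D) :
    B * A ∈ rad D := by
  refine mem_rad.2 ⟨D.mul_mem hB (mem_rad.1 hA).1, fun C hC => ?_⟩
  rw [Matrix.mul_assoc, Matrix.trace_mul_comm, Matrix.mul_assoc]
  exact (mem_rad.1 hA).2 _ (D.mul_mem hC hB)

theorem rad_mul_right {ι : Type*} [Fintype ι] [DecidableEq ι] {K : Type*} [Field K]
    {D : Subalgebra K (Matrix ι ι K)} {A B : Matrix ι ι K} (hA : A ∈ rad D) (hB : B ∈ D) :
    A * B ∈ rad D := by
  refine mem_rad.2 ⟨D.mul_mem (mem_rad.1 hA).1 hB, fun C hC => ?_⟩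
  rw [Matrix.mul_assoc]
  exact (mem_rad.1 hA).2 _ (D.mul_mem hB hC)

theorem exists_quot {ι : Type u} [Fintype ι] [DecidableEq ι] {K : Type v} [Field K] [CharZero K]
    (D : Subalgebra K (Matrix ι ι K)) :
    ∃ (R : Type (max u v)) (_ : Ring R) (_ : Algebra K R) (_ : Module.Finite K R)
      (_ : IsSemisimpleRing R) (π : D →ₐ[K] R), Function.Surjective π ∧
        ∀ x : D, π x = 0 ↔ (x : Matrix ι ι K) ∈ rad D := by
  let I : Ideal D :=
    { carrier := {x | (x : Matrix ι ι K) ∈ rad D}
      add_mem' := fun {x y} hx hy => by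
        simp only [Set.mem_ofPred_eq] at hx hy ⊢
        exact add_mem hx hy
      zero_mem' := by
        simp only [Set.mem_ofPred_eq]
        exact zero_mem _
      smul_mem' := fun c x hx => by
        simp only [Set.mem_ofPred_eq] at hx ⊢
        exact rad_mul_left hx c.2 }
  have memI : ∀ x : D, x ∈ I ↔ (x : Matrix ι ι K) ∈ rad D := fun x => Iff.rfl
  have hI : I.IsTwoSided := ⟨fun {a} b ha => rad_mul_right ha b.2⟩
  have hsurj : Function.Surjective (Ideal.Quotient.mkₐ K I) := Ideal.Quotient.mkₐ_surjective K I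
  have hfin : Module.Finite K (D ⧸ I) :=
    Module.Finite.of_surjective (Ideal.Quotient.mkₐ K I).toLinearMap hsurj
  have hart : IsArtinianRing (D ⧸ I) := IsArtinianRing.of_finite K (D ⧸ I)
  have hss : IsSemisimpleRing (D ⧸ I) := by
    rw [IsArtinianRing.isSemisimpleRing_iff_jacobson, eq_bot_iff]
    intro x hx
    obtain ⟨n, hn⟩ := IsSemiprimaryRing.isNilpotent (R := D ⧸ I)
    obtain ⟨y, rfl⟩ := hsurj x
    have hy : (y : Matrix ι ι K) ∈ rad D := by
      refine mem_rad.2 ⟨y.2, fun B hB => ?_⟩
      rw [Matrix.trace_mul_comm]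
      have h1 : (Ideal.Quotient.mkₐ K I (⟨B, hB⟩ * y)) ∈ Ring.jacobson (D ⧸ I) := by
        rw [map_mul]
        exact Ideal.mul_mem_left _ _ hx
      have h2 := Ideal.pow_mem_pow h1 n
      rw [hn, ← map_pow] at h2
      have h3 : (⟨B, hB⟩ * y) ^ n ∈ I := by
        rw [← Ideal.Quotient.eq_zero_iff_mem]
        exact h2
      rw [memI] at h3
      have h4 : IsNilpotent ((B * (y : Matrix ι ι K)) ^ n) := rad_nilp h3
      have h5 : IsNilpotent (B * (y : Matrix ι ι K)) := by
        obtain ⟨m, hm⟩ := h4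
        exact ⟨n * m, by rw [pow_mul, hm]⟩
      exact (Matrix.isNilpotent_trace_of_isNilpotent h5).eq_zero
    exact Ideal.Quotient.eq_zero_iff_mem.2 ((memI y).2 hy)
  refine ⟨D ⧸ I, inferInstance, inferInstance, hfin, hss, Ideal.Quotient.mkₐ K I, hsurj,
    fun x => ?_⟩
  rw [← memI x]
  exact Ideal.Quotient.eq_zero_iff_mem

end ZO
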