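import Pool.Agent.W_f569db_zo.Wed
import Pool.Agent.W_f569db_zo.Nil

set_option autoImplicit false

/-!
# Consequences of the semisimplicity of `D / rad D`

1. `cs_rad`: Cauchy-Schwarz for the ranks of the trace pairing on `f D e`.  With `π : D → R` from
   `exists_quot`: the image of `D` (resp. `rad D`) under `x ↦ f x e` is `f D e` (resp.
   `f (rad D) e = rad D ∩ f D e`), `π` maps `f D e` onto `(π f) R (π e)` with kernel
   `rad D ∩ f D e`, so `cod (sand f e) D (rad D) = finrank (range (sandR (π f) (π e)))`; use `wed`.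
2. `left_idem`: a left ideal `L` of `D` is, modulo `rad D`, generated by an idempotent `q ∈ D`:
   `π(L)` is a left ideal of the semisimple ring `R`, so it is `R * e` with `e` idempotent
   (`IsSemisimpleRing.ideal_eq_span_idempotent`; `y = y * e` for `y ∈ R * e`), and `e` lifts to an
   idempotent of `D` (`exists_isIdempotentElem_eq_of_ker_isNilpotent`, the kernel of `π` consists of
   nilpotent elements by `rad_nilp`).
3. `semis_sub`: a semisimple subalgebra `D' ≤ D` meets `rad D` in zero (`D' ∩ rad D` is an ideal of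
   `D'` all of whose elements are nilpotent, so it is contained in the Jacobson radical), hence
   `dim D' ≤ dim D - dim (rad D)`.
-/

noncomputable section

namespace ZO

open Matrix Module

variable {ι : Type*} [Fintype ι] [DecidableEq ι] {K : Type*} [Field K] [CharZero K]

theorem cauchy_ker {D : Subalgebra K (Matrix ι ι K)} {x : D}
    (hx : (x : Matrix ι ι K) ∈ rad D) : IsNilpotent x := by
  obtain ⟨n, hn⟩ := rad_nilp hx
  exact ⟨n, Subtype.ext (by rw [SubmonoidClass.coe_pow, hn]; rfl)⟩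

/-- the rank of the trace pairing on `f D e` is the dimension of a Peirce block of `D / rad D` -/
theorem cauchy_cod (D : Subalgebra K (Matrix ι ι K)) {R : Type*} [Ring R] [Algebra K R]
    (π : D →ₐ[K] R) (hπ : Function.Surjective π)
    (hk : ∀ x : D, π x = 0 ↔ (x : Matrix ι ι K) ∈ rad D) {e f : Matrix ι ι K} (he : e ∈ D)
    (hf : f ∈ D) (he2 : e * e = e) (hf2 : f * f = f) :
    cod (sand f e) D.toSubmodule (rad D) =
      finrank K (LinearMap.range (sandR K (π ⟨f, hf⟩) (π ⟨e, he⟩))) := by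
  set W := D.toSubmodule.map (sand f e) with hW
  have hWD : ∀ w ∈ W, w ∈ D := by
    rintro w ⟨x, hx, rfl⟩
    exact D.mul_mem (D.mul_mem hf hx) he
  let ψ : W →ₗ[K] R :=
    { toFun := fun w => π ⟨w.1, hWD w.1 w.2⟩
      map_add' := fun a b => by
        rw [← map_add]
        rfl
      map_smul' := fun c a => by
        rw [RingHom.id_apply, ← map_smul]
        rfl }
  have hψ : ∀ w : W, ψ w = π ⟨w.1, hWD w.1 w.2⟩ := fun _ => rfl
  have hr : LinearMap.range ψ = LinearMap.range (sandR K (π ⟨f, hf⟩) (π ⟨e, he⟩)) := by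
    apply le_antisymm
    · rintro _ ⟨⟨w, x, hx, rfl⟩, rfl⟩
      refine ⟨π ⟨x, hx⟩, ?_⟩
      rw [hψ, sandR_apply, ← map_mul, ← map_mul]
      congr 1
      apply Subtype.ext
      change f * (x * e) = f * x * e
      rw [Matrix.mul_assoc]
    · rintro _ ⟨y, rfl⟩
      obtain ⟨x, rfl⟩ := hπ y
      refine ⟨⟨f * x.1 * e, x.1, x.2, rfl⟩, ?_⟩
      rw [hψ, sandR_apply, ← map_mul, ← map_mul]
      congr 1
      apply Subtype.ext
      change f * x.1 * e = f * (x.1 * e)
      rw [Matrix.mul_assoc]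
  have hke : (LinearMap.ker ψ).map W.subtype = (rad D).map (sand f e) := by
    apply le_antisymm
    · rintro _ ⟨⟨w, x, hx, rfl⟩, hw, rfl⟩
      have h1 : (sand f e) x ∈ rad D := (hk _).1 hw
      refine ⟨(sand f e) x, h1, ?_⟩
      change f * (f * x * e) * e = f * x * e
      calc f * (f * x * e) * e = (f * f) * x * (e * e) := by
            simp only [Matrix.mul_assoc]
        _ = f * x * e := by rw [he2, hf2]
    · rintro _ ⟨r, hr', rfl⟩
      have h1 : (sand f e) r ∈ rad D := rad_mul_right (rad_mul_left hr' hf) he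
      refine ⟨⟨(sand f e) r, r, hr'.1, rfl⟩, ?_, rfl⟩
      exact (hk _).2 h1
  have h1 := LinearMap.finrank_range_add_finrank_ker ψ
  have h2 : finrank K (LinearMap.ker ψ) = finrank K ((rad D).map (sand f e)) := by
    rw [← hke]
    exact (LinearEquiv.finrank_eq (Submodule.equivMapOfInjective W.subtype
      W.injective_subtype (LinearMap.ker ψ)))
  rw [h2, hr] at h1
  unfold cod
  rw [← hW, ← h1]
  push_cast
  ring

theorem cs_rad (D : Subalgebra K (Matrix ι ι K)) {e f : Matrix ι ι K} (he : e ∈ D) (hf : f ∈ D)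
    (he2 : e * e = e) (hf2 : f * f = f) :
    (cod (sand f e) D.toSubmodule (rad D)) ^ 2 ≤
      cod (sand e e) D.toSubmodule (rad D) * cod (sand f f) D.toSubmodule (rad D) := by
  obtain ⟨R, _, _, _, _, π, hπ, hk⟩ := exists_quot D
  rw [cauchy_cod D π hπ hk he hf he2 hf2, cauchy_cod D π hπ hk he he he2 he2,
    cauchy_cod D π hπ hk hf hf hf2 hf2]
  have h1 : IsIdempotentElem (π ⟨e, he⟩) := by
    rw [IsIdempotentElem, ← map_mul]
    congr 1
    exact Subtype.ext he2
  have h2 : IsIdempotentElem (π ⟨f, hf⟩) := by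
    rw [IsIdempotentElem, ← map_mul]
    congr 1
    exact Subtype.ext hf2
  have h3 := wed K h1 h2
  exact_mod_cast h3

theorem left_idem (D : Subalgebra K (Matrix ι ι K)) (L : Submodule K (Matrix ι ι K))
    (hL : L ≤ D.toSubmodule) (hmul : ∀ x ∈ D, ∀ y ∈ L, x * y ∈ L) :
    ∃ q ∈ D, q * q = q ∧ (∀ x ∈ L, x - x * q ∈ rad D) ∧ ∃ l ∈ L, q - l ∈ rad D := by
  obtain ⟨R, _, _, _, _, π, hπ, hk⟩ := exists_quot D
  let J : Ideal R :=
    { carrier := {y | ∃ l : D, (l : Matrix ι ι K) ∈ L ∧ π l = y}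
      add_mem' := by
        rintro _ _ ⟨a, ha, rfl⟩ ⟨b, hb, rfl⟩
        exact ⟨a + b, L.add_mem ha hb, map_add π a b⟩
      zero_mem' := ⟨0, L.zero_mem, map_zero π⟩
      smul_mem' := by
        rintro c _ ⟨a, ha, rfl⟩
        obtain ⟨d, rfl⟩ := hπ c
        exact ⟨d * a, hmul d.1 d.2 a.1 ha, map_mul π d a⟩ }
  obtain ⟨e, he, hJ⟩ := IsSemisimpleRing.ideal_eq_span_idempotent J
  have heJ : e ∈ J := by
    rw [hJ]
    exact Ideal.mem_span_singleton_self e
  obtain ⟨l, hl, hle⟩ := heJ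
  obtain ⟨q, hq, hqe⟩ := exists_isIdempotentElem_eq_of_ker_isNilpotent
    (π : D →+* R) (fun x hx => cauchy_ker ((hk x).1 hx)) e ⟨l, hle⟩ he
  have hqe' : π q = e := hqe
  refine ⟨q.1, q.2, congrArg Subtype.val hq, ?_, l.1, hl, ?_⟩
  · intro x hx
    have hxJ : π ⟨x, hL hx⟩ ∈ J := ⟨⟨x, hL hx⟩, hx, rfl⟩
    rw [hJ, Ideal.mem_span_singleton'] at hxJ
    obtain ⟨c, hc⟩ := hxJ
    have h1 : π (⟨x, hL hx⟩ - ⟨x, hL hx⟩ * q) = 0 := by
      rw [map_sub, map_mul, hqe', ← hc, mul_assoc, he.eq, sub_self]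
    exact (hk _).1 h1
  · have h1 : π (q - l) = 0 := by
      rw [map_sub, hqe', hle, sub_self]
    exact (hk _).1 h1

theorem semis_sub (D D' : Subalgebra K (Matrix ι ι K)) (h : D' ≤ D) (hs : IsSemisimpleRing D') :
    (finrank K D' : ℝ) ≤ (finrank K D.toSubmodule : ℝ) - finrank K (rad D) := by
  let J : Ideal D' :=
    { carrier := {y | (y : Matrix ι ι K) ∈ rad D}
      add_mem' := fun {a b} ha hb => (rad D).add_mem ha hb
      zero_mem' := (rad D).zero_mem
      smul_mem' := fun c a ha => rad_mul_left ha (h c.2) }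
  obtain ⟨e, he, hJ⟩ := IsSemisimpleRing.ideal_eq_span_idempotent J
  have heJ : e ∈ J := by
    rw [hJ]
    exact Ideal.mem_span_singleton_self e
  have he0 : e = 0 := by
    have h1 : (e : Matrix ι ι K) ∈ rad D := heJ
    obtain ⟨n, hn⟩ := rad_nilp h1
    have h2 : e ^ (n + 1) = e := he.pow_succ_eq n
    have h3 : e ^ n = 0 := Subtype.ext (by rw [SubmonoidClass.coe_pow, hn]; rfl)
    rw [← h2, pow_succ, h3, zero_mul]
  have hinf : D'.toSubmodule ⊓ rad D = ⊥ := by
    rw [eq_bot_iff]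
    rintro x ⟨hx, hx'⟩
    have h1 : (⟨x, hx⟩ : D') ∈ J := hx'
    rw [hJ, he0, Ideal.mem_span_singleton'] at h1
    obtain ⟨c, hc⟩ := h1
    rw [mul_zero] at hc
    exact (congrArg Subtype.val hc).symm
  have hle : D'.toSubmodule ⊔ rad D ≤ D.toSubmodule := sup_le h fun x hx => hx.1
  have h1 := Submodule.finrank_sup_add_finrank_inf_eq D'.toSubmodule (rad D)
  rw [hinf, finrank_bot, add_zero] at h1
  have h2 := Submodule.finrank_mono hle
  have h3 : finrank K D' = finrank K D'.toSubmodule := rfl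
  have h4 : finrank K D' + finrank K (rad D) ≤ finrank K D.toSubmodule := by
    rw [h3, ← h1]
    exact h2
  have h5 : (finrank K D' : ℝ) + finrank K (rad D) ≤ finrank K D.toSubmodule := by
    exact_mod_cast h4
  linarith

end ZO
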