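import Mathlib

set_option autoImplicit false

/-!
# Zero-one law for the standard conjecture D: abstract setting

`V` is a vector space with a basis indexed by the finite type `α`; `V^{⊗ S}` (for a finite type `S`)
has a basis indexed by the words `S → α`.  A linear map `V^{⊗ S} → V^{⊗ S'}` is a matrix in
`Matrix (S' → α) (S → α) K`.

`Sys α K`: a family of subspaces `P S S'` of these matrices, closed under products, Kronecker products
`kr`, containing the permutations of the tensor factors `pm`, a nondegenerate bilinear form (`capM`)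
and its inverse (`cupM`).

`Sys.N`: the matrices of `P S S'` which are orthogonal to `P S' S` for the trace.
`Sys.a`: `dim P S S' - dim N S S'`, the rank of the trace pairing.
-/

noncomputable section

namespace ZO

open Matrix Module

/-- Kronecker product of matrices indexed by words -/
def kr {α : Type} {K : Type*} [Field K] {S S' T T' : Type} (A : Matrix (S' → α) (S → α) K)
    (B : Matrix (T' → α) (T → α) K) : Matrix (S' ⊕ T' → α) (S ⊕ T → α) K :=
  Matrix.of fun c d => A (c ∘ Sum.inl) (d ∘ Sum.inl) * B (c ∘ Sum.inr) (d ∘ Sum.inr)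

open Classical in
/-- The permutation of the tensor factors given by a bijection `e`: the basis vector `d : S → α` is
sent to `d ∘ e⁻¹`. -/
def pm (α : Type) (K : Type*) [Field K] {S S' : Type} (e : S ≃ S') :
    Matrix (S' → α) (S → α) K :=
  Matrix.of fun c d => if c ∘ e = d then 1 else 0

/-- The evaluation `V^{⊗ S} ⊗ V^{⊗ S} → K` given by a bilinear form `g`. -/
def capM {α : Type} {K : Type*} [Field K] (g : Matrix α α K) (S : Type) [Fintype S] :
    Matrix (Empty → α) (S ⊕ S → α) K :=
  Matrix.of fun _ c => ∏ s, g (c (Sum.inl s)) (c (Sum.inr s))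

/-- The coevaluation `K → V^{⊗ S} ⊗ V^{⊗ S}` given by a matrix `g'`. -/
def cupM {α : Type} {K : Type*} [Field K] (g' : Matrix α α K) (S : Type) [Fintype S] :
    Matrix (S ⊕ S → α) (Empty → α) K :=
  Matrix.of fun c _ => ∏ s, g' (c (Sum.inl s)) (c (Sum.inr s))

/-- A tensor category of matrices containing a nondegenerate bilinear form. -/
structure Sys (α : Type) [Fintype α] [DecidableEq α] (K : Type*) [Field K] where
  /-- the morphisms `V^{⊗ S} → V^{⊗ S'}` -/
  P : (S S' : Type) → Submodule K (Matrix (S' → α) (S → α) K)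
  /-- the bilinear form -/
  g : Matrix α α K
  /-- its inverse -/
  g' : Matrix α α K
  gg' : g * g' = 1
  g'g : g' * g = 1
  one_mem : ∀ (S : Type) [Fintype S] [DecidableEq S], (1 : Matrix (S → α) (S → α) K) ∈ P S S
  mul_mem : ∀ {S S' S'' : Type} [Fintype S] [DecidableEq S] [Fintype S'] [DecidableEq S']
    [Fintype S''] [DecidableEq S''] {A : Matrix (S'' → α) (S' → α) K}
    {B : Matrix (S' → α) (S → α) K}, A ∈ P S' S'' → B ∈ P S S' → A * B ∈ P S S''
  kr_mem : ∀ {S S' T T' : Type} [Fintype S] [DecidableEq S] [Fintype S'] [DecidableEq S']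
    [Fintype T] [DecidableEq T] [Fintype T'] [DecidableEq T'] {A : Matrix (S' → α) (S → α) K}
    {B : Matrix (T' → α) (T → α) K}, A ∈ P S S' → B ∈ P T T' → kr A B ∈ P (S ⊕ T) (S' ⊕ T')
  pm_mem : ∀ {S S' : Type} [Fintype S] [DecidableEq S] [Fintype S'] [DecidableEq S'] (e : S ≃ S'),
    pm α K e ∈ P S S'
  cap_mem : ∀ (S : Type) [Fintype S] [DecidableEq S], capM g S ∈ P (S ⊕ S) Empty
  cup_mem : ∀ (S : Type) [Fintype S] [DecidableEq S], cupM g' S ∈ P Empty (S ⊕ S)

variable {α : Type} [Fintype α] [DecidableEq α] {K : Type*} [Field K]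

namespace Sys

variable (Q : Sys α K)

/-- The numerically trivial morphisms: the matrices `A ∈ P S S'` with `tr (A B) = 0` for all
`B ∈ P S' S`. -/
def N (S S' : Type) [Fintype S] [DecidableEq S] [Fintype S'] [DecidableEq S'] :
    Submodule K (Matrix (S' → α) (S → α) K) where
  carrier := {A | A ∈ Q.P S S' ∧ ∀ B ∈ Q.P S' S, Matrix.trace (A * B) = 0}
  add_mem' := by
    rintro A A' ⟨h1, h2⟩ ⟨h3, h4⟩
    refine ⟨add_mem h1 h3, fun B hB => ?_⟩
    rw [Matrix.add_mul, Matrix.trace_add, h2 B hB, h4 B hB, add_zero]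
  zero_mem' := ⟨zero_mem _, fun B _ => by rw [Matrix.zero_mul, Matrix.trace_zero]⟩
  smul_mem' := by
    rintro c A ⟨h1, h2⟩
    refine ⟨Submodule.smul_mem _ c h1, fun B hB => ?_⟩
    rw [Matrix.smul_mul, Matrix.trace_smul, h2 B hB, smul_zero]

theorem mem_N {S S' : Type} [Fintype S] [DecidableEq S] [Fintype S'] [DecidableEq S']
    {A : Matrix (S' → α) (S → α) K} :
    A ∈ Q.N S S' ↔ A ∈ Q.P S S' ∧ ∀ B ∈ Q.P S' S, Matrix.trace (A * B) = 0 := Iff.rfl

theorem N_le (S S' : Type) [Fintype S] [DecidableEq S] [Fintype S'] [DecidableEq S'] :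
    Q.N S S' ≤ Q.P S S' := fun _ h => h.1

/-- `dim P S S' - dim N S S'` -/
def a (S S' : Type) [Fintype S] [DecidableEq S] [Fintype S'] [DecidableEq S'] : ℝ :=
  (finrank K (Q.P S S') : ℝ) - finrank K (Q.N S S')

/-- the dimension of the space of classes on the `n`-th power -/
def h (n : ℕ) : ℝ := finrank K (Q.P Empty (Fin n))

/-- the dimension of the space of classes on the `n`-th power modulo the numerically trivial ones -/
def A (n : ℕ) : ℝ := Q.a Empty (Fin n)

end Sys

/-- `dim F - dim (G)` for the images of `F` and `G` under a linear map -/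
def cod {V W : Type*} [AddCommGroup V] [Module K V] [AddCommGroup W] [Module K W]
    (φ : V →ₗ[K] W) (F G : Submodule K V) : ℝ :=
  (finrank K (F.map φ) : ℝ) - finrank K (G.map φ)

/-- `x ↦ f x e` as a linear map on rectangular matrices -/
def sand {ι κ ι' κ' : Type*} [Fintype ι] [Fintype κ] [Fintype ι'] [Fintype κ']
    (f : Matrix κ' κ K) (e : Matrix ι ι' K) : Matrix κ ι K →ₗ[K] Matrix κ' ι' K where
  toFun x := f * x * e
  map_add' x y := by rw [Matrix.mul_add, Matrix.add_mul]
  map_smul' c x := by rw [Matrix.mul_smul, Matrix.smul_mul]; rfl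

theorem sand_apply {ι κ ι' κ' : Type*} [Fintype ι] [Fintype κ] [Fintype ι'] [Fintype κ']
    (f : Matrix κ' κ K) (e : Matrix ι ι' K) (x : Matrix κ ι K) : sand f e x = f * x * e := rfl

/-- the trace radical of a set of square matrices -/
def rad {ι : Type*} [Fintype ι] [DecidableEq ι] (D : Subalgebra K (Matrix ι ι K)) :
    Submodule K (Matrix ι ι K) where
  carrier := {A | A ∈ D ∧ ∀ B ∈ D, Matrix.trace (A * B) = 0}
  add_mem' := by
    rintro A A' ⟨h1, h2⟩ ⟨h3, h4⟩
    refine ⟨add_mem h1 h3, fun B hB => ?_⟩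
    rw [Matrix.add_mul, Matrix.trace_add, h2 B hB, h4 B hB, add_zero]
  zero_mem' := ⟨zero_mem _, fun B _ => by rw [Matrix.zero_mul, Matrix.trace_zero]⟩
  smul_mem' := by
    rintro c A ⟨h1, h2⟩
    refine ⟨Subalgebra.smul_mem _ h1 c, fun B hB => ?_⟩
    rw [Matrix.smul_mul, Matrix.trace_smul, h2 B hB, smul_zero]

theorem mem_rad {ι : Type*} [Fintype ι] [DecidableEq ι] {D : Subalgebra K (Matrix ι ι K)}
    {A : Matrix ι ι K} : A ∈ rad D ↔ A ∈ D ∧ ∀ B ∈ D, Matrix.trace (A * B) = 0 := Iff.rfl

end ZO
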