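import Pool.Agent.W_f569db_zo.StDefs
import Pool.Agent.W_f569db_zo.Br7

set_option autoImplicit false

/-!
# The numerical rank over `ℚ` and over `K`

Let `d = dim Y`, `P_i` the `K`-span of the classes of cycles of codimension `i`
(`P_i ≤ grad (2 i)`, zero for `i > d`), `NT_i = P_i ⊓ ntSub`.
1. `algSpan Y` is the direct sum of the `P_i`, `i ≤ d`, and `ntSub` is the direct sum of the `NT_i`
   (the components of a numerically trivial class are numerically trivial, because `Tr (P_i P_j) = 0`
   for `i + j ≠ d`).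
2. For each `i`: `finrank ℚ (Cyc Y i ⧸ numTriv) = finrank P_i - finrank NT_i`: if the classes of
   `z_1, …, z_r` are linearly independent modulo `numTriv`, then `cl z_1, …, cl z_r` are linearly
   independent modulo `NT_i`: let `∑ t_j cl z_j ∈ NT`; the vectors `(Tr (cl z_j cl w))_j ∈ ℚ^r`
   (`exists_rat`), `w` a cycle of codimension `d - i`, span `ℚ^r`, so `t = 0`.  If `z_1, …, z_r` span
   modulo `numTriv` then the `cl z_j` span `P_i` modulo `NT_i`.
-/

noncomputable section

namespace ZO

open AlgebraicGeometry CategoryTheory MonoidalCategory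
open Pool.Agent.WeilH_h6 Pool.Agent.WeilH_h6.VarClass

universe u v w

variable {k : Type u} [Field k] {𝒱 : VarClass k} {K : Type v} [Field K] [CharZero K]
  (W : Weil.{u, v, w} 𝒱 K)

/-- the `K`-span of the classes of cycles of codimension `i` -/
def Pi (Y : 𝒱.Obj) (i : ℕ) : Submodule K (W.H Y) :=
  Submodule.span K {a | ∃ z : Cyc Y i, W.cl z = a}

omit [CharZero K] in
/-- dimension of the sum of independent subspaces -/
theorem Rat_finrank_iSup {V : Type*} [AddCommGroup V] [Module K V] [FiniteDimensional K V]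
    (G : ℕ → Submodule K V) (hind : iSupIndep G) (n : ℕ) :
    Module.finrank K (⨆ i ∈ Finset.range n, G i : Submodule K V) =
      ∑ i ∈ Finset.range n, Module.finrank K (G i) := by
  induction n with
  | zero =>
    have h : (⨆ i ∈ Finset.range 0, G i : Submodule K V) = ⊥ := by simp
    rw [h, finrank_bot, Finset.range_zero, Finset.sum_empty]
  | succ n ih =>
    have h : (⨆ i ∈ Finset.range (n + 1), G i : Submodule K V) =
        (⨆ i ∈ Finset.range n, G i) ⊔ G n := by
      rw [Finset.range_add_one, Finset.iSup_insert, sup_comm]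
    have hd : Disjoint (⨆ i ∈ Finset.range n, G i : Submodule K V) (G n) := by
      refine Disjoint.symm (Disjoint.mono_right ?_ (hind n))
      refine iSup₂_le fun i hi => ?_
      have hin : i ≠ n := by
        rw [Finset.mem_range] at hi
        omega
      exact le_iSup₂_of_le i hin le_rfl
    have h2 := Submodule.finrank_sup_add_finrank_inf_eq
      (⨆ i ∈ Finset.range n, G i : Submodule K V) (G n)
    rw [hd.eq_bot, finrank_bot, add_zero] at h2
    rw [h, h2, ih, Finset.sum_range_succ]

omit [CharZero K] in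
theorem Rat_Pi_le_grad (Y : 𝒱.Obj) (i : ℕ) : Pi W Y i ≤ W.grad Y (2 * i) := by
  unfold Pi
  rw [Submodule.span_le]
  rintro _ ⟨z, rfl⟩
  exact W.cl_mem_grad z

omit [CharZero K] in
theorem Rat_Pi_le (Y : 𝒱.Obj) (i : ℕ) : Pi W Y i ≤ W.algSpan Y := by
  unfold Pi
  rw [Submodule.span_le]
  rintro _ ⟨z, rfl⟩
  exact W.cl_mem_algSpan z

theorem Rat_indep (Y : 𝒱.Obj) : iSupIndep (Pi W Y) := by
  have h1 : iSupIndep (W.grad Y) := (W.isInternal Y).submodule_iSupIndep
  have h2 : iSupIndep (fun i : ℕ => W.grad Y (2 * i)) :=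
    h1.comp (f := fun i : ℕ => 2 * i) (fun a b hab => by simpa using hab)
  exact h2.mono (Rat_Pi_le_grad W Y)

theorem Rat_algSpan_eq (Y : 𝒱.Obj) :
    W.algSpan Y = ⨆ i ∈ Finset.range (Y.dim + 1), Pi W Y i := by
  apply le_antisymm
  · unfold Weil.algSpan
    rw [Submodule.span_le]
    rintro _ ⟨i, z, rfl⟩
    by_cases hi : i ∈ Finset.range (Y.dim + 1)
    · refine (le_iSup₂_of_le (f := fun i (_ : i ∈ Finset.range (Y.dim + 1)) => Pi W Y i) i hi le_rfl) ?_
      exact Submodule.subset_span ⟨z, rfl⟩
    · rw [Finset.mem_range] at hi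
      have h1 := W.cl_mem_grad z
      rw [W.vanish Y (2 * i) (by omega), Submodule.mem_bot] at h1
      rw [h1]
      exact Submodule.zero_mem _
  · exact iSup₂_le fun i _ => Rat_Pi_le W Y i

theorem Rat_ntSub_eq (Y : 𝒱.Obj) :
    ntSub W Y = ⨆ i ∈ Finset.range (Y.dim + 1), (Pi W Y i ⊓ ntSub W Y) := by
  apply le_antisymm
  · intro a ha
    have ha' : W.NT a := ha
    have h1 : a ∈ ⨆ i, Pi W Y i := by
      have h2 := ha'.1
      rw [Rat_algSpan_eq] at h2
      exact (iSup₂_le fun i _ => le_iSup (Pi W Y) i :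
        (⨆ i ∈ Finset.range (Y.dim + 1), Pi W Y i) ≤ ⨆ i, Pi W Y i) h2
    obtain ⟨f, hf, hfa⟩ := (Submodule.mem_iSup_iff_exists_finsupp (Pi W Y) a).1 h1
    have key : ∀ i, f i ∈ ntSub W Y := by
      intro i
      refine ⟨Rat_Pi_le W Y i (hf i), fun b hb => ?_⟩
      unfold Weil.algSpan at hb
      induction hb using Submodule.span_induction with
      | mem b hb =>
        obtain ⟨j, z', rfl⟩ := hb
        by_cases hij : i + j = Y.dim
        · have h2 : W.tr Y (a * W.cl z') = 0 := ha'.2 _ (W.cl_mem_algSpan z')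
          rw [← hfa, Finsupp.sum, Finset.sum_mul, map_sum, Finset.sum_eq_single i] at h2
          · exact h2
          · intro l _ hl
            refine W.tr_grad Y (2 * l + 2 * j) _
              (W.mul_mem_grad (Rat_Pi_le_grad W Y l (hf l)) (W.cl_mem_grad z')) ?_
            omega
          · intro hi
            rw [Finsupp.notMem_support_iff] at hi
            rw [hi, zero_mul, map_zero]
        · exact W.tr_grad Y (2 * i + 2 * j) _
            (W.mul_mem_grad (Rat_Pi_le_grad W Y i (hf i)) (W.cl_mem_grad z')) (by omega)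
      | zero => rw [mul_zero, map_zero]
      | add x y _ _ hx hy => rw [mul_add, map_add, hx, hy, add_zero]
      | smul r x _ hx => rw [mul_smul_comm, map_smul, hx, smul_zero]
    rw [← hfa]
    refine Submodule.sum_mem _ fun i _ => ?_
    by_cases hi : i ∈ Finset.range (Y.dim + 1)
    · exact (le_iSup₂_of_le (f := fun i (_ : i ∈ Finset.range (Y.dim + 1)) =>
        (Pi W Y i ⊓ ntSub W Y)) i hi le_rfl) ⟨hf i, key i⟩
    · rw [Finset.mem_range] at hi
      have h1 := Rat_Pi_le_grad W Y i (hf i)
      rw [W.vanish Y (2 * i) (by omega), Submodule.mem_bot] at h1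
      rw [h1]
      exact Submodule.zero_mem _
  · exact iSup₂_le fun i _ => inf_le_right

theorem finrank_algSpan (Y : 𝒱.Obj) : Module.finrank K (W.algSpan Y) =
    ∑ i ∈ Finset.range (Y.dim + 1), Module.finrank K (Pi W Y i) := by
  rw [Rat_algSpan_eq, Rat_finrank_iSup _ (Rat_indep W Y)]

theorem finrank_ntSub (Y : 𝒱.Obj) : Module.finrank K (ntSub W Y) =
    ∑ i ∈ Finset.range (Y.dim + 1), Module.finrank K (Pi W Y i ⊓ ntSub W Y : Submodule K (W.H Y)) := by
  conv_lhs => rw [Rat_ntSub_eq]
  exact Rat_finrank_iSup _ ((Rat_indep W Y).mono fun i => inf_le_left) _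

/-- a cycle is numerically trivial iff its class is in `ntSub` -/
theorem Rat_numTriv_iff (Y : 𝒱.Obj) (i : ℕ) (z : Cyc Y i) :
    z ∈ numTriv W Y i ↔ W.cl z ∈ ntSub W Y := by
  constructor
  · intro hz
    have hz' : W.NumTrivial z := hz
    refine ⟨W.cl_mem_algSpan z, fun b hb => ?_⟩
    unfold Weil.algSpan at hb
    induction hb using Submodule.span_induction with
    | mem b hb =>
      obtain ⟨j, z', rfl⟩ := hb
      by_cases hij : i + j = Y.dim
      · exact hz' j z' hij
      · exact W.tr_grad Y (2 * i + 2 * j) _ (W.mul_mem_grad (W.cl_mem_grad z) (W.cl_mem_grad z'))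
          (by omega)
    | zero => rw [mul_zero, map_zero]
    | add x y _ _ hx hy => rw [mul_add, map_add, hx, hy, add_zero]
    | smul r x _ hx => rw [mul_smul_comm, map_smul, hx, smul_zero]
  · intro hz
    have hz' : W.NT (W.cl z) := hz
    intro j z' _
    exact hz'.2 _ (W.cl_mem_algSpan z')

/-- the class map is additive for finite sums with rational coefficients -/
theorem Rat_cl_sum (Y : 𝒱.Obj) (i : ℕ) {ι : Type*} (s : Finset ι) (q : ι → ℚ) (z : ι → Cyc Y i) :
    W.cl (∑ x ∈ s, q x • z x) = ∑ x ∈ s, (q x : K) • W.cl (z x) := by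
  classical
  induction s using Finset.induction_on with
  | empty => rw [Finset.sum_empty, Finset.sum_empty, W.RatNT_cl_zero]
  | insert a s ha ih => rw [Finset.sum_insert ha, Finset.sum_insert ha, W.cl_add, W.cl_smul, ih]

theorem finrank_quot (Y : 𝒱.Obj) (i : ℕ) (hi : i ≤ Y.dim) :
    Module.finrank ℚ (Cyc Y i ⧸ numTriv W Y i) +
      Module.finrank K (Pi W Y i ⊓ ntSub W Y : Submodule K (W.H Y)) =
    Module.finrank K (Pi W Y i) := by
  classical
  let π := (ntSub W Y).mkQ
  let S : Set (W.H Y ⧸ ntSub W Y) := π '' {a | ∃ z : Cyc Y i, W.cl z = a}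
  have hS : Submodule.span K S = (Pi W Y i).map π := by
    unfold Pi
    rw [Submodule.map_span]
  obtain ⟨b, hbS, hbspan, hbind⟩ := exists_linearIndependent K S
  have hbfin : b.Finite := hbind.setFinite
  have : Fintype b := hbfin.fintype
  have hcard : Module.finrank K ((Pi W Y i).map π) = Fintype.card b := by
    rw [← hS, ← hbspan]
    rw [finrank_span_set_eq_card hbind, Set.toFinset_card]
  have hrn : Module.finrank K ((Pi W Y i).map π) +
      Module.finrank K (Pi W Y i ⊓ ntSub W Y : Submodule K (W.H Y)) =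
      Module.finrank K (Pi W Y i) := by
    have h1 := LinearMap.finrank_range_add_finrank_ker (π.domRestrict (Pi W Y i))
    have h2 : LinearMap.range (π.domRestrict (Pi W Y i)) = (Pi W Y i).map π := by
      rw [LinearMap.range_domRestrict]
    have h3 : Module.finrank K (LinearMap.ker (π.domRestrict (Pi W Y i))) =
        Module.finrank K (Pi W Y i ⊓ ntSub W Y : Submodule K (W.H Y)) := by
      rw [LinearMap.ker_domRestrict, Submodule.ker_mkQ]
      have h4 := (Submodule.comapSubtypeEquivOfLe
        (inf_le_left : (Pi W Y i ⊓ ntSub W Y : Submodule K (W.H Y)) ≤ Pi W Y i)).finrank_eq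
      rw [Submodule.comap_inf, Submodule.comap_subtype_self, top_inf_eq] at h4
      exact h4
    rw [h2, h3] at h1
    exact h1
  have hmem : ∀ a, a ∈ ntSub W Y ↔ π a = 0 := fun a =>
    (Submodule.Quotient.mk_eq_zero (ntSub W Y)).symm
  -- representatives
  have hz : ∀ x : b, ∃ z : Cyc Y i, π (W.cl z) = x := by
    intro x
    obtain ⟨_, ⟨z, rfl⟩, hz⟩ := hbS x.2
    exact ⟨z, hz⟩
  choose z hz using hz
  -- retraction
  obtain ⟨ρ, hρ⟩ := LinearMap.exists_leftInverse_of_injective (Algebra.linearMap ℚ K)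
    (LinearMap.ker_eq_bot.2 (algebraMap ℚ K).injective)
  have hρ' : ∀ q : ℚ, ρ (q : K) = q := by
    intro q
    have := LinearMap.congr_fun hρ q
    simpa using this
  have hind : LinearIndependent ℚ (fun x : b => (numTriv W Y i).mkQ (z x)) := by
    rw [Fintype.linearIndependent_iff]
    intro q hq
    have h1 : ∑ x, q x • z x ∈ numTriv W Y i := by
      rw [← Submodule.ker_mkQ (numTriv W Y i), LinearMap.mem_ker, map_sum, ← hq]
      refine Finset.sum_congr rfl fun x _ => ?_
      rw [map_smul]
    rw [Rat_numTriv_iff, Rat_cl_sum, hmem, map_sum] at h1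
    have h2 : ∑ x : b, (q x : K) • (x : W.H Y ⧸ ntSub W Y) = 0 := by
      rw [← h1]
      refine Finset.sum_congr rfl fun x _ => ?_
      rw [map_smul, ← hz x]
    have h3 := (Fintype.linearIndependent_iff.1 hbind) (fun x => (q x : K)) h2
    intro x
    exact_mod_cast h3 x
  have hspan : ⊤ ≤ Submodule.span ℚ (Set.range fun x : b => (numTriv W Y i).mkQ (z x)) := by
    rintro y -
    obtain ⟨w, rfl⟩ := Submodule.mkQ_surjective _ y
    -- coordinates over `K`
    have h1 : π (W.cl w) ∈ Submodule.span K (Set.range ((↑) : b → W.H Y ⧸ ntSub W Y)) := by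
      rw [Subtype.range_coe, hbspan]
      exact Submodule.subset_span ⟨_, ⟨w, rfl⟩, rfl⟩
    obtain ⟨t, ht⟩ := (Submodule.mem_span_range_iff_exists_fun K).1 h1
    have h2 : W.cl w - ∑ x : b, t x • W.cl (z x) ∈ ntSub W Y := by
      rw [hmem, map_sub, map_sum, sub_eq_zero]
      rw [← show (∑ x : b, t x • (x : W.H Y ⧸ ntSub W Y)) = π (W.cl w) from ht]
      refine Finset.sum_congr rfl fun x _ => ?_
      rw [map_smul]
      exact congrArg _ (hz x).symm
    have h3 : w - ∑ x : b, ρ (t x) • z x ∈ numTriv W Y i := by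
      intro j z' hij
      choose q hq using fun x : b => W.exists_rat hij (z x) z'
      obtain ⟨r, hr⟩ := W.exists_rat hij w z'
      have h4 : (r : K) = ∑ x : b, t x * (q x : K) := by
        have h5 := (show W.NT _ from h2).2 _ (W.cl_mem_algSpan z')
        rw [sub_mul, map_sub, hr, Finset.sum_mul, map_sum, sub_eq_zero] at h5
        rw [h5]
        refine Finset.sum_congr rfl fun x _ => ?_
        rw [smul_mul_assoc, map_smul, hq, smul_eq_mul]
      have h6 : r = ∑ x : b, ρ (t x) * q x := by
        have h7 := congrArg ρ h4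
        rw [hρ', map_sum] at h7
        rw [h7]
        refine Finset.sum_congr rfl fun x _ => ?_
        have h8 : t x * (q x : K) = q x • t x := by rw [Rat.smul_def, mul_comm]
        rw [h8, map_smul, smul_eq_mul, mul_comm]
      have h9 : W.cl (w - ∑ x : b, ρ (t x) • z x) = W.cl w - ∑ x : b, (ρ (t x) : K) • W.cl (z x) := by
        have e1 : w - ∑ x : b, ρ (t x) • z x = w + (-1 : ℚ) • ∑ x : b, ρ (t x) • z x := by
          rw [neg_one_smul, sub_eq_add_neg]
        rw [e1, W.cl_add, W.cl_smul, Rat_cl_sum]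
        push_cast
        rw [neg_one_smul, sub_eq_add_neg]
      rw [h9, sub_mul, map_sub, hr, Finset.sum_mul, map_sum, h6]
      push_cast
      rw [sub_eq_zero]
      refine Finset.sum_congr rfl fun x _ => ?_
      rw [smul_mul_assoc, map_smul, hq, smul_eq_mul]
    have h10 : (numTriv W Y i).mkQ w = ∑ x : b, ρ (t x) • (numTriv W Y i).mkQ (z x) := by
      rw [← sub_eq_zero, ← LinearMap.mem_ker.1 (by rw [Submodule.ker_mkQ]; exact h3 :
        w - ∑ x : b, ρ (t x) • z x ∈ LinearMap.ker (numTriv W Y i).mkQ), map_sub, map_sum]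
      simp_rw [map_smul]
    rw [h10]
    exact Submodule.sum_mem _ fun x _ => Submodule.smul_mem _ _ (Submodule.subset_span ⟨x, rfl⟩)
  have hfin : Module.finrank ℚ (Cyc Y i ⧸ numTriv W Y i) = Fintype.card b :=
    Module.finrank_eq_card_basis (Module.Basis.mk hind hspan)
  rw [hfin, ← hcard, hrn]

theorem numRank_eq (Y : 𝒱.Obj) : (numRank W Y : ℝ) =
    (Module.finrank K (W.algSpan Y) : ℝ) - Module.finrank K (ntSub W Y) := by
  rw [finrank_algSpan, finrank_ntSub, numRank]
  push_cast
  rw [← Finset.sum_sub_distrib]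
  refine Finset.sum_congr rfl fun i hi => ?_
  rw [Finset.mem_range] at hi
  rw [← finrank_quot W Y i (by omega)]
  push_cast
  ring

end ZO
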